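import Pool.Agent.H34.Env.Ell

open scoped RealInnerProductSpace Topology
open Filter

namespace Pool.Agent.H34.Env

variable {E : Type*} [NormedAddCommGroup E] [InnerProductSpace ℝ E]

section norming

variable {p pd q qd : E → ℝ}

/-- Existence of a norming functional. -/
lemma DP.norming [FiniteDimensional ℝ E] (h : DP p pd) (x : E) :
    ∃ f, pd f ≤ 1 ∧ ⟪x, f⟫ = p x := by
  have hcomp : IsCompact {f : E | pd f ≤ 1} := by
    obtain ⟨c, hc, hl⟩ := h.symm.lower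
    refine (isCompact_closedBall (0 : E) (1 / c)).of_isClosed_subset
      (isClosed_le h.symm.continuous continuous_const) (fun f hf => ?_)
    have h1 : c * ‖f‖ ≤ 1 := (hl f).trans hf
    rw [mem_closedBall_zero_iff, le_div_iff₀ hc]
    linarith
  have hne : {f : E | pd f ≤ 1}.Nonempty := ⟨0, by
    show pd 0 ≤ 1
    rw [h.symm.zero]; exact zero_le_one⟩
  obtain ⟨f, hf, hmax⟩ := hcomp.exists_isMaxOn hne
    (f := fun f : E => ⟪x, f⟫) (by fun_prop)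
  have hf' : pd f ≤ 1 := hf
  have h0 : 0 ≤ ⟪x, f⟫ := by
    have h2 : ⟪x, (0 : E)⟫ ≤ ⟪x, f⟫ := hmax (by
      show pd 0 ≤ 1
      rw [h.symm.zero]; exact zero_le_one)
    simpa using h2
  refine ⟨f, hf', le_antisymm ?_ ?_⟩
  · calc ⟪x, f⟫ ≤ p x * pd f := h.le x f
      _ ≤ p x * 1 := mul_le_mul_of_nonneg_left hf' (h.nn x)
      _ = p x := mul_one _
  · refine h.sup1 x _ h0 (fun y => ?_)
    by_cases hy : y = 0
    · rw [hy, inner_zero_right, h.symm.zero, mul_zero]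
    have hp : 0 < pd y := h.symm.pos hy
    have h2 : ⟪x, (pd y)⁻¹ • y⟫ ≤ ⟪x, f⟫ := hmax (by
      show pd ((pd y)⁻¹ • y) ≤ 1
      rw [h.symm.smul (inv_nonneg.mpr hp.le), inv_mul_cancel₀ hp.ne'])
    rw [inner_smul_right, inv_mul_le_iff₀ hp] at h2
    linarith

end norming

section rank

variable {k : ℕ}

/-- The operator `x ↦ ∑ c_i ⟪g_i, x⟫ g_i`. -/
noncomputable def rk (c : Fin k → ℝ) (g : Fin k → E) : E →L[ℝ] E :=
  ∑ i, c i • (innerSL ℝ (g i)).smulRight (g i)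

lemma rk_apply (c : Fin k → ℝ) (g : Fin k → E) (x : E) :
    rk c g x = ∑ i, c i • (⟪g i, x⟫ • g i) := by
  simp [rk]

lemma inner_rk (c : Fin k → ℝ) (g : Fin k → E) (x y : E) :
    ⟪rk c g x, y⟫ = ∑ i, c i * (⟪g i, x⟫ * ⟪g i, y⟫) := by
  rw [rk_apply, sum_inner]
  refine Finset.sum_congr rfl (fun i _ => ?_)
  rw [inner_smul_left, inner_smul_left, RCLike.conj_to_real, RCLike.conj_to_real]

lemma rk_sym (c : Fin k → ℝ) (g : Fin k → E) : Sym (rk c g) := by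
  intro x y
  rw [inner_rk, real_inner_comm, inner_rk]
  exact Finset.sum_congr rfl (fun i _ => by ring)

/-- Admissibility of diagonal rank-one sums. -/
lemma adm_rk {p q : E → ℝ} (μ : Fin k → ℝ) (hμ : ∀ i, 0 ≤ μ i) (g : Fin k → E)
    (h1 : ∀ x, ∑ i, ⟪g i, x⟫ ^ 2 ≤ p x ^ 2) (h2 : ∀ x, ∑ i, μ i * ⟪g i, x⟫ ^ 2 ≤ q x ^ 2) :
    Adm p q (rk (fun _ => 1) g) (rk (fun i => Real.sqrt (μ i)) g) (rk μ g) where
  su := rk_sym _ _
  sU := rk_sym _ _
  sv := rk_sym _ _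
  pU := by
    intro x
    rw [inner_rk]
    exact Finset.sum_nonneg (fun i _ => mul_nonneg (Real.sqrt_nonneg _) (mul_self_nonneg _))
  blk := by
    intro x y
    rw [inner_rk, inner_rk, inner_rk, Finset.mul_sum, ← Finset.sum_add_distrib,
      ← Finset.sum_add_distrib]
    refine Finset.sum_nonneg (fun i _ => ?_)
    have h3 : μ i = Real.sqrt (μ i) ^ 2 := (Real.sq_sqrt (hμ i)).symm
    have h4 : 1 * (⟪g i, x⟫ * ⟪g i, x⟫) + 2 * (Real.sqrt (μ i) * (⟪g i, x⟫ * ⟪g i, y⟫))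
        + μ i * (⟪g i, y⟫ * ⟪g i, y⟫) = (⟪g i, x⟫ + Real.sqrt (μ i) * ⟪g i, y⟫) ^ 2 := by
      have : (⟪g i, x⟫ + Real.sqrt (μ i) * ⟪g i, y⟫) ^ 2 = ⟪g i, x⟫ * ⟪g i, x⟫
        + 2 * (Real.sqrt (μ i) * (⟪g i, x⟫ * ⟪g i, y⟫))
        + Real.sqrt (μ i) ^ 2 * (⟪g i, y⟫ * ⟪g i, y⟫) := by ring
      rw [this, ← h3]
      ring
    rw [h4]
    exact sq_nonneg _
  lu := by
    intro x
    rw [inner_rk]
    refine le_trans (le_of_eq ?_) (h1 x)
    exact Finset.sum_congr rfl (fun i _ => by ring)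
  lv := by
    intro x
    rw [inner_rk]
    refine le_trans (le_of_eq ?_) (h2 x)
    exact Finset.sum_congr rfl (fun i _ => by ring)

end rank

section back

variable [FiniteDimensional ℝ E] {p pd q qd : E → ℝ}

/-- Sufficiency of the decomposition, in abstract form. -/
theorem back_abstract (hp : DP p pd) (hq : DP q qd) (hsym : ∀ x, p (-x) = p x) {k : ℕ}
    (P : Fin k → E →L[ℝ] E) (μ : Fin k → ℝ) (hμ : ∀ i, 0 < μ i)
    (hPP : ∀ i j, i ≠ j → ∀ x, P i (P j x) = 0) (hP : ∀ i x, P i (P i x) = P i x)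
    (hsum : ∀ x, ∑ i, P i x = x) (h1 : ∀ x, p x ^ 2 = ∑ i, p (P i x) ^ 2)
    (h2 : ∀ x, q x ^ 2 = ∑ i, μ i * p (P i x) ^ 2) (x z : E) :
    ⟪x, z⟫ ≤ (Nsq p q x + Nsq pd qd z) / 2 := by
  have : CompleteSpace E := FiniteDimensional.complete ℝ E
  set Q : Fin k → E →L[ℝ] E := fun i => ContinuousLinearMap.adjoint (P i) with hQ
  have hadj : ∀ i x y, ⟪P i x, y⟫ = ⟪x, Q i y⟫ := fun i x y => by
    rw [hQ, ContinuousLinearMap.adjoint_inner_right]
  -- the primal side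
  choose f hf1 hf2 using fun i => hp.norming (P i x)
  set g : Fin k → E := fun i => Q i (f i) with hg
  have hgx : ∀ i y, ⟪g i, y⟫ = ⟪P i y, f i⟫ := by
    intro i y
    rw [hadj, real_inner_comm]
  have habs : ∀ i y, ⟪g i, y⟫ ^ 2 ≤ p (P i y) ^ 2 := by
    intro i y
    rw [hgx]
    have a1 : ⟪P i y, f i⟫ ≤ p (P i y) := by
      calc ⟪P i y, f i⟫ ≤ p (P i y) * pd (f i) := hp.le _ _
        _ ≤ p (P i y) * 1 := mul_le_mul_of_nonneg_left (hf1 i) (hp.nn _)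
        _ = _ := mul_one _
    have a2 : -⟪P i y, f i⟫ ≤ p (P i y) := by
      rw [← inner_neg_left, ← hsym (P i y)]
      calc ⟪-P i y, f i⟫ ≤ p (-P i y) * pd (f i) := hp.le _ _
        _ ≤ p (-P i y) * 1 := mul_le_mul_of_nonneg_left (hf1 i) (hp.nn _)
        _ = _ := mul_one _
    exact sq_le_sq' (by linarith) a1
  have hA := adm_rk (p := p) (q := q) μ (fun i => (hμ i).le) g
    (fun y => by rw [h1 y]; exact Finset.sum_le_sum (fun i _ => habs i y))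
    (fun y => by
      rw [h2 y]
      exact Finset.sum_le_sum (fun i _ => mul_le_mul_of_nonneg_left (habs i y) (hμ i).le))
  have hN1 : ∑ i, Real.sqrt (μ i) * p (P i x) ^ 2 ≤ Nsq p q x := by
    have h3 : ⟪rk (fun i => Real.sqrt (μ i)) g x, x⟫ ≤ Nsq p q x :=
      le_Nsq hp hq x (t := (rk (fun _ => 1) g, rk (fun i => Real.sqrt (μ i)) g, rk μ g)) hA
    rw [inner_rk] at h3
    refine le_trans (le_of_eq ?_) h3
    refine Finset.sum_congr rfl (fun i _ => ?_)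
    rw [hgx, hf2]
    ring
  -- the dual side
  choose r hr1 hr2 using fun i => hp.symm.norming (Q i z)
  set s : Fin k → E := fun i => P i (r i) with hs
  have hps : ∀ i, p (s i) ≤ 1 := by
    intro i
    have a1 : p (P i (r i)) ^ 2 ≤ p (r i) ^ 2 := by
      rw [h1 (r i)]
      exact Finset.single_le_sum (f := fun j => p (P j (r i)) ^ 2) (fun j _ => sq_nonneg _)
        (Finset.mem_univ i)
    have a2 : p (P i (r i)) ≤ p (r i) := le_of_abs_le (abs_le_of_sq_le_sq a1 (hp.nn _))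
    exact a2.trans (hr1 i)
  have hsz : ∀ i, ⟪s i, z⟫ = pd (Q i z) := by
    intro i
    rw [hs, hadj, real_inner_comm, hr2]
  have hps2 : ∀ i (t : ℝ), p (t • s i) ^ 2 ≤ t ^ 2 := by
    intro i t
    have a0 : ∀ t : ℝ, 0 ≤ t → p (t • s i) ^ 2 ≤ t ^ 2 := by
      intro t ht
      rw [hp.smul ht, mul_pow]
      have := hp.nn (s i)
      have a1 : p (s i) ^ 2 ≤ 1 := by nlinarith [hps i]
      calc t ^ 2 * p (s i) ^ 2 ≤ t ^ 2 * 1 := mul_le_mul_of_nonneg_left a1 (sq_nonneg t)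
        _ = t ^ 2 := mul_one _
    rcases le_total 0 t with ht | ht
    · exact a0 t ht
    · have := a0 (-t) (by linarith)
      rw [neg_smul, hsym, neg_sq] at this
      exact this
  have hPsum : ∀ (c : Fin k → ℝ) (i : Fin k), P i (∑ j, c j • s j) = c i • s i := by
    intro c i
    rw [map_sum, Finset.sum_eq_single i]
    · rw [map_smul, hs, hP]
    · intro j _ hj
      rw [map_smul, hs, hPP i j (Ne.symm hj), smul_zero]
    · intro h; exact absurd (Finset.mem_univ i) h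
  have hB1 : ∀ y, ∑ i, ⟪s i, y⟫ ^ 2 ≤ pd y ^ 2 := by
    intro y
    set S := ∑ i, ⟪s i, y⟫ ^ 2 with hS
    have hS0 : 0 ≤ S := Finset.sum_nonneg (fun i _ => sq_nonneg _)
    set w := ∑ j, ⟪s j, y⟫ • s j with hw
    have e1 : ⟪w, y⟫ = S := by
      rw [hw, sum_inner]
      refine Finset.sum_congr rfl (fun i _ => ?_)
      rw [inner_smul_left, RCLike.conj_to_real]; ring
    have e2 : p w ^ 2 ≤ S := by
      rw [h1 w]
      refine Finset.sum_le_sum (fun i _ => ?_)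
      rw [hPsum (fun j => ⟪s j, y⟫) i]
      exact hps2 i _
    have e3 : S ≤ p w * pd y := e1 ▸ hp.le w y
    rcases hS0.eq_or_lt with h0 | h0
    · rw [← h0]; exact sq_nonneg _
    · have e4 : S ^ 2 ≤ S * pd y ^ 2 := by
        calc S ^ 2 ≤ (p w * pd y) ^ 2 := pow_le_pow_left₀ hS0 e3 2
          _ = p w ^ 2 * pd y ^ 2 := by ring
          _ ≤ S * pd y ^ 2 := mul_le_mul_of_nonneg_right e2 (sq_nonneg _)
      have e5 : S * S ≤ S * pd y ^ 2 := by rw [← sq]; exact e4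
      exact le_of_mul_le_mul_left e5 h0
  have hB2 : ∀ y, ∑ i, (μ i)⁻¹ * ⟪s i, y⟫ ^ 2 ≤ qd y ^ 2 := by
    intro y
    set S := ∑ i, (μ i)⁻¹ * ⟪s i, y⟫ ^ 2 with hS
    have hS0 : 0 ≤ S := Finset.sum_nonneg
      (fun i _ => mul_nonneg (inv_nonneg.mpr (hμ i).le) (sq_nonneg _))
    set w := ∑ j, ((μ j)⁻¹ * ⟪s j, y⟫) • s j with hw
    have e1 : ⟪w, y⟫ = S := by
      rw [hw, sum_inner]
      refine Finset.sum_congr rfl (fun i _ => ?_)
      rw [inner_smul_left, RCLike.conj_to_real]; ring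
    have e2 : q w ^ 2 ≤ S := by
      rw [h2 w]
      refine Finset.sum_le_sum (fun i _ => ?_)
      rw [hPsum (fun j => (μ j)⁻¹ * ⟪s j, y⟫) i]
      calc μ i * p (((μ i)⁻¹ * ⟪s i, y⟫) • s i) ^ 2
          ≤ μ i * ((μ i)⁻¹ * ⟪s i, y⟫) ^ 2 := mul_le_mul_of_nonneg_left (hps2 i _) (hμ i).le
        _ = (μ i)⁻¹ * ⟪s i, y⟫ ^ 2 := by
          have := (hμ i).ne'
          field_simp
    have e3 : S ≤ q w * qd y := e1 ▸ hq.le w y
    rcases hS0.eq_or_lt with h0 | h0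
    · rw [← h0]; exact sq_nonneg _
    · have e4 : S ^ 2 ≤ S * qd y ^ 2 := by
        calc S ^ 2 ≤ (q w * qd y) ^ 2 := pow_le_pow_left₀ hS0 e3 2
          _ = q w ^ 2 * qd y ^ 2 := by ring
          _ ≤ S * qd y ^ 2 := mul_le_mul_of_nonneg_right e2 (sq_nonneg _)
      have e5 : S * S ≤ S * qd y ^ 2 := by rw [← sq]; exact e4
      exact le_of_mul_le_mul_left e5 h0
  have hB := adm_rk (p := pd) (q := qd) (fun i => (μ i)⁻¹) (fun i => (inv_pos.mpr (hμ i)).le) s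
    hB1 hB2
  have hN2 : ∑ i, Real.sqrt ((μ i)⁻¹) * pd (Q i z) ^ 2 ≤ Nsq pd qd z := by
    have h3 : ⟪rk (fun i => Real.sqrt ((μ i)⁻¹)) s z, z⟫ ≤ Nsq pd qd z :=
      le_Nsq hp.symm hq.symm z (t := (rk (fun _ => 1) s, rk (fun i => Real.sqrt ((μ i)⁻¹)) s,
        rk (fun i => (μ i)⁻¹) s)) hB
    rw [inner_rk] at h3
    refine le_trans (le_of_eq ?_) h3
    refine Finset.sum_congr rfl (fun i _ => ?_)
    rw [hsz]
    ring
  -- combination
  have hxz : ⟪x, z⟫ = ∑ i, ⟪P i x, Q i z⟫ := by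
    calc ⟪x, z⟫ = ⟪∑ i, P i x, z⟫ := by rw [hsum x]
      _ = ∑ i, ⟪P i x, z⟫ := sum_inner _ _ _
      _ = ∑ i, ⟪P i x, Q i z⟫ := Finset.sum_congr rfl (fun i _ => by rw [← hadj, hP])
  rw [hxz]
  have hterm : ∀ i, ⟪P i x, Q i z⟫ ≤ (Real.sqrt (μ i) * p (P i x) ^ 2
      + Real.sqrt ((μ i)⁻¹) * pd (Q i z) ^ 2) / 2 := by
    intro i
    have a1 := hp.le (P i x) (Q i z)
    have hs0 : 0 < Real.sqrt (μ i) := Real.sqrt_pos.mpr (hμ i)
    rw [Real.sqrt_inv]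
    set σ := Real.sqrt (μ i)
    set A := p (P i x)
    set B := pd (Q i z)
    have a2 : σ * A ^ 2 + σ⁻¹ * B ^ 2 - 2 * (A * B) = σ⁻¹ * (σ * A - B) ^ 2 := by
      field_simp
      ring
    have a3 : 0 ≤ σ⁻¹ * (σ * A - B) ^ 2 := by positivity
    linarith
  calc ∑ i, ⟪P i x, Q i z⟫ ≤ ∑ i, (Real.sqrt (μ i) * p (P i x) ^ 2
      + Real.sqrt ((μ i)⁻¹) * pd (Q i z) ^ 2) / 2 := Finset.sum_le_sum (fun i _ => hterm i)
    _ = (∑ i, Real.sqrt (μ i) * p (P i x) ^ 2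
      + ∑ i, Real.sqrt ((μ i)⁻¹) * pd (Q i z) ^ 2) / 2 := by
        rw [← Finset.sum_div, Finset.sum_add_distrib]
    _ ≤ _ := by linarith

end back

end Pool.Agent.H34.Env
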