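import Mathlib

open scoped RealInnerProductSpace Topology
open Filter

namespace Pool.Agent.H34.Env

section quad

/-- A quadratic polynomial without constant term that is nonnegative has zero linear term. -/
lemma lin_zero {a b : ℝ} (h : ∀ t : ℝ, 0 ≤ a * t ^ 2 + b * t) : b = 0 := by
  have h1 : ∀ t : ℝ, 0 ≤ a * (t * t) + b * t + 0 := by
    intro t
    have := h t
    nlinarith
  have h2 := discrim_le_zero h1
  unfold discrim at h2
  nlinarith [sq_nonneg b]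

end quad

variable {E : Type*} [NormedAddCommGroup E] [InnerProductSpace ℝ E]

/-- Symmetric operators. -/
def Sym (A : E →L[ℝ] E) : Prop := ∀ x y, ⟪A x, y⟫ = ⟪x, A y⟫

/-- Nonnegative quadratic form. -/
def Psd (A : E →L[ℝ] E) : Prop := ∀ x, 0 ≤ ⟪A x, x⟫

lemma Psd.cs {A : E →L[ℝ] E} (hs : Sym A) (hp : Psd A) (x y : E) :
    ⟪A x, y⟫ ^ 2 ≤ ⟪A x, x⟫ * ⟪A y, y⟫ := by
  have h1 : ∀ t : ℝ, 0 ≤ ⟪A y, y⟫ * (t * t) + (2 * ⟪A x, y⟫) * t + ⟪A x, x⟫ := by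
    intro t
    have h := hp (x + t • y)
    have e : ⟪A (x + t • y), x + t • y⟫
        = ⟪A y, y⟫ * (t * t) + (2 * ⟪A x, y⟫) * t + ⟪A x, x⟫ := by
      simp only [map_add, map_smul, inner_add_left, inner_add_right, inner_smul_left,
        inner_smul_right, RCLike.conj_to_real]
      rw [hs y x, real_inner_comm (A x) y]
      ring
    rw [e] at h
    exact h
  have h2 := discrim_le_zero h1
  unfold discrim at h2
  nlinarith

lemma Psd.eq_zero {A : E →L[ℝ] E} (hs : Sym A) (hp : Psd A) {x : E} (h : ⟪A x, x⟫ ≤ 0) :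
    A x = 0 := by
  have h0 : ⟪A x, x⟫ = 0 := le_antisymm h (hp x)
  have h1 := Psd.cs hs hp x (A x)
  rw [h0, zero_mul] at h1
  have h2 : ⟪A x, A x⟫ = 0 := by nlinarith [sq_nonneg ⟪A x, A x⟫]
  exact inner_self_eq_zero.mp h2

/-- Admissible triples: block positive data `[[u,U],[U,v]]` with `u ≤ p^2`, `v ≤ q^2`. -/
structure Adm (p q : E → ℝ) (u U v : E →L[ℝ] E) : Prop where
  su : Sym u
  sU : Sym U
  sv : Sym v
  pU : Psd U
  blk : ∀ x y, 0 ≤ ⟪u x, x⟫ + 2 * ⟪U x, y⟫ + ⟪v y, y⟫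
  lu : ∀ x, ⟪u x, x⟫ ≤ p x ^ 2
  lv : ∀ x, ⟪v x, x⟫ ≤ q x ^ 2

namespace Adm

variable {p q : E → ℝ} {u U v : E →L[ℝ] E}

lemma swap (h : Adm p q u U v) : Adm q p v U u where
  su := h.sv
  sU := h.sU
  sv := h.su
  pU := h.pU
  blk := by
    intro x y
    have h1 := h.blk y x
    have e : ⟪U x, y⟫ = ⟪U y, x⟫ := by rw [h.sU x y, real_inner_comm]
    rw [e]
    linarith
  lu := h.lv
  lv := h.lu

lemma pu (h : Adm p q u U v) : Psd u := by
  intro x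
  have := h.blk x 0
  simpa using this

lemma pv (h : Adm p q u U v) : Psd v := h.swap.pu

lemma cs (h : Adm p q u U v) (x y : E) : ⟪U x, y⟫ ^ 2 ≤ ⟪u x, x⟫ * ⟪v y, y⟫ := by
  have h1 : ∀ t : ℝ, 0 ≤ ⟪v y, y⟫ * (t * t) + (2 * ⟪U x, y⟫) * t + ⟪u x, x⟫ := by
    intro t
    have h := h.blk x (t • y)
    simp only [map_smul, inner_smul_left, inner_smul_right, RCLike.conj_to_real] at h
    nlinarith
  have h2 := discrim_le_zero h1
  unfold discrim at h2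
  nlinarith

lemma eq_zero (h : Adm p q u U v) {z c : E}
    (h0 : ⟪u z, z⟫ + 2 * ⟪U z, c⟫ + ⟪v c, c⟫ ≤ 0) : u z + U c = 0 ∧ U z + v c = 0 := by
  have key : ∀ s : E, ⟪u z + U c, s⟫ = 0 := by
    intro s
    have h1 : ∀ t : ℝ, 0 ≤ ⟪u s, s⟫ * t ^ 2 + (2 * ⟪u z + U c, s⟫) * t := by
      intro t
      have h2 := h.blk (z + t • s) c
      simp only [map_add, map_smul, inner_add_left, inner_add_right, inner_smul_left,
        inner_smul_right, RCLike.conj_to_real] at h2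
      have e1 : ⟪u s, z⟫ = ⟪u z, s⟫ := by rw [h.su s z, real_inner_comm]
      have e2 : ⟪U s, c⟫ = ⟪U c, s⟫ := by rw [h.sU s c, real_inner_comm]
      rw [e1, e2] at h2
      rw [inner_add_left]
      nlinarith
    have := lin_zero h1
    linarith
  have key2 : ∀ s : E, ⟪U z + v c, s⟫ = 0 := by
    intro s
    have h1 : ∀ t : ℝ, 0 ≤ ⟪v s, s⟫ * t ^ 2 + (2 * ⟪U z + v c, s⟫) * t := by
      intro t
      have h2 := h.blk z (c + t • s)
      simp only [map_add, map_smul, inner_add_left, inner_add_right, inner_smul_left,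
        inner_smul_right, RCLike.conj_to_real] at h2
      have e1 : ⟪v s, c⟫ = ⟪v c, s⟫ := by rw [h.sv s c, real_inner_comm]
      rw [e1] at h2
      rw [inner_add_left]
      nlinarith
    have := lin_zero h1
    linarith
  exact ⟨inner_self_eq_zero.mp (key _), inner_self_eq_zero.mp (key2 _)⟩

end Adm

/-- A pair of mutually dual gauges on `E`. -/
structure DP (p pd : E → ℝ) : Prop where
  nn : ∀ x, 0 ≤ p x
  nnd : ∀ y, 0 ≤ pd y
  le : ∀ x y, ⟪x, y⟫ ≤ p x * pd y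
  sup1 : ∀ x c, 0 ≤ c → (∀ y, ⟪x, y⟫ ≤ c * pd y) → p x ≤ c
  sup2 : ∀ y c, 0 ≤ c → (∀ x, ⟪x, y⟫ ≤ c * p x) → pd y ≤ c
  bd : ∃ C, 0 ≤ C ∧ ∀ x, p x ≤ C * ‖x‖
  bdd : ∃ C, 0 ≤ C ∧ ∀ y, pd y ≤ C * ‖y‖

namespace DP

variable {p pd q qd : E → ℝ}

lemma symm (h : DP p pd) : DP pd p where
  nn := h.nnd
  nnd := h.nn
  le := by intro x y; rw [real_inner_comm, mul_comm]; exact h.le y x
  sup1 := by
    intro x c hc hh
    refine h.sup2 x c hc (fun y => ?_)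
    rw [real_inner_comm]; exact hh y
  sup2 := by
    intro x c hc hh
    refine h.sup1 x c hc (fun y => ?_)
    rw [real_inner_comm]; exact hh y
  bd := h.bdd
  bdd := h.bd

lemma add (h : DP p pd) (x y : E) : p (x + y) ≤ p x + p y := by
  refine h.sup1 _ _ (add_nonneg (h.nn x) (h.nn y)) (fun z => ?_)
  rw [inner_add_left, add_mul]
  exact add_le_add (h.le x z) (h.le y z)

lemma zero (h : DP p pd) : p 0 = 0 := by
  apply le_antisymm _ (h.nn 0)
  exact h.sup1 0 0 le_rfl (fun z => by simp)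

lemma pos (h : DP p pd) {x : E} (hx : x ≠ 0) : 0 < p x := by
  rcases (h.nn x).eq_or_lt with h0 | h0
  · exfalso
    have := h.le x x
    rw [← h0, zero_mul] at this
    exact hx (real_inner_self_nonpos.mp this)
  · exact h0

lemma smul_le (h : DP p pd) {t : ℝ} (ht : 0 ≤ t) (x : E) : p (t • x) ≤ t * p x := by
  refine h.sup1 _ _ (mul_nonneg ht (h.nn x)) (fun z => ?_)
  rw [inner_smul_left, RCLike.conj_to_real, mul_assoc]
  exact mul_le_mul_of_nonneg_left (h.le x z) ht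

lemma smul (h : DP p pd) {t : ℝ} (ht : 0 ≤ t) (x : E) : p (t • x) = t * p x := by
  rcases ht.eq_or_lt with h0 | h0
  · rw [← h0]; simp [h.zero]
  · refine le_antisymm (h.smul_le ht x) ?_
    have := h.smul_le (inv_nonneg.mpr ht) (t • x)
    rw [smul_smul, inv_mul_cancel₀ h0.ne', one_smul] at this
    calc t * p x ≤ t * (t⁻¹ * p (t • x)) := mul_le_mul_of_nonneg_left this ht
      _ = p (t • x) := by rw [← mul_assoc, mul_inv_cancel₀ h0.ne', one_mul]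

lemma lower (h : DP p pd) : ∃ c, 0 < c ∧ ∀ x, c * ‖x‖ ≤ p x := by
  obtain ⟨C, hC, hb⟩ := h.bdd
  refine ⟨(C + 1)⁻¹, by positivity, fun x => ?_⟩
  by_cases hx : x = 0
  · simp [hx, h.zero]
  have h1 := h.le x x
  rw [real_inner_self_eq_norm_sq] at h1
  have h2 : p x * pd x ≤ p x * ((C + 1) * ‖x‖) := by
    apply mul_le_mul_of_nonneg_left _ (h.nn x)
    have := hb x
    nlinarith [norm_nonneg x]
  have hx' : 0 < ‖x‖ := norm_pos_iff.mpr hx
  have h3 : ‖x‖ ≤ p x * (C + 1) := by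
    have : ‖x‖ * ‖x‖ ≤ (p x * (C + 1)) * ‖x‖ := by nlinarith
    exact le_of_mul_le_mul_right this hx'
  rw [inv_mul_le_iff₀ (by positivity)]
  linarith

lemma continuous (h : DP p pd) : Continuous p := by
  obtain ⟨C, hC, hb⟩ := h.bd
  have : LipschitzWith C.toNNReal p := by
    apply LipschitzWith.of_le_add_mul
    intro x y
    have h1 := h.add y (x - y)
    rw [add_sub_cancel] at h1
    have h2 := hb (x - y)
    rw [dist_eq_norm, Real.coe_toNNReal C hC]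
    linarith
  exact this.continuous

/-- If `⟪z, y⟫^2 ≤ s * p z ^ 2` for all `z` then `pd y ^ 2 ≤ s`. -/
lemma sq_le (h : DP p pd) {y : E} {s : ℝ} (hs : 0 ≤ s)
    (hz : ∀ z, ⟪z, y⟫ ^ 2 ≤ s * p z ^ 2) : pd y ^ 2 ≤ s := by
  have h1 : pd y ≤ Real.sqrt s := by
    refine h.sup2 y _ (Real.sqrt_nonneg _) (fun z => ?_)
    apply le_of_sq_le_sq_of_nonneg' 
    · exact mul_nonneg (Real.sqrt_nonneg _) (h.nn z)
    · rw [mul_pow, Real.sq_sqrt hs]; exact hz z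
  calc pd y ^ 2 ≤ Real.sqrt s ^ 2 := by
        exact pow_le_pow_left₀ (h.nnd y) h1 2
    _ = s := Real.sq_sqrt hs
where
  le_of_sq_le_sq_of_nonneg' {a b : ℝ} (hb : 0 ≤ b) (hab : a ^ 2 ≤ b ^ 2) : a ≤ b :=
    le_of_abs_le (abs_le_of_sq_le_sq hab hb)

end DP

section lemma1

variable {p pd q qd : E → ℝ} {u U v a w b : E →L[ℝ] E}

lemma Adm.dual_le (hp : DP p pd) (h : Adm p q u U v) (x : E) : pd (U x) ^ 2 ≤ ⟪v x, x⟫ := by
  refine hp.sq_le (h.pv x) (fun z => ?_)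
  have h1 := h.cs z x
  have h2 : ⟪z, U x⟫ = ⟪U z, x⟫ := (h.sU z x).symm
  rw [h2]
  calc ⟪U z, x⟫ ^ 2 ≤ ⟪u z, z⟫ * ⟪v x, x⟫ := h1
    _ ≤ p z ^ 2 * ⟪v x, x⟫ := mul_le_mul_of_nonneg_right (h.lu z) (h.pv x)
    _ = _ := mul_comm _ _

lemma Adm.self_le (hp : DP p pd) (h : Adm p q u U v) (x : E) : pd (u x) ^ 2 ≤ ⟪u x, x⟫ := by
  refine hp.sq_le (h.pu x) (fun z => ?_)
  have h1 := Psd.cs h.su h.pu z x
  have h2 : ⟪z, u x⟫ = ⟪u z, x⟫ := (h.su z x).symm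
  rw [h2]
  calc ⟪u z, x⟫ ^ 2 ≤ ⟪u z, z⟫ * ⟪u x, x⟫ := h1
    _ ≤ p z ^ 2 * ⟪u x, x⟫ := mul_le_mul_of_nonneg_right (h.lu z) (h.pu x)
    _ = _ := mul_comm _ _

/-- The algebra of data: all identities at a point fixed by `w U`. -/
structure Rel (p pd q qd : E → ℝ) (u U v a w b : E →L[ℝ] E) (x : E) : Prop where
  fix : w (U x) = x
  px : p x ^ 2 = ⟪u x, x⟫
  qx : q x ^ 2 = ⟪v x, x⟫
  pdy : pd (U x) ^ 2 = ⟪a (U x), U x⟫
  qdy : qd (U x) ^ 2 = ⟪b (U x), U x⟫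
  pq : pd (U x) ^ 2 = q x ^ 2
  qp : qd (U x) ^ 2 = p x ^ 2
  uay : u (a (U x)) = U x
  Uay : U (a (U x)) = v x
  vby : v (b (U x)) = U x
  Uby : U (b (U x)) = u x
  aux : a (u x) = x
  wux : w (u x) = b (U x)
  bvx : b (v x) = x
  wvx : w (v x) = a (U x)

lemma half_rel (hp : DP p pd) (hq : DP q qd) (h : Adm p q u U v) (g : Adm pd qd a w b)
    {x : E} (hx : w (U x) = x) :
    p x ^ 2 = ⟪u x, x⟫ ∧ q x ^ 2 = ⟪v x, x⟫ ∧ pd (U x) ^ 2 = ⟪a (U x), U x⟫ ∧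
    qd (U x) ^ 2 = ⟪b (U x), U x⟫ ∧ pd (U x) ^ 2 = q x ^ 2 ∧ qd (U x) ^ 2 = p x ^ 2 ∧
    u (a (U x)) = U x ∧ U (a (U x)) = v x := by
  have a1 := h.dual_le hp x
  have a2 := h.lv x
  have b1 := h.swap.dual_le hq x
  have b2 := h.lu x
  have c1 := g.dual_le hp.symm (U x)
  have c2 := g.lv (U x)
  have d1 := g.swap.dual_le hq.symm (U x)
  have d2 := g.lu (U x)
  rw [hx] at c1 d1
  have e1 : p x ^ 2 = ⟪u x, x⟫ := by linarith
  have e2 : q x ^ 2 = ⟪v x, x⟫ := by linarith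
  have e3 : pd (U x) ^ 2 = ⟪a (U x), U x⟫ := by linarith
  have e4 : qd (U x) ^ 2 = ⟪b (U x), U x⟫ := by linarith
  have e5 : pd (U x) ^ 2 = q x ^ 2 := by linarith
  have e6 : qd (U x) ^ 2 = p x ^ 2 := by linarith
  have f1 := g.self_le hp.symm (U x)
  have f2 := h.lu (a (U x))
  have f3 : ⟪U (a (U x)), x⟫ = ⟪a (U x), U x⟫ := h.sU _ _
  have hz := h.eq_zero (z := a (U x)) (c := -x) (by
    simp only [map_neg, inner_neg_right, inner_neg_left, neg_neg]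
    rw [f3]
    linarith)
  refine ⟨e1, e2, e3, e4, e5, e6, ?_, ?_⟩
  · have := hz.1
    rw [map_neg] at this
    exact add_neg_eq_zero.mp this
  · have := hz.2
    rw [map_neg] at this
    exact add_neg_eq_zero.mp this

lemma rel (hp : DP p pd) (hq : DP q qd) (h : Adm p q u U v) (g : Adm pd qd a w b)
    {x : E} (hx : w (U x) = x) : Rel p pd q qd u U v a w b x := by
  obtain ⟨e1, e2, e3, e4, e5, e6, e7, e8⟩ := half_rel hp hq h g hx
  obtain ⟨-, -, -, -, -, -, f7, f8⟩ := half_rel hq hp h.swap g.swap hx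
  have hy : U (w (U x)) = U x := by rw [hx]
  obtain ⟨-, -, -, -, -, -, g7, g8⟩ := half_rel hp.symm hq.symm g h hy
  obtain ⟨-, -, -, -, -, -, k7, k8⟩ := half_rel hq.symm hp.symm g.swap h.swap hy
  rw [hx] at g7 g8 k7 k8
  exact ⟨hx, e1, e2, e3, e4, e5, e6, e7, e8, f7, f8, g7, g8, k7, k8⟩

end lemma1

end Pool.Agent.H34.Env
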