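import Pool.Agent.H34.Env.Basic

open scoped RealInnerProductSpace Topology
open Filter

namespace Pool.Agent.H34.Env

variable {E : Type*} [NormedAddCommGroup E] [InnerProductSpace ℝ E]

section lax

variable {p pd q qd : E → ℝ} {u U v a w b : E →L[ℝ] E}

lemma lax_step (hp : DP p pd) (hq : DP q qd) (h : Adm p q u U v) (g : Adm pd qd a w b) (z : E) :
    pd (U (w z)) ≤ pd z := by
  have h1 := h.dual_le hp (w z)
  have h2 := h.lv (w z)
  have h3 := g.swap.dual_le hq.symm z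
  have h4 := g.lu z
  exact le_of_abs_le (abs_le_of_sq_le_sq (by linarith) (hp.nnd z))

lemma lax_iter (hp : DP p pd) (hq : DP q qd) (h : Adm p q u U v) (g : Adm pd qd a w b) (z : E)
    (m : ℕ) : pd (((U.comp w) ^ m) z) ≤ pd z := by
  induction m with
  | zero => simp
  | succ m ih =>
    rw [pow_succ']
    exact (lax_step hp hq h g _).trans ih

/-- The contraction inequality between primal and dual data. -/
lemma lax (hp : DP p pd) (hq : DP q qd) (h : Adm p q u U v) (g : Adm pd qd a w b) (y : E) :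
    ⟪U (w y), w y⟫ ≤ ⟪w y, y⟫ := by
  set T : E →L[ℝ] E := U.comp w with hT
  set s : ℕ → ℝ := fun m => ⟪w ((T ^ m) y), y⟫ with hs
  have hs0 : s 0 = ⟪w y, y⟫ := by simp [hs]
  have hs1 : s 1 = ⟪U (w y), w y⟫ := by
    simp only [hs, pow_one, hT, ContinuousLinearMap.comp_apply]
    exact g.sU _ _
  have move : ∀ x z : E, ⟪w x, T z⟫ = ⟪w (T x), z⟫ := by
    intro x z
    simp only [hT, ContinuousLinearMap.comp_apply]
    rw [← h.sU, ← g.sU]
  have move' : ∀ (k : ℕ) (x : E), ⟪w x, (T ^ k) y⟫ = ⟪w ((T ^ k) x), y⟫ := by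
    intro k
    induction k with
    | zero => intro x; simp
    | succ k ih =>
      intro x
      have e1 : (T ^ (k + 1)) y = T ((T ^ k) y) := by rw [pow_succ']; rfl
      have e2 : (T ^ (k + 1)) x = (T ^ k) (T x) := by rw [pow_succ]; rfl
      rw [e1, move, ih, e2]
  have hdouble : ∀ m, ⟪w ((T ^ m) y), (T ^ m) y⟫ = s (2 * m) := by
    intro m
    rw [move']
    have : (T ^ m) ((T ^ m) y) = (T ^ (2 * m)) y := by
      rw [two_mul, pow_add]; rfl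
    simp only [hs]
    rw [this]
  have hcs : ∀ m, s m ^ 2 ≤ s 0 * s (2 * m) := by
    intro m
    have := Psd.cs g.sU g.pU ((T ^ m) y) y
    rw [hdouble, ← hs0] at this
    rw [mul_comm]
    exact this
  have hs0nn : 0 ≤ s 0 := by rw [hs0]; exact g.pU y
  obtain ⟨c, hc, hlow⟩ := hp.symm.lower
  have hbd : ∀ m, s m ≤ ‖w‖ * (c⁻¹ * pd y) * ‖y‖ := by
    intro m
    have h1 : ‖(T ^ m) y‖ ≤ c⁻¹ * pd y := by
      have := (hlow ((T ^ m) y)).trans (lax_iter hp hq h g y m)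
      rw [← div_eq_inv_mul, le_div_iff₀ hc]
      linarith
    calc s m ≤ ‖w ((T ^ m) y)‖ * ‖y‖ := real_inner_le_norm _ _
      _ ≤ (‖w‖ * ‖(T ^ m) y‖) * ‖y‖ :=
        mul_le_mul_of_nonneg_right (w.le_opNorm _) (norm_nonneg _)
      _ ≤ _ := by
        apply mul_le_mul_of_nonneg_right _ (norm_nonneg _)
        exact mul_le_mul_of_nonneg_left h1 (norm_nonneg _)
  by_contra hcon
  rw [← hs0, ← hs1, not_le] at hcon
  rcases hs0nn.eq_or_lt with h0 | h0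
  · have := hcs 1
    rw [← h0, zero_mul] at this
    have h2 : s 1 = 0 := by nlinarith [sq_nonneg (s 1)]
    linarith
  · have hr : 1 < s 1 / s 0 := by rw [one_lt_div h0]; exact hcon
    have grow : ∀ k : ℕ, s 0 * (s 1 / s 0) ^ (2 ^ k) ≤ s (2 ^ k) := by
      intro k
      induction k with
      | zero => simp only [pow_zero, pow_one]; rw [mul_div_cancel₀ _ h0.ne']
      | succ k ih =>
        have h3 := hcs (2 ^ k)
        have h4 : 2 * 2 ^ k = 2 ^ (k + 1) := by ring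
        rw [h4] at h3
        have h5 : 0 ≤ s 0 * (s 1 / s 0) ^ (2 ^ k) := by positivity
        have h6 : (s 0 * (s 1 / s 0) ^ (2 ^ k)) ^ 2 ≤ s (2 ^ k) ^ 2 := pow_le_pow_left₀ h5 ih 2
        have h7 : (s 0 * (s 1 / s 0) ^ (2 ^ k)) ^ 2 = s 0 * (s 0 * (s 1 / s 0) ^ (2 ^ (k + 1))) := by
          rw [mul_pow, ← pow_mul, ← pow_succ]; ring
        rw [h7] at h6
        exact le_of_mul_le_mul_left (h6.trans h3) h0
    obtain ⟨n, hn⟩ := pow_unbounded_of_one_lt ((‖w‖ * (c⁻¹ * pd y) * ‖y‖) / s 0) hr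
    have h8 : (s 1 / s 0) ^ n ≤ (s 1 / s 0) ^ (2 ^ n) :=
      pow_le_pow_right₀ hr.le (Nat.lt_two_pow_self).le
    have h9 := (grow n).trans (hbd (2 ^ n))
    rw [div_lt_iff₀ h0] at hn
    nlinarith

end lax

section compact

lemma opNorm_le_of_inner {A : E →L[ℝ] E} {K : ℝ} (hK : 0 ≤ K)
    (h : ∀ x y, ⟪A x, y⟫ ^ 2 ≤ K ^ 2 * (‖x‖ ^ 2 * ‖y‖ ^ 2)) : ‖A‖ ≤ K := by
  refine A.opNorm_le_bound hK (fun x => ?_)
  have h1 := h x (A x)
  rw [real_inner_self_eq_norm_sq] at h1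
  by_cases h0 : ‖A x‖ = 0
  · rw [h0]; positivity
  · have hpos : 0 < ‖A x‖ := lt_of_le_of_ne (norm_nonneg _) (Ne.symm h0)
    have h2 : ‖A x‖ ^ 2 * ‖A x‖ ^ 2 ≤ (K * ‖x‖) ^ 2 * ‖A x‖ ^ 2 := by nlinarith
    have h3 : ‖A x‖ ^ 2 ≤ (K * ‖x‖) ^ 2 := le_of_mul_le_mul_right h2 (by positivity)
    exact le_of_abs_le (abs_le_of_sq_le_sq h3 (by positivity))

/-- The set of admissible triples. -/
def AdmSet (p q : E → ℝ) : Set ((E →L[ℝ] E) × (E →L[ℝ] E) × (E →L[ℝ] E)) :=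
  {t | Adm p q t.1 t.2.1 t.2.2}

lemma isClosed_admSet (p q : E → ℝ) : IsClosed (AdmSet p q) := by
  have e : AdmSet p q =
      ((⋂ x, ⋂ y, {t | ⟪t.1 x, y⟫ = ⟪x, t.1 y⟫}) ∩ (⋂ x, ⋂ y, {t | ⟪t.2.1 x, y⟫ = ⟪x, t.2.1 y⟫})) ∩
      ((⋂ x, ⋂ y, {t | ⟪t.2.2 x, y⟫ = ⟪x, t.2.2 y⟫}) ∩ (⋂ x, {t | 0 ≤ ⟪t.2.1 x, x⟫})) ∩
      ((⋂ x, ⋂ y, {t | 0 ≤ ⟪t.1 x, x⟫ + 2 * ⟪t.2.1 x, y⟫ + ⟪t.2.2 y, y⟫}) ∩
        ((⋂ x, {t | ⟪t.1 x, x⟫ ≤ p x ^ 2}) ∩ (⋂ x, {t | ⟪t.2.2 x, x⟫ ≤ q x ^ 2}))) := by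
    ext t
    simp only [AdmSet, Set.mem_setOf_eq, Set.mem_inter_iff, Set.mem_iInter]
    constructor
    · intro h
      exact ⟨⟨⟨h.su, h.sU⟩, ⟨h.sv, h.pU⟩⟩, ⟨h.blk, ⟨h.lu, h.lv⟩⟩⟩
    · rintro ⟨⟨⟨h1, h2⟩, ⟨h3, h4⟩⟩, ⟨h5, ⟨h6, h7⟩⟩⟩
      exact ⟨h1, h2, h3, h4, h5, h6, h7⟩
  rw [e]
  refine IsClosed.inter (IsClosed.inter (IsClosed.inter ?_ ?_) (IsClosed.inter ?_ ?_))
    (IsClosed.inter ?_ (IsClosed.inter ?_ ?_))
  · exact isClosed_iInter fun x => isClosed_iInter fun y => isClosed_eq (by fun_prop) (by fun_prop)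
  · exact isClosed_iInter fun x => isClosed_iInter fun y => isClosed_eq (by fun_prop) (by fun_prop)
  · exact isClosed_iInter fun x => isClosed_iInter fun y => isClosed_eq (by fun_prop) (by fun_prop)
  · exact isClosed_iInter fun x => isClosed_le (by fun_prop) (by fun_prop)
  · exact isClosed_iInter fun x => isClosed_iInter fun y => isClosed_le (by fun_prop) (by fun_prop)
  · exact isClosed_iInter fun x => isClosed_le (by fun_prop) (by fun_prop)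
  · exact isClosed_iInter fun x => isClosed_le (by fun_prop) (by fun_prop)

lemma admSet_bounded {p q : E → ℝ} {Cp Cq : ℝ} (hCp : 0 ≤ Cp) (hCq : 0 ≤ Cq)
    (hp : ∀ x, 0 ≤ p x ∧ p x ≤ Cp * ‖x‖) (hq : ∀ x, 0 ≤ q x ∧ q x ≤ Cq * ‖x‖)
    {t} (ht : t ∈ AdmSet p q) : ‖t.1‖ ≤ Cp * Cp ∧ ‖t.2.1‖ ≤ Cp * Cq ∧ ‖t.2.2‖ ≤ Cq * Cq := by
  have h : Adm p q t.1 t.2.1 t.2.2 := ht
  have hu : ∀ x, ⟪t.1 x, x⟫ ≤ Cp ^ 2 * ‖x‖ ^ 2 := by
    intro x
    calc _ ≤ p x ^ 2 := h.lu x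
      _ ≤ (Cp * ‖x‖) ^ 2 := pow_le_pow_left₀ (hp x).1 (hp x).2 2
      _ = _ := by ring
  have hv : ∀ x, ⟪t.2.2 x, x⟫ ≤ Cq ^ 2 * ‖x‖ ^ 2 := by
    intro x
    calc _ ≤ q x ^ 2 := h.lv x
      _ ≤ (Cq * ‖x‖) ^ 2 := pow_le_pow_left₀ (hq x).1 (hq x).2 2
      _ = _ := by ring
  refine ⟨?_, ?_, ?_⟩
  · refine opNorm_le_of_inner (by positivity) (fun x y => ?_)
    calc _ ≤ ⟪t.1 x, x⟫ * ⟪t.1 y, y⟫ := Psd.cs h.su h.pu x y
      _ ≤ (Cp ^ 2 * ‖x‖ ^ 2) * (Cp ^ 2 * ‖y‖ ^ 2) :=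
        mul_le_mul (hu x) (hu y) (h.pu y) (by positivity)
      _ = _ := by ring
  · refine opNorm_le_of_inner (by positivity) (fun x y => ?_)
    calc _ ≤ ⟪t.1 x, x⟫ * ⟪t.2.2 y, y⟫ := h.cs x y
      _ ≤ (Cp ^ 2 * ‖x‖ ^ 2) * (Cq ^ 2 * ‖y‖ ^ 2) :=
        mul_le_mul (hu x) (hv y) (h.pv y) (by positivity)
      _ = _ := by ring
  · refine opNorm_le_of_inner (by positivity) (fun x y => ?_)
    calc _ ≤ ⟪t.2.2 x, x⟫ * ⟪t.2.2 y, y⟫ := Psd.cs h.sv h.pv x y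
      _ ≤ (Cq ^ 2 * ‖x‖ ^ 2) * (Cq ^ 2 * ‖y‖ ^ 2) :=
        mul_le_mul (hv x) (hv y) (h.pv y) (by positivity)
      _ = _ := by ring

lemma isCompact_admSet [FiniteDimensional ℝ E] {p pd q qd : E → ℝ} (hp : DP p pd)
    (hq : DP q qd) : IsCompact (AdmSet p q) := by
  obtain ⟨Cp, hCp, hbp⟩ := hp.bd
  obtain ⟨Cq, hCq, hbq⟩ := hq.bd
  refine (isCompact_closedBall (0 : (E →L[ℝ] E) × (E →L[ℝ] E) × (E →L[ℝ] E))
    (Cp * Cp + Cp * Cq + Cq * Cq)).of_isClosed_subset (isClosed_admSet p q) ?_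
  intro t ht
  obtain ⟨h1, h2, h3⟩ := admSet_bounded hCp hCq (fun x => ⟨hp.nn x, hbp x⟩)
    (fun x => ⟨hq.nn x, hbq x⟩) ht
  rw [mem_closedBall_zero_iff]
  have n1 : 0 ≤ Cp * Cp := by positivity
  have n2 : 0 ≤ Cp * Cq := by positivity
  have n3 : 0 ≤ Cq * Cq := by positivity
  rw [Prod.norm_def, Prod.norm_def]
  refine max_le (by linarith) (max_le (by linarith) (by linarith))

lemma convex_admSet (p q : E → ℝ) : Convex ℝ (AdmSet p q) := by
  intro t ht s hs α β hα hβ hαβ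
  have h : Adm p q t.1 t.2.1 t.2.2 := ht
  have g : Adm p q s.1 s.2.1 s.2.2 := hs
  show Adm p q (α • t.1 + β • s.1) (α • t.2.1 + β • s.2.1) (α • t.2.2 + β • s.2.2)
  have sym : ∀ {A B : E →L[ℝ] E}, Sym A → Sym B → Sym (α • A + β • B) := by
    intro A B hA hB x y
    simp only [ContinuousLinearMap.add_apply, ContinuousLinearMap.smul_apply, inner_add_left,
      inner_add_right, inner_smul_left, inner_smul_right, RCLike.conj_to_real]
    rw [hA x y, hB x y]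
  refine ⟨sym h.su g.su, sym h.sU g.sU, sym h.sv g.sv, ?_, ?_, ?_, ?_⟩
  · intro x
    simp only [ContinuousLinearMap.add_apply, ContinuousLinearMap.smul_apply, inner_add_left,
      inner_smul_left, RCLike.conj_to_real]
    exact add_nonneg (mul_nonneg hα (h.pU x)) (mul_nonneg hβ (g.pU x))
  · intro x y
    simp only [ContinuousLinearMap.add_apply, ContinuousLinearMap.smul_apply, inner_add_left,
      inner_smul_left, RCLike.conj_to_real]
    have h1 := mul_nonneg hα (h.blk x y)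
    have h2 := mul_nonneg hβ (g.blk x y)
    nlinarith
  · intro x
    simp only [ContinuousLinearMap.add_apply, ContinuousLinearMap.smul_apply, inner_add_left,
      inner_smul_left, RCLike.conj_to_real]
    have h1 := mul_le_mul_of_nonneg_left (h.lu x) hα
    have h2 := mul_le_mul_of_nonneg_left (g.lu x) hβ
    have h3 : p x ^ 2 = α * p x ^ 2 + β * p x ^ 2 := by rw [← add_mul, hαβ, one_mul]
    linarith
  · intro x
    simp only [ContinuousLinearMap.add_apply, ContinuousLinearMap.smul_apply, inner_add_left,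
      inner_smul_left, RCLike.conj_to_real]
    have h1 := mul_le_mul_of_nonneg_left (h.lv x) hα
    have h2 := mul_le_mul_of_nonneg_left (g.lv x) hβ
    have h3 : q x ^ 2 = α * q x ^ 2 + β * q x ^ 2 := by rw [← add_mul, hαβ, one_mul]
    linarith

lemma adm_zero (p q : E → ℝ) : Adm p q (0 : E →L[ℝ] E) 0 0 where
  su := by intro x y; simp
  sU := by intro x y; simp
  sv := by intro x y; simp
  pU := by intro x; simp
  blk := by intro x y; simp
  lu := by intro x; simp; positivity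
  lv := by intro x; simp; positivity

/-- Separation: a point dominated in every direction by a compact convex set of the form `Φ '' C`
belongs to it. -/
lemma mem_image_of_forall_le {X : Type*} [NormedAddCommGroup X] [NormedSpace ℝ X]
    [CompleteSpace E] {C : Set X} (hC : IsCompact C) (hcv : Convex ℝ C) (Φ : X →L[ℝ] E) (t : E)
    (h : ∀ k : E, ∃ d ∈ C, ⟪t, k⟫ ≤ ⟪Φ d, k⟫) : ∃ d ∈ C, Φ d = t := by
  by_contra hcon
  have hnot : t ∉ Φ '' C := by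
    rintro ⟨d, hd, hdt⟩
    exact hcon ⟨d, hd, hdt⟩
  have hK : IsCompact (Φ '' C) := hC.image Φ.continuous
  have hKc : Convex ℝ (Φ '' C) := hcv.is_linear_image ⟨Φ.map_add, Φ.map_smul⟩
  obtain ⟨f, s, hs1, hs2⟩ := geometric_hahn_banach_point_closed hKc hK.isClosed hnot
  set k : E := (InnerProductSpace.toDual ℝ E).symm f with hk
  have hfk : ∀ x, f x = ⟪k, x⟫ := by
    intro x
    rw [hk, InnerProductSpace.toDual_symm_apply]
  obtain ⟨d, hd, hle⟩ := h (-k)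
  have h2 := hs2 (Φ d) ⟨d, hd, rfl⟩
  rw [hfk] at hs1 h2
  rw [inner_neg_right, inner_neg_right, real_inner_comm, real_inner_comm k] at hle
  linarith

end compact

end Pool.Agent.H34.Env
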