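import Pool.Agent.H34.Env.Compact

open scoped RealInnerProductSpace Topology
open Filter

namespace Pool.Agent.H34.Env

variable {E : Type*} [NormedAddCommGroup E] [InnerProductSpace ℝ E]

/-- Triples of operators. -/
abbrev T3 (E : Type*) [NormedAddCommGroup E] [InnerProductSpace ℝ E] :=
  (E →L[ℝ] E) × (E →L[ℝ] E) × (E →L[ℝ] E)

/-- Data for a dual vector `z`. -/
def DataAt (p pd q qd : E → ℝ) (z : E) : Set (T3 E × T3 E) :=
  {d | d.1 ∈ AdmSet p q ∧ d.2 ∈ AdmSet pd qd ∧ d.1.2.1 (d.2.2.1 z) = z}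

variable {p pd q qd : E → ℝ}

lemma relAt (hp : DP p pd) (hq : DP q qd) {z : E} {d : T3 E × T3 E}
    (hd : d ∈ DataAt p pd q qd z) :
    Rel p pd q qd d.1.1 d.1.2.1 d.1.2.2 d.2.1 d.2.2.1 d.2.2.2 (d.2.2.1 z) :=
  rel hp hq hd.1 hd.2.1 (by rw [hd.2.2])

lemma dataAt_pd (hp : DP p pd) (hq : DP q qd) {z : E} {d : T3 E × T3 E}
    (hd : d ∈ DataAt p pd q qd z) : pd z ^ 2 = ⟪d.2.1 z, z⟫ := by
  have := (relAt hp hq hd).pdy
  rwa [hd.2.2] at this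

lemma dataAt_qd (hp : DP p pd) (hq : DP q qd) {z : E} {d : T3 E × T3 E}
    (hd : d ∈ DataAt p pd q qd z) : qd z ^ 2 = ⟪d.2.2.2 z, z⟫ := by
  have := (relAt hp hq hd).qdy
  rwa [hd.2.2] at this

lemma isCompact_prod [FiniteDimensional ℝ E] (hp : DP p pd) (hq : DP q qd) :
    IsCompact (AdmSet p q ×ˢ AdmSet pd qd) :=
  (isCompact_admSet hp hq).prod (isCompact_admSet hp.symm hq.symm)

lemma isCompact_dataAt [FiniteDimensional ℝ E] (hp : DP p pd) (hq : DP q qd) (z : E) :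
    IsCompact (DataAt p pd q qd z) := by
  have e : DataAt p pd q qd z = (AdmSet p q ×ˢ AdmSet pd qd) ∩ {d | d.1.2.1 (d.2.2.1 z) = z} := by
    ext d
    simp only [DataAt, Set.mem_setOf_eq, Set.mem_inter_iff, Set.mem_prod]
    tauto
  rw [e]
  exact (isCompact_prod hp hq).inter_right (isClosed_eq (by fun_prop) (by fun_prop))

/-- Two data sets for the same `z`: mixed relation. -/
lemma mixed (hp : DP p pd) (hq : DP q qd) {z : E} {d e : T3 E × T3 E}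
    (hd : d ∈ DataAt p pd q qd z) (he : e ∈ DataAt p pd q qd z) :
    d.1.2.1 (e.2.2.1 z) = z := by
  have hA : Adm p q d.1.1 d.1.2.1 d.1.2.2 := hd.1
  have hB : Adm pd qd e.2.1 e.2.2.1 e.2.2.2 := he.2.1
  have hA' : Adm p q e.1.1 e.1.2.1 e.1.2.2 := he.1
  have hB' : Adm pd qd d.2.1 d.2.2.1 d.2.2.2 := hd.2.1
  set U := d.1.2.1
  set w := d.2.2.1
  set U' := e.1.2.1
  set w' := e.2.2.1
  set x := w z with hx
  set x' := w' z with hx'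
  have hU : U x = z := hd.2.2
  have hU' : U' x' = z := he.2.2
  -- contraction inequalities
  have l1 : ⟪U x', x'⟫ ≤ ⟪x', z⟫ := lax hp hq hA hB z
  have l2 : ⟪U' x, x⟫ ≤ ⟪x, z⟫ := lax hp hq hA' hB' z
  -- Cauchy-Schwarz
  have c1 := Psd.cs hA.sU hA.pU x' x
  have c2 := Psd.cs hA'.sU hA'.pU x x'
  have e1 : ⟪U x', x⟫ = ⟪x', z⟫ := by rw [hA.sU, hU]
  have e2 : ⟪U' x, x'⟫ = ⟪x, z⟫ := by rw [hA'.sU, hU']
  have e3 : ⟪U x, x⟫ = ⟪x, z⟫ := by rw [hU, real_inner_comm]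
  have e4 : ⟪U' x', x'⟫ = ⟪x', z⟫ := by rw [hU', real_inner_comm]
  rw [e1, e3] at c1
  rw [e2, e4] at c2
  have p1 : 0 ≤ ⟪x, z⟫ := by rw [← e3]; exact hA.pU x
  have p2 : 0 ≤ ⟪x', z⟫ := by rw [← e4]; exact hA'.pU x'
  have q1 : ⟪x', z⟫ ^ 2 ≤ ⟪x', z⟫ * ⟪x, z⟫ :=
    c1.trans (mul_le_mul_of_nonneg_right l1 p1)
  have q2 : ⟪x, z⟫ ^ 2 ≤ ⟪x, z⟫ * ⟪x', z⟫ :=
    c2.trans (mul_le_mul_of_nonneg_right l2 p2)
  have heq : ⟪x', z⟫ = ⟪x, z⟫ := by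
    have : (⟪x', z⟫ - ⟪x, z⟫) ^ 2 ≤ 0 := by nlinarith
    nlinarith [sq_nonneg (⟪x', z⟫ - ⟪x, z⟫)]
  have hz : U (x' - x) = 0 := by
    refine Psd.eq_zero hA.sU hA.pU ?_
    have e5 : ⟪U x, x'⟫ = ⟪x', z⟫ := by rw [hU, real_inner_comm]
    simp only [map_sub, inner_sub_left, inner_sub_right]
    rw [e1, e3, e5]
    linarith
  rw [map_sub, sub_eq_zero] at hz
  rw [hz, hU]

lemma convex_dataAt (hp : DP p pd) (hq : DP q qd) (z : E) : Convex ℝ (DataAt p pd q qd z) := by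
  intro d hd e he α β hα hβ hαβ
  refine ⟨convex_admSet p q hd.1 he.1 hα hβ hαβ, convex_admSet pd qd hd.2.1 he.2.1 hα hβ hαβ, ?_⟩
  show (α • d.1.2.1 + β • e.1.2.1) ((α • d.2.2.1 + β • e.2.2.1) z) = z
  have m1 := mixed hp hq hd he
  have m2 := mixed hp hq he hd
  have m3 := hd.2.2
  have m4 := he.2.2
  simp only [add_apply, smul_apply, map_add, map_smul]
  rw [m1, m2, m3, m4, ← add_smul, hαβ, one_smul, ← add_smul, hαβ, one_smul]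

lemma lim_aux {d : ℕ → T3 E × T3 E} {D : T3 E × T3 E} {τ : ℕ → ℝ}
    (hlim : Tendsto d atTop (𝓝 D)) (hτ : Tendsto τ atTop (𝓝 0)) (κ c c' : ℝ) (z₀ k : E) :
    Tendsto (fun n => κ * ⟪(d n).2.2.2 z₀, k⟫ - c
        + (τ n / 2) * (κ * ⟪(d n).2.2.2 k, k⟫ - c')) atTop
        (𝓝 (κ * ⟪D.2.2.2 z₀, k⟫ - c)) := by
  have hb : Tendsto (fun n => (d n).2.2.2) atTop (𝓝 D.2.2.2) :=
    ((continuous_snd.comp (continuous_snd.comp continuous_snd)).tendsto D).comp hlim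
  have h1 : ∀ y : E, Tendsto (fun n => ⟪(d n).2.2.2 y, k⟫) atTop (𝓝 ⟪D.2.2.2 y, k⟫) := by
    intro y
    have hc : Continuous (fun A : E →L[ℝ] E => ⟪A y, k⟫) := by fun_prop
    exact (hc.tendsto D.2.2.2).comp hb
  have h2 := ((h1 z₀).const_mul κ).sub_const c
  have h3 := (hτ.div_const 2).mul (((h1 k).const_mul κ).sub_const c')
  have h4 := h2.add h3
  simpa using h4

lemma tendsto_clm {A : ℕ → E →L[ℝ] E} {A₀ : E →L[ℝ] E} {z : ℕ → E} {z₀ : E}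
    (hA : Tendsto A atTop (𝓝 A₀)) (hz : Tendsto z atTop (𝓝 z₀)) :
    Tendsto (fun n => A n (z n)) atTop (𝓝 (A₀ z₀)) := by
  have hc : Continuous (fun r : (E →L[ℝ] E) × E => r.1 r.2) :=
    continuous_fst.clm_apply continuous_snd
  exact (hc.tendsto (A₀, z₀)).comp (hA.prodMk_nhds hz)

lemma dataAt_limit {d : ℕ → T3 E × T3 E} {D : T3 E × T3 E} {z : ℕ → E} {z₀ : E}
    (hlim : Tendsto d atTop (𝓝 D)) (hz : Tendsto z atTop (𝓝 z₀))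
    (hd : ∀ n, d n ∈ DataAt p pd q qd (z n)) (hD : D ∈ AdmSet p q ×ˢ AdmSet pd qd) :
    D ∈ DataAt p pd q qd z₀ := by
  refine ⟨hD.1, hD.2, ?_⟩
  have hU : Tendsto (fun n => (d n).1.2.1) atTop (𝓝 D.1.2.1) :=
    ((continuous_fst.comp (continuous_snd.comp continuous_fst)).tendsto D).comp hlim
  have hw : Tendsto (fun n => (d n).2.2.1) atTop (𝓝 D.2.2.1) :=
    ((continuous_fst.comp (continuous_snd.comp continuous_snd)).tendsto D).comp hlim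
  have h1 : Tendsto (fun n => (d n).2.2.1 (z n)) atTop (𝓝 (D.2.2.1 z₀)) := tendsto_clm hw hz
  have h2 : Tendsto (fun n => (d n).1.2.1 ((d n).2.2.1 (z n))) atTop
      (𝓝 (D.1.2.1 (D.2.2.1 z₀))) := tendsto_clm hU h1
  have h3 : (fun n => (d n).1.2.1 ((d n).2.2.1 (z n))) = z := by
    funext n
    exact (hd n).2.2
  rw [h3] at h2
  exact tendsto_nhds_unique h2 hz

lemma max_ineq (hp : DP p pd) (hq : DP q qd) {κ : ℝ} (hκ : 0 ≤ κ) {x z₀ k : E} {τ : ℝ}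
    (hτ : 0 < τ)
    (h1 : 2 * ⟪x, z₀ + τ • k⟫ - κ * qd (z₀ + τ • k) ^ 2 + pd (z₀ + τ • k) ^ 2
      ≤ 2 * ⟪x, z₀⟫ - κ * qd z₀ ^ 2 + pd z₀ ^ 2)
    {e D : T3 E × T3 E} (he : e ∈ DataAt p pd q qd (z₀ + τ • k))
    (hD : D ∈ DataAt p pd q qd z₀) :
    ⟪x, k⟫ ≤ κ * ⟪e.2.2.2 z₀, k⟫ - ⟪D.2.1 z₀, k⟫
        + (τ / 2) * (κ * ⟪e.2.2.2 k, k⟫ - ⟪D.2.1 k, k⟫) := by
  have hb : Adm pd qd e.2.1 e.2.2.1 e.2.2.2 := he.2.1
  have ha : Adm pd qd D.2.1 D.2.2.1 D.2.2.2 := hD.2.1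
  have h2 := dataAt_qd hp hq he
  have h3 := hb.lv z₀
  have h4 := ha.lu (z₀ + τ • k)
  have h5 := dataAt_pd hp hq hD
  rw [h2, h5] at h1
  generalize e.2.2.2 = B at *
  generalize D.2.1 = A at *
  have e1 : ⟪B (z₀ + τ • k), z₀ + τ • k⟫ = ⟪B z₀, z₀⟫ + 2 * τ * ⟪B z₀, k⟫
      + τ ^ 2 * ⟪B k, k⟫ := by
    simp only [map_add, map_smul, inner_add_left, inner_add_right, inner_smul_left,
      inner_smul_right, RCLike.conj_to_real]
    rw [hb.sv k z₀, real_inner_comm (B z₀) k]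
    ring
  have e2 : ⟪A (z₀ + τ • k), z₀ + τ • k⟫ = ⟪A z₀, z₀⟫ + 2 * τ * ⟪A z₀, k⟫
      + τ ^ 2 * ⟪A k, k⟫ := by
    simp only [map_add, map_smul, inner_add_left, inner_add_right, inner_smul_left,
      inner_smul_right, RCLike.conj_to_real]
    rw [ha.su k z₀, real_inner_comm (A z₀) k]
    ring
  rw [e1] at h1
  rw [e2] at h4
  rw [inner_add_right, inner_smul_right] at h1
  have h3' := mul_le_mul_of_nonneg_left h3 hκ
  have h6 : 2 * τ * ⟪x, k⟫ ≤ 2 * τ * (κ * ⟪B z₀, k⟫ - ⟪A z₀, k⟫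
      + (τ / 2) * (κ * ⟪B k, k⟫ - ⟪A k, k⟫)) := by nlinarith
  exact le_of_mul_le_mul_left h6 (by positivity)

/-- The linear map `d ↦ κ b z₀ - a z₀`. -/
noncomputable def PhiMap (κ : ℝ) (z₀ : E) : (T3 E × T3 E) →L[ℝ] E :=
  κ • ((ContinuousLinearMap.apply ℝ E z₀).comp ((ContinuousLinearMap.snd ℝ _ _).comp
      ((ContinuousLinearMap.snd ℝ _ _).comp (ContinuousLinearMap.snd ℝ _ _))))
    - (ContinuousLinearMap.apply ℝ E z₀).comp ((ContinuousLinearMap.fst ℝ _ _).comp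
      (ContinuousLinearMap.snd ℝ _ _))

lemma phiMap_apply (κ : ℝ) (z₀ : E) (d : T3 E × T3 E) :
    PhiMap κ z₀ d = κ • d.2.2.2 z₀ - d.2.1 z₀ := by
  simp [PhiMap]

/-- First order condition at a maximum point of `2⟪x,ζ⟫ - κ qd² + pd²`. -/
lemma max_point [FiniteDimensional ℝ E] (hp : DP p pd) (hq : DP q qd)
    (hP : ∀ z, (DataAt p pd q qd z).Nonempty) {κ : ℝ} (hκ : 0 ≤ κ) (x z₀ : E)
    (hmax : ∀ z, 2 * ⟪x, z⟫ - κ * qd z ^ 2 + pd z ^ 2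
      ≤ 2 * ⟪x, z₀⟫ - κ * qd z₀ ^ 2 + pd z₀ ^ 2) :
    ∃ d ∈ DataAt p pd q qd z₀, κ • d.2.2.2 z₀ - d.2.1 z₀ = x := by
  have : CompleteSpace E := FiniteDimensional.complete ℝ E
  have key : ∀ k : E, ∃ d ∈ DataAt p pd q qd z₀, ⟪x, k⟫ ≤ ⟪PhiMap κ z₀ d, k⟫ := by
    intro k
    obtain ⟨t, htpos, htlim⟩ : ∃ t : ℕ → ℝ, (∀ n, 0 < t n) ∧ Tendsto t atTop (𝓝 0) :=
      ⟨fun n => 1 / ((n : ℝ) + 1), fun n => by positivity,
        tendsto_one_div_add_atTop_nhds_zero_nat⟩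
    choose d hd using fun n => hP (z₀ + t n • k)
    have hdprod : ∀ n, d n ∈ AdmSet p q ×ˢ AdmSet pd qd := fun n => ⟨(hd n).1, (hd n).2.1⟩
    obtain ⟨D, hD, φ, hφ, hlim⟩ := (isCompact_prod hp hq).tendsto_subseq hdprod
    have htφ : Tendsto (fun n => t (φ n)) atTop (𝓝 0) := htlim.comp hφ.tendsto_atTop
    have hzφ : Tendsto (fun n => z₀ + t (φ n) • k) atTop (𝓝 z₀) := by
      have h1 : Tendsto (fun n => z₀ + t (φ n) • k) atTop (𝓝 (z₀ + (0 : ℝ) • k)) :=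
        tendsto_const_nhds.add (htφ.smul_const k)
      simpa using h1
    have hDat : D ∈ DataAt p pd q qd z₀ :=
      dataAt_limit hlim hzφ (fun n => hd (φ n)) hD
    refine ⟨D, hDat, ?_⟩
    have hineq : ∀ n, ⟪x, k⟫ ≤ κ * ⟪(d (φ n)).2.2.2 z₀, k⟫ - ⟪D.2.1 z₀, k⟫
        + (t (φ n) / 2) * (κ * ⟪(d (φ n)).2.2.2 k, k⟫ - ⟪D.2.1 k, k⟫) := fun n =>
      max_ineq hp hq hκ (htpos (φ n)) (hmax _) (hd (φ n)) hDat
    have h7 := ge_of_tendsto' (lim_aux hlim htφ κ _ _ z₀ k) hineq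
    rw [phiMap_apply, inner_sub_left, inner_smul_left, RCLike.conj_to_real]
    linarith
  obtain ⟨d, hd, hdx⟩ := mem_image_of_forall_le (isCompact_dataAt hp hq z₀)
    (convex_dataAt hp hq z₀) (PhiMap κ z₀) x key
  exact ⟨d, hd, by rw [← phiMap_apply]; exact hdx⟩

/-- Existence of a maximum point. -/
lemma exists_max [FiniteDimensional ℝ E] (hp : DP p pd) (hq : DP q qd) {κ M : ℝ} (hκ : M < κ)
    (hM : ∀ z, pd z ^ 2 ≤ M * qd z ^ 2) (x : E) :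
    ∃ z₀, ∀ z, 2 * ⟪x, z⟫ - κ * qd z ^ 2 + pd z ^ 2
      ≤ 2 * ⟪x, z₀⟫ - κ * qd z₀ ^ 2 + pd z₀ ^ 2 := by
  obtain ⟨c, hc, hlow⟩ := hq.symm.lower
  have hcont : Continuous (fun z => -(2 * ⟪x, z⟫ - κ * qd z ^ 2 + pd z ^ 2)) := by
    have h1 := hp.symm.continuous
    have h2 := hq.symm.continuous
    fun_prop
  have hlb : ∀ z, (κ - M) * c ^ 2 * ‖z‖ ^ 2 - 2 * ‖x‖ * ‖z‖
      ≤ -(2 * ⟪x, z⟫ - κ * qd z ^ 2 + pd z ^ 2) := by
    intro z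
    have h1 := hM z
    have h2 : (c * ‖z‖) ^ 2 ≤ qd z ^ 2 := pow_le_pow_left₀ (by positivity) (hlow z) 2
    have h3 := real_inner_le_norm x z
    nlinarith [mul_le_mul_of_nonneg_left h2 (sub_pos.mpr hκ).le]
  have ht : Tendsto (fun z => -(2 * ⟪x, z⟫ - κ * qd z ^ 2 + pd z ^ 2)) (cocompact E) atTop := by
    refine tendsto_atTop_mono hlb ?_
    have h1 : Tendsto (fun r : ℝ => (κ - M) * c ^ 2 * r ^ 2 - 2 * ‖x‖ * r) atTop atTop := by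
      have h2 : ∀ r : ℝ, (κ - M) * c ^ 2 * r ^ 2 - 2 * ‖x‖ * r
          = r * ((κ - M) * c ^ 2 * r - 2 * ‖x‖) := fun r => by ring
      simp_rw [h2]
      refine Tendsto.atTop_mul_atTop₀ tendsto_id ?_
      have h3 : 0 < (κ - M) * c ^ 2 := by
        have := sub_pos.mpr hκ
        positivity
      exact tendsto_atTop_add_const_right _ _ (tendsto_id.const_mul_atTop h3)
    exact h1.comp (tendsto_norm_cocompact_atTop)
  obtain ⟨z₀, hz₀⟩ := hcont.exists_forall_le ht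
  exact ⟨z₀, fun z => by have := hz₀ z; linarith⟩

end Pool.Agent.H34.Env
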