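import Pool.Agent.H34.Env.Split

open scoped RealInnerProductSpace Topology
open Filter

namespace Pool.Agent.H34.Env

variable {E : Type*} [NormedAddCommGroup E] [InnerProductSpace ℝ E]

variable {p pd q qd : E → ℝ} {u U v a w b : E →L[ℝ] E}

/-- Extraction of data at a primal point. -/
lemma data_at (hp : DP p pd) (hq : DP q qd) (hP' : DataEx qd q pd p) (x : E) :
    ∃ u U v a w b, Dt p pd q qd u U v a w b ∧ x ∈ Hs U w := by
  obtain ⟨d, hd⟩ := hP' x
  have h1 : Adm qd pd d.1.1 d.1.2.1 d.1.2.2 := hd.1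
  have h2 : Adm q p d.2.1 d.2.2.1 d.2.2.2 := hd.2.1
  exact ⟨_, _, _, _, _, _, ⟨hp, hq, h2.swap, h1.swap⟩, hd.2.2⟩

/-- The subspace orthogonal to the extremal dual vectors. -/
def Zs (pd qd : E → ℝ) (M : ℝ) : Submodule ℝ E where
  carrier := {x | ∀ y, pd y ^ 2 = M * qd y ^ 2 → ⟪x, y⟫ = 0}
  add_mem' := by
    intro x y hx hy z hz
    rw [inner_add_left, hx z hz, hy z hz, add_zero]
  zero_mem' := by
    intro z _
    simp
  smul_mem' := by
    intro c x hx z hz
    rw [inner_smul_left, hx z hz, mul_zero]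

lemma mem_Zs {M : ℝ} {x : E} : x ∈ Zs pd qd M ↔ ∀ y, pd y ^ 2 = M * qd y ^ 2 → ⟪x, y⟫ = 0 :=
  Iff.rfl

/-- The span of the extremal vectors. -/
def As (p q : E → ℝ) (M : ℝ) : Submodule ℝ E := Submodule.span ℝ {x | q x ^ 2 = M * p x ^ 2}

lemma perp_As {M : ℝ} {y : E} (hy : ∀ x, q x ^ 2 = M * p x ^ 2 → ⟪y, x⟫ = 0) {x : E}
    (hx : x ∈ As p q M) : ⟪y, x⟫ = 0 := by
  refine Submodule.span_induction (p := fun x _ => ⟪y, x⟫ = 0) ?_ ?_ ?_ ?_ hx
  · intro x hx
    exact hy x hx
  · simp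
  · intro x z _ _ h1 h2
    rw [inner_add_right, h1, h2, add_zero]
  · intro c x _ h1
    rw [inner_smul_right, h1, mul_zero]

section splitting

variable [FiniteDimensional ℝ E] {M : ℝ}

lemma inf_eq_bot (hp : DP p pd) (hq : DP q qd) (hP : DataEx p pd q qd)
    (hP' : DataEx qd q pd p) (hM : 0 ≤ M) (hqp : ∀ x, q x ^ 2 ≤ M * p x ^ 2) {x : E}
    (hA : x ∈ As p q M) (hZ : x ∈ Zs pd qd M) : x = 0 := by
  obtain ⟨u, U, v, a, w, b, h, hx⟩ := data_at hp hq hP' x
  obtain ⟨x1, x2, hsum, -, -, -, h2, -, h4, -, -⟩ := h.split_point hP hP' hM hqp hx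
  by_contra hne
  have hne' : (⟨x, hx⟩ : Hs U w) ≠ 0 := fun hc => hne (congrArg Subtype.val hc)
  have h5 := h.Bf_self_pos hne'
  have h6 : h.Bf ⟨x, hx⟩ ⟨x, hx⟩ = 0 := by
    show ⟪U x, x⟫ = 0
    have e1 : ⟪U x1, x⟫ = 0 := by rw [real_inner_comm]; exact hZ _ h2
    have e2 : ⟪U x2, x⟫ = 0 := perp_As h4 hA
    have e3 : U x = U x1 + U x2 := by rw [hsum, map_add]
    rw [e3, inner_add_left, e1, e2, add_zero]
  linarith

lemma mem_As (hp : DP p pd) (hq : DP q qd) (hP : DataEx p pd q qd)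
    (hP' : DataEx qd q pd p) (hM : 0 ≤ M) (hqp : ∀ x, q x ^ 2 ≤ M * p x ^ 2) {x : E}
    (hA : x ∈ As p q M) : q x ^ 2 = M * p x ^ 2 := by
  obtain ⟨u, U, v, a, w, b, h, hx⟩ := data_at hp hq hP' x
  obtain ⟨x1, x2, hsum, -, -, h1, -, h3, -, -, -⟩ := h.split_point hP hP' hM hqp hx
  have hx1 : x1 ∈ As p q M := Submodule.subset_span h1
  have h5 : x2 ∈ As p q M := by
    have : x2 = x - x1 := by rw [hsum]; abel
    rw [this]
    exact Submodule.sub_mem _ hA hx1
  have h6 : x2 = 0 := inf_eq_bot hp hq hP hP' hM hqp h5 h3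
  rw [hsum, h6, add_zero]
  exact h1

lemma isCompl (hp : DP p pd) (hq : DP q qd) (hP : DataEx p pd q qd)
    (hP' : DataEx qd q pd p) (hM : 0 ≤ M) (hqp : ∀ x, q x ^ 2 ≤ M * p x ^ 2) :
    IsCompl (Zs pd qd M) (As p q M) := by
  constructor
  · rw [Submodule.disjoint_def]
    intro x h1 h2
    exact inf_eq_bot hp hq hP hP' hM hqp h2 h1
  · rw [codisjoint_iff, eq_top_iff]
    intro x _
    obtain ⟨u, U, v, a, w, b, h, hx⟩ := data_at hp hq hP' x
    obtain ⟨x1, x2, hsum, -, -, h1, -, h3, -, -, -⟩ := h.split_point hP hP' hM hqp hx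
    rw [hsum, add_comm]
    exact Submodule.add_mem_sup h3 (Submodule.subset_span h1)

/-- Projection onto `Z` along `A`. -/
noncomputable def Pz (hc : IsCompl (Zs pd qd M) (As p q M)) : E →L[ℝ] Zs pd qd M :=
  LinearMap.toContinuousLinearMap (Submodule.linearProjOfIsCompl _ _ hc)

lemma Pz_left (hc : IsCompl (Zs pd qd M) (As p q M)) (x : Zs pd qd M) : Pz hc (x : E) = x := by
  show Submodule.linearProjOfIsCompl _ _ hc (x : E) = x
  exact Submodule.linearProjOfIsCompl_apply_left hc x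

lemma Pz_right (hc : IsCompl (Zs pd qd M) (As p q M)) {x : E} (hx : x ∈ As p q M) :
    Pz hc x = 0 := by
  show Submodule.linearProjOfIsCompl _ _ hc x = 0
  exact (Submodule.linearProjOfIsCompl_apply_eq_zero_iff hc).mpr hx

lemma sub_Pz_mem (hc : IsCompl (Zs pd qd M) (As p q M)) (x : E) :
    x - (Pz hc x : E) ∈ As p q M := by
  rw [← Submodule.linearProjOfIsCompl_apply_eq_zero_iff hc]
  show Pz hc (x - (Pz hc x : E)) = 0
  rw [map_sub, Pz_left, sub_self]

lemma pythag (hp : DP p pd) (hq : DP q qd) (hP : DataEx p pd q qd)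
    (hP' : DataEx qd q pd p) (hM : 0 ≤ M) (hqp : ∀ x, q x ^ 2 ≤ M * p x ^ 2)
    (hc : IsCompl (Zs pd qd M) (As p q M)) (x : E) :
    p x ^ 2 = p (x - (Pz hc x : E)) ^ 2 + p (Pz hc x : E) ^ 2 ∧
    q x ^ 2 = M * p (x - (Pz hc x : E)) ^ 2 + q (Pz hc x : E) ^ 2 := by
  obtain ⟨u, U, v, a, w, b, h, hx⟩ := data_at hp hq hP' x
  obtain ⟨x1, x2, hsum, -, -, h1, -, h3, -, h5, h6⟩ := h.split_point hP hP' hM hqp hx
  have hx2 : (Pz hc x : E) = x2 := by
    rw [hsum, map_add, Pz_right hc (Submodule.subset_span h1), zero_add]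
    have := Pz_left hc ⟨x2, h3⟩
    exact congrArg Subtype.val this
  have hx1 : x - (Pz hc x : E) = x1 := by rw [hx2, hsum]; abel
  rw [hx1, hx2, h5, h6, h1]
  exact ⟨rfl, rfl⟩

end splitting

section restrict

variable [FiniteDimensional ℝ E] {M : ℝ}

/-- Restriction of a dual pair to the complement. -/
lemma DP.restrict (hp : DP p pd) {Z : Submodule ℝ E} {P : E →L[ℝ] Z}
    (hPl : ∀ x : Z, P (x : E) = x) (hle : ∀ x, p (P x : E) ≤ p x) :
    DP (fun x : Z => p (x : E)) (fun y : Z => pd (ContinuousLinearMap.adjoint P y)) where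
  nn := fun x => hp.nn _
  nnd := fun y => hp.nnd _
  le := by
    intro x y
    have h1 : ⟪x, y⟫ = ⟪(x : E), ContinuousLinearMap.adjoint P y⟫ := by
      rw [ContinuousLinearMap.adjoint_inner_right, hPl]
    rw [h1]
    exact hp.le _ _
  sup1 := by
    intro x c hc h
    refine hp.sup1 _ c hc (fun y => ?_)
    have h1 : ⟪(x : E), y⟫ = ⟪x, ContinuousLinearMap.adjoint Z.subtypeL y⟫ := by
      rw [ContinuousLinearMap.adjoint_inner_right]; rfl
    rw [h1]
    refine (h _).trans (mul_le_mul_of_nonneg_left ?_ hc)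
    refine hp.sup2 _ _ (hp.nnd y) (fun s => ?_)
    rw [ContinuousLinearMap.adjoint_inner_right, ContinuousLinearMap.adjoint_inner_right]
    calc ⟪Z.subtypeL (P s), y⟫ ≤ p (P s : E) * pd y := hp.le _ _
      _ ≤ p s * pd y := mul_le_mul_of_nonneg_right (hle s) (hp.nnd y)
      _ = _ := mul_comm _ _
  sup2 := by
    intro y c hc h
    refine hp.sup2 _ c hc (fun s => ?_)
    rw [ContinuousLinearMap.adjoint_inner_right]
    exact (h _).trans (mul_le_mul_of_nonneg_left (hle s) hc)
  bd := by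
    obtain ⟨C, hC, h⟩ := hp.bd
    exact ⟨C, hC, fun x => h x⟩
  bdd := by
    obtain ⟨C, hC, h⟩ := hp.bdd
    refine ⟨C * ‖ContinuousLinearMap.adjoint P‖, by positivity, fun y => ?_⟩
    calc pd (ContinuousLinearMap.adjoint P y) ≤ C * ‖ContinuousLinearMap.adjoint P y‖ := h _
      _ ≤ C * (‖ContinuousLinearMap.adjoint P‖ * ‖y‖) :=
        mul_le_mul_of_nonneg_left (ContinuousLinearMap.le_opNorm _ _) hC
      _ = _ := by ring

/-- Compression of an admissible triple by a linear map. -/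
lemma Adm.compress {F : Type*} [NormedAddCommGroup F] [InnerProductSpace ℝ F]
    [FiniteDimensional ℝ F] (h : Adm p q u U v) (J : F →L[ℝ] E) :
    Adm (fun x => p (J x)) (fun x => q (J x))
      ((ContinuousLinearMap.adjoint J).comp (u.comp J))
      ((ContinuousLinearMap.adjoint J).comp (U.comp J))
      ((ContinuousLinearMap.adjoint J).comp (v.comp J)) := by
  have e : ∀ (A : E →L[ℝ] E) (x y : F),
      ⟪((ContinuousLinearMap.adjoint J).comp (A.comp J)) x, y⟫ = ⟪A (J x), J y⟫ := by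
    intro A x y
    simp only [ContinuousLinearMap.comp_apply]
    rw [ContinuousLinearMap.adjoint_inner_left]
  have e' : ∀ (A : E →L[ℝ] E) (x y : F),
      ⟪x, ((ContinuousLinearMap.adjoint J).comp (A.comp J)) y⟫ = ⟪J x, A (J y)⟫ := by
    intro A x y
    simp only [ContinuousLinearMap.comp_apply]
    rw [ContinuousLinearMap.adjoint_inner_right]
  refine ⟨?_, ?_, ?_, ?_, ?_, ?_, ?_⟩
  · intro x y; rw [e, e']; exact h.su _ _
  · intro x y; rw [e, e']; exact h.sU _ _
  · intro x y; rw [e, e']; exact h.sv _ _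
  · intro x; rw [e]; exact h.pU _
  · intro x y; rw [e, e, e]; exact h.blk _ _
  · intro x; rw [e]; exact h.lu _
  · intro x; rw [e]; exact h.lv _

lemma restrict_dataEx (hp : DP p pd) (hq : DP q qd) (hP : DataEx p pd q qd)
    (hP' : DataEx qd q pd p) (hM : 0 ≤ M) (hqp : ∀ x, q x ^ 2 ≤ M * p x ^ 2)
    (hc : IsCompl (Zs pd qd M) (As p q M)) :
    DataEx (fun x : Zs pd qd M => p (x : E))
      (fun y : Zs pd qd M => pd (ContinuousLinearMap.adjoint (Pz hc) y))
      (fun x : Zs pd qd M => q (x : E))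
      (fun y : Zs pd qd M => qd (ContinuousLinearMap.adjoint (Pz hc) y)) := by
  intro η
  set P := Pz hc with hPdef
  set Pa := ContinuousLinearMap.adjoint P with hPa
  set ι := (Zs pd qd M).subtypeL with hι
  obtain ⟨d, hd⟩ := hP (Pa η)
  have hA : Adm p q d.1.1 d.1.2.1 d.1.2.2 := hd.1
  have hB : Adm pd qd d.2.1 d.2.2.1 d.2.2.2 := hd.2.1
  have h : Dt p pd q qd d.1.1 d.1.2.1 d.1.2.2 d.2.1 d.2.2.1 d.2.2.2 := ⟨hp, hq, hA, hB⟩
  set z : E := Pa η with hz
  have hUw : d.1.2.1 (d.2.2.1 z) = z := hd.2.2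
  set x : E := d.2.2.1 z with hx
  have hxH : x ∈ Hs d.1.2.1 d.2.2.1 := by rw [mem_Hs, hUw]
  -- x lies in Z
  have hzA : ∀ s ∈ As p q M, ⟪z, s⟫ = 0 := by
    intro s hs
    rw [hz, hPa, ContinuousLinearMap.adjoint_inner_left, hPdef, Pz_right hc hs, inner_zero_right]
  obtain ⟨x1, x2, hsum, hx1H, hx2H, h1, h2, h3, h4, -, -⟩ := h.split_point hP hP' hM hqp hxH
  have hx1 : x1 = 0 := by
    by_contra hne
    have hne' : (⟨x1, hx1H⟩ : Hs d.1.2.1 d.2.2.1) ≠ 0 := fun hc' => hne (congrArg Subtype.val hc')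
    have h5 := h.Bf_self_pos hne'
    have h6 : h.Bf ⟨x1, hx1H⟩ ⟨x1, hx1H⟩ = 0 := by
      show ⟪d.1.2.1 x1, x1⟫ = 0
      have e1 : ⟪z, x1⟫ = 0 := hzA _ (Submodule.subset_span h1)
      have e2 : ⟪d.1.2.1 x2, x1⟫ = 0 := h4 _ h1
      have e3 : z = d.1.2.1 x1 + d.1.2.1 x2 := by rw [← hUw, hsum, map_add]
      rw [e3, inner_add_left, e2, add_zero] at e1
      exact e1
    linarith
  have hxZ : x ∈ Zs pd qd M := by rw [hsum, hx1, zero_add]; exact h3
  have hPx : ι (P x) = x := congrArg Subtype.val (Pz_left hc ⟨x, hxZ⟩)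
  have hcompl : P.comp ι = ContinuousLinearMap.id ℝ _ := by
    ext s
    exact congrArg Subtype.val (Pz_left hc s)
  have hadj : (ContinuousLinearMap.adjoint ι) (Pa η) = η := by
    have : (ContinuousLinearMap.adjoint ι).comp Pa = ContinuousLinearMap.id ℝ _ := by
      rw [hPa, ← ContinuousLinearMap.adjoint_comp, hcompl]
      simp
    exact congrArg (fun f => f η) this
  refine ⟨((_, _, _), (_, _, _)), hA.compress ι, hB.compress Pa, ?_⟩
  show (ContinuousLinearMap.adjoint ι) (d.1.2.1 (ι ((ContinuousLinearMap.adjoint Pa)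
    (d.2.2.1 (Pa η))))) = η
  rw [hPa, ContinuousLinearMap.adjoint_adjoint, ← hPa, ← hz, ← hx, hPx, hUw]
  exact hadj

lemma restrict_dataEx' (hp : DP p pd) (hq : DP q qd) (hP : DataEx p pd q qd)
    (hP' : DataEx qd q pd p) (hM : 0 ≤ M) (hqp : ∀ x, q x ^ 2 ≤ M * p x ^ 2)
    (hc : IsCompl (Zs pd qd M) (As p q M)) :
    DataEx (fun y : Zs pd qd M => qd (ContinuousLinearMap.adjoint (Pz hc) y))
      (fun x : Zs pd qd M => q (x : E))
      (fun y : Zs pd qd M => pd (ContinuousLinearMap.adjoint (Pz hc) y))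
      (fun x : Zs pd qd M => p (x : E)) := by
  intro ζ
  set P := Pz hc with hPdef
  set Pa := ContinuousLinearMap.adjoint P with hPa
  set ι := (Zs pd qd M).subtypeL with hι
  obtain ⟨u, U, v, a, w, b, h, hx⟩ := data_at hp hq hP' (ζ : E)
  obtain ⟨x1, x2, hsum, hx1H, hx2H, h1, h2, h3, h4, -, -⟩ := h.split_point hP hP' hM hqp hx
  have hx1 : x1 = 0 := by
    have hx1A : x1 ∈ As p q M := Submodule.subset_span h1
    have hx1Z : x1 ∈ Zs pd qd M := by
      have : x1 = (ζ : E) - x2 := by rw [hsum]; abel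
      rw [this]
      exact Submodule.sub_mem _ ζ.2 h3
    exact inf_eq_bot hp hq hP hP' hM hqp hx1A hx1Z
  have hx2 : (ζ : E) = x2 := by rw [hsum, hx1, zero_add]
  have hproj : Pa ((ContinuousLinearMap.adjoint ι) (U (ζ : E))) = U (ζ : E) := by
    apply ext_inner_right ℝ
    intro s
    rw [hPa, ContinuousLinearMap.adjoint_inner_left, ContinuousLinearMap.adjoint_inner_left]
    have e1 : ⟪U (ζ : E), s - (P s : E)⟫ = 0 := by
      rw [hx2]
      exact perp_As h4 (sub_Pz_mem hc s)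
    rw [inner_sub_right] at e1
    show ⟪U (ζ : E), (P s : E)⟫ = _
    linarith
  refine ⟨((_, _, _), (_, _, _)), h.B.swap.compress Pa, h.A.swap.compress ι, ?_⟩
  show (ContinuousLinearMap.adjoint Pa) (w (Pa ((ContinuousLinearMap.adjoint ι) (U (ι ζ))))) = ζ
  have : ι ζ = (ζ : E) := rfl
  rw [this, hproj, mem_Hs.mp hx, hPa, ContinuousLinearMap.adjoint_adjoint]
  exact Pz_left hc ζ

end restrict

/-- Existence of the maximal ratio. -/
lemma exists_ratio [FiniteDimensional ℝ E] [Nontrivial E] (hp : DP p pd) (hq : DP q qd) :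
    ∃ M : ℝ, 0 < M ∧ (∀ x, q x ^ 2 ≤ M * p x ^ 2) ∧ ∃ x, x ≠ 0 ∧ q x ^ 2 = M * p x ^ 2 := by
  have hcomp : IsCompact (Metric.sphere (0 : E) 1) := isCompact_sphere 0 1
  have hne : (Metric.sphere (0 : E) 1).Nonempty := NormedSpace.sphere_nonempty.mpr zero_le_one
  have hnz : ∀ x ∈ Metric.sphere (0 : E) 1, x ≠ 0 := by
    intro x hx h0
    rw [h0] at hx
    simp at hx
  have hcont : ContinuousOn (fun x => q x ^ 2 / p x ^ 2) (Metric.sphere (0 : E) 1) := by
    apply ContinuousOn.div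
    · exact (hq.continuous.pow 2).continuousOn
    · exact (hp.continuous.pow 2).continuousOn
    · intro x hx
      have := hp.pos (hnz x hx)
      positivity
  obtain ⟨x0, hx0, hmax⟩ := hcomp.exists_isMaxOn hne hcont
  have hx0' := hnz x0 hx0
  have hp0 := hp.pos hx0'
  have hq0 := hq.pos hx0'
  refine ⟨q x0 ^ 2 / p x0 ^ 2, by positivity, ?_, x0, hx0', ?_⟩
  · intro x
    by_cases hx : x = 0
    · rw [hx, hp.zero, hq.zero]; simp
    have hn : 0 < ‖x‖ := norm_pos_iff.mpr hx
    have hmem : ‖x‖⁻¹ • x ∈ Metric.sphere (0 : E) 1 := by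
      rw [mem_sphere_zero_iff_norm, norm_smul, norm_inv, norm_norm, inv_mul_cancel₀ hn.ne']
    have h1 : q (‖x‖⁻¹ • x) ^ 2 / p (‖x‖⁻¹ • x) ^ 2 ≤ q x0 ^ 2 / p x0 ^ 2 := hmax hmem
    rw [hp.smul (by positivity), hq.smul (by positivity), mul_pow, mul_pow,
      mul_div_mul_left _ _ (by positivity)] at h1
    have hpx := hp.pos hx
    rwa [div_le_iff₀ (by positivity)] at h1
  · rw [div_mul_cancel₀]
    positivity

/-- The structure theorem: simultaneous decomposition into common `l2`-summands. -/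
theorem decomp.{uu} (n : ℕ) : ∀ (E : Type uu) [NormedAddCommGroup E] [InnerProductSpace ℝ E]
    [FiniteDimensional ℝ E] (_ : Module.finrank ℝ E = n) (p pd q qd : E → ℝ)
    (_ : DP p pd) (_ : DP q qd) (_ : DataEx p pd q qd) (_ : DataEx qd q pd p),
    ∃ (k : ℕ) (P : Fin k → E →L[ℝ] E) (μ : Fin k → ℝ), (∀ i, 0 < μ i) ∧
      (∀ i j, i ≠ j → ∀ x, P i (P j x) = 0) ∧ (∀ i x, P i (P i x) = P i x) ∧
      (∀ x, ∑ i, P i x = x) ∧ (∀ x, p x ^ 2 = ∑ i, p (P i x) ^ 2) ∧
      (∀ x, q x ^ 2 = ∑ i, μ i * p (P i x) ^ 2) := by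
  induction n using Nat.strong_induction_on with
  | _ n ih =>
    intro E _ _ _ hn p pd q qd hp hq hP hP'
    by_cases htriv : Subsingleton E
    · refine ⟨0, Fin.elim0, Fin.elim0, fun i => i.elim0, fun i => i.elim0, fun i => i.elim0,
        ?_, ?_, ?_⟩
      · intro x
        exact Subsingleton.elim _ _
      · intro x
        rw [Subsingleton.elim x 0, hp.zero]
        simp
      · intro x
        rw [Subsingleton.elim x 0, hq.zero]
        simp
    · have hnt : Nontrivial E := not_subsingleton_iff_nontrivial.mp htriv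
      obtain ⟨M, hM, hqp, x0, hx0, hx0'⟩ := exists_ratio hp hq
      have hc := isCompl hp hq hP hP' hM.le hqp
      have hpy := pythag hp hq hP hP' hM.le hqp hc
      set P := Pz hc with hPdef
      have hplel : ∀ x, p (P x : E) ≤ p x := by
        intro x
        refine le_of_abs_le (abs_le_of_sq_le_sq ?_ (hp.nn x))
        have := (hpy x).1
        nlinarith [sq_nonneg (p (x - (P x : E)))]
      have hqlel : ∀ x, q (P x : E) ≤ q x := by
        intro x
        refine le_of_abs_le (abs_le_of_sq_le_sq ?_ (hq.nn x))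
        have := (hpy x).2
        nlinarith [mul_nonneg hM.le (sq_nonneg (p (x - (P x : E))))]
      have hlt : Module.finrank ℝ (Zs pd qd M) < n := by
        have h1 := Submodule.finrank_add_eq_of_isCompl hc
        have h2 : 0 < Module.finrank ℝ (As p q M) := by
          rw [Module.finrank_pos_iff_exists_ne_zero]
          refine ⟨⟨x0, Submodule.subset_span hx0'⟩, fun hcon => hx0 (congrArg Subtype.val hcon)⟩
        omega
      obtain ⟨k, Q, μ, h1, h2, h3, h4, h5, h6⟩ := ih _ hlt (Zs pd qd M) rfl _ _ _ _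
        (hp.restrict (Pz_left hc) hplel) (hq.restrict (Pz_left hc) hqlel)
        (restrict_dataEx hp hq hP hP' hM.le hqp hc) (restrict_dataEx' hp hq hP hP' hM.le hqp hc)
      set ι := (Zs pd qd M).subtypeL with hι
      have hPι : ∀ s : Zs pd qd M, P (ι s) = s := Pz_left hc
      set P0 : E →L[ℝ] E := ContinuousLinearMap.id ℝ E - ι.comp P with hP0
      have hP0a : ∀ x, P0 x = x - (P x : E) := fun x => rfl
      have hPP0 : ∀ x, P (P0 x) = 0 := by
        intro x
        rw [hP0a, map_sub]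
        have := hPι (P x)
        rw [sub_eq_zero]
        exact this.symm
      refine ⟨k + 1, Fin.cons P0 (fun i => ι.comp ((Q i).comp P)), Fin.cons M μ, ?_, ?_, ?_,
        ?_, ?_, ?_⟩
      · intro i
        refine Fin.cases ?_ (fun i => ?_) i
        · simpa using hM
        · simpa using h1 i
      · intro i j
        refine Fin.cases ?_ (fun i => ?_) i
        · refine Fin.cases ?_ (fun j => ?_) j
          · intro h; exact absurd rfl h
          · intro _ x
            simp only [Fin.cons_zero, Fin.cons_succ, ContinuousLinearMap.comp_apply]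
            rw [hP0a, hPι]
            exact sub_self _
        · refine Fin.cases ?_ (fun j => ?_) j
          · intro _ x
            simp only [Fin.cons_zero, Fin.cons_succ, ContinuousLinearMap.comp_apply]
            rw [hPP0, map_zero, map_zero]
          · intro hij x
            simp only [Fin.cons_succ, ContinuousLinearMap.comp_apply]
            rw [hPι, h2 i j (fun h => hij (by rw [h])), map_zero]
      · intro i x
        refine Fin.cases ?_ (fun i => ?_) i
        · simp only [Fin.cons_zero]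
          rw [hP0a (P0 x), hPP0]
          simp
        · simp only [Fin.cons_succ, ContinuousLinearMap.comp_apply]
          rw [hPι, h3]
      · intro x
        rw [Fin.sum_univ_succ]
        simp only [Fin.cons_zero, Fin.cons_succ, ContinuousLinearMap.comp_apply]
        rw [← map_sum, h4, hP0a]
        exact sub_add_cancel _ _
      · intro x
        rw [Fin.sum_univ_succ]
        simp only [Fin.cons_zero, Fin.cons_succ, ContinuousLinearMap.comp_apply]
        rw [(hpy x).1, hP0a]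
        congr 1
        exact h5 (P x)
      · intro x
        rw [Fin.sum_univ_succ]
        simp only [Fin.cons_zero, Fin.cons_succ, ContinuousLinearMap.comp_apply]
        rw [(hpy x).2, hP0a]
        congr 1
        exact h6 (P x)

end Pool.Agent.H34.Env
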