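import Pool.Agent.H34.Env.Gm

open scoped RealInnerProductSpace Topology Pointwise
open Filter

namespace Pool.Agent.H34.Env

variable {E : Type*} [NormedAddCommGroup E] [InnerProductSpace ℝ E]

section conv

variable [FiniteDimensional ℝ E] {K T : Set E}

/-- The contraction constants `1 + c / 2^j`. -/
lemma ah_const (hK : IsBody K) (hT : IsBody T) :
    ∃ c : ℝ, 0 ≤ c ∧ ∀ j : ℕ, ∀ x ∈ (ah K T (j + 1)).1,
      (1 + c / 2 ^ j)⁻¹ • x ∈ (ah K T (j + 1)).2 := by
  obtain ⟨R, hR, h1⟩ := (ah_body hK hT 1).1.outer_ball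
  obtain ⟨r, hr, h2⟩ := (ah_body hK hT 1).2.inner_ball
  refine ⟨R / r, by positivity, fun j => ?_⟩
  induction j with
  | zero =>
    intro x hx
    apply h2
    have hpos : 0 < 1 + R / r / 2 ^ 0 := by positivity
    rw [norm_smul, norm_inv, Real.norm_of_nonneg hpos.le, inv_mul_le_iff₀ hpos]
    have h3 := h1 x hx
    have h4 : (1 + R / r / 2 ^ 0) * r = r + R := by field_simp
    rw [h4]
    linarith
  | succ j ih =>
    intro x hx
    have hx' : x ∈ avg (ah K T (j + 1)).1 (ah K T (j + 1)).2 := hx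
    rw [mem_avg] at hx'
    obtain ⟨a, ha, h, hh, rfl⟩ := hx'
    apply ah_incr hK hT j
    have hb := (ah_body hK hT (j + 1)).2
    set c := 1 + R / r / 2 ^ j with hc
    have hc1 : 0 < c := by positivity
    have hc' : 1 + R / r / 2 ^ (j + 1) = (c + 1) / 2 := by
      rw [hc, pow_succ]
      field_simp
      ring
    rw [hc']
    have h3 := hb.conv (ih a ha) hh (a := c / (c + 1)) (b := 1 / (c + 1)) (by positivity)
      (by positivity) (by field_simp)
    have h4 : ((c + 1) / 2)⁻¹ • (1 / 2 : ℝ) • (a + h)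
        = (c / (c + 1)) • c⁻¹ • a + (1 / (c + 1)) • h := by
      rw [smul_smul, smul_smul, smul_add]
      congr 1
      · congr 1
        field_simp
      · congr 1
        field_simp
    rw [h4]
    exact h3

lemma const_lim (c : ℝ) : Tendsto (fun j : ℕ => c / 2 ^ j) atTop (𝓝 0) := by
  have h : Tendsto (fun j : ℕ => c * (1 / 2 : ℝ) ^ j) atTop (𝓝 (c * 0)) :=
    (tendsto_pow_atTop_nhds_zero_of_lt_one (by norm_num) (by norm_num)).const_mul c
  rw [mul_zero] at h
  refine h.congr (fun j => ?_)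
  rw [one_div, inv_pow, div_eq_mul_inv]

lemma geomMean_subset (m : ℕ) : geomMean K T ⊆ (ah K T (m + 1)).1 := Set.iInter_subset _ m

lemma geomMean_nonempty (hK : IsBody K) (hT : IsBody T) : (geomMean K T).Nonempty :=
  ⟨0, H_subset_geomMean hK hT 0 (ah_body hK hT 1).2.zero_mem⟩

/-- Both sequences converge to `geomMean K T` in the Hausdorff metric. -/
theorem ah_tendsto (hK : IsBody K) (hT : IsBody T) :
    Tendsto (fun m => Metric.hausdorffDist (ah K T m).1 (geomMean K T)) atTop (𝓝 0) ∧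
    Tendsto (fun m => Metric.hausdorffDist (ah K T m).2 (geomMean K T)) atTop (𝓝 0) := by
  obtain ⟨c, hc, h1⟩ := ah_const hK hT
  obtain ⟨R, hR, h2⟩ := (ah_body hK hT 1).1.outer_ball
  have hanti : ∀ j, (ah K T (j + 1)).1 ⊆ (ah K T 1).1 := by
    intro j
    induction j with
    | zero => exact subset_rfl
    | succ j ih => exact (ah_anti hK hT j).trans ih
  have key : ∀ j, ∀ x ∈ (ah K T (j + 1)).1, ∃ y ∈ (ah K T (j + 1)).2,
      dist x y ≤ R * (c / 2 ^ j) := by
    intro j x hx
    refine ⟨_, h1 j x hx, ?_⟩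
    have hδ : 0 ≤ c / 2 ^ j := by positivity
    set δ := c / 2 ^ j
    have e : x - (1 + δ)⁻¹ • x = (δ * (1 + δ)⁻¹) • x := by
      have : x - (1 + δ)⁻¹ • x = (1 - (1 + δ)⁻¹) • x := by rw [sub_smul, one_smul]
      rw [this]
      congr 1
      field_simp
      ring
    rw [dist_eq_norm, e, norm_smul, Real.norm_of_nonneg (by positivity)]
    have h3 : ‖x‖ ≤ R := h2 x (hanti j hx)
    have h4 : (1 + δ)⁻¹ ≤ 1 := inv_le_one_of_one_le₀ (by linarith)
    calc δ * (1 + δ)⁻¹ * ‖x‖ ≤ δ * 1 * R := by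
          apply mul_le_mul _ h3 (norm_nonneg _) (by positivity)
          exact mul_le_mul_of_nonneg_left h4 hδ
      _ = R * δ := by ring
  have lim : Tendsto (fun j : ℕ => R * (c / 2 ^ j)) atTop (𝓝 0) := by
    have := (const_lim c).const_mul R
    simpa using this
  have b1 : ∀ j, Metric.hausdorffDist (ah K T (j + 1)).1 (geomMean K T) ≤ R * (c / 2 ^ j) := by
    intro j
    refine Metric.hausdorffDist_le_of_mem_dist (by positivity) ?_ ?_
    · intro x hx
      obtain ⟨y, hy, hd⟩ := key j x hx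
      exact ⟨y, H_subset_geomMean hK hT j hy, hd⟩
    · intro x hx
      exact ⟨x, geomMean_subset j hx, by rw [dist_self]; positivity⟩
  have b2 : ∀ j, Metric.hausdorffDist (ah K T (j + 1)).2 (geomMean K T) ≤ R * (c / 2 ^ j) := by
    intro j
    refine Metric.hausdorffDist_le_of_mem_dist (by positivity) ?_ ?_
    · intro x hx
      exact ⟨x, H_subset_geomMean hK hT j hx, by rw [dist_self]; positivity⟩
    · intro x hx
      obtain ⟨y, hy, hd⟩ := key j x (geomMean_subset j hx)
      exact ⟨y, hy, hd⟩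
  constructor
  · rw [← tendsto_add_atTop_iff_nat 1]
    exact squeeze_zero (fun j => Metric.hausdorffDist_nonneg) b1 lim
  · rw [← tendsto_add_atTop_iff_nat 1]
    exact squeeze_zero (fun j => Metric.hausdorffDist_nonneg) b2 lim

end conv

section ell

/-- The polar with respect to the form `⟪m x, y⟫`. -/
def pm (m : E →L[ℝ] E) (A : Set E) : Set E := {x | m x ∈ polar A}

lemma IsGm.swap {u v m : E →L[ℝ] E} (h : IsGm u v m) : IsGm v u m where
  pd := h.pd
  blk := by
    intro x y
    have h1 := h.blk y x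
    have e : ⟪m x, y⟫ = ⟪m y, x⟫ := by rw [h.pd.sym, real_inner_comm]
    rw [e]
    linarith
  rel1 := h.rel2
  rel2 := h.rel1
  max := by
    intro U hU hp hb
    refine h.max U hU hp (fun x y => ?_)
    have h1 := hb y x
    have e : ⟪U x, y⟫ = ⟪U y, x⟫ := by rw [hU, real_inner_comm]
    rw [e]
    linarith

lemma pm_ellipsoid {u v m : E →L[ℝ] E} (hu : IsPD u) (hv : IsPD v) (h : IsGm u v m) :
    pm m (ellipsoid u) = ellipsoid v := by
  have hadm : Adm (fun x => Real.sqrt ⟪u x, x⟫) (fun x => Real.sqrt ⟪v x, x⟫) u m v := by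
    refine ⟨hu.sym, h.pd.sym, hv.sym, h.pd.psd, h.blk, fun x => ?_, fun x => ?_⟩
    · rw [Real.sq_sqrt (hu.psd x)]
    · rw [Real.sq_sqrt (hv.psd x)]
  ext x
  constructor
  · intro hx
    by_cases hx0 : x = 0
    · rw [hx0]
      show ⟪v 0, 0⟫ ≤ 1
      simp
    obtain ⟨a, ha1, ha2⟩ := h.rel1 x
    have hv0 := hv.pos x hx0
    set g := Real.sqrt ⟪v x, x⟫ with hg
    have hg0 : 0 < g := Real.sqrt_pos.mpr hv0
    have hgg : g * g = ⟪v x, x⟫ := Real.mul_self_sqrt hv0.le
    have e1 : ⟪a, m x⟫ = ⟪v x, x⟫ := by rw [← h.pd.sym, ha2]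
    have e2 : ⟪u a, a⟫ = ⟪v x, x⟫ := by rw [ha1, real_inner_comm, e1]
    have hmem : g⁻¹ • a ∈ ellipsoid u := by
      show ⟪u (g⁻¹ • a), g⁻¹ • a⟫ ≤ 1
      rw [map_smul, inner_smul_left, inner_smul_right, RCLike.conj_to_real, e2, ← hgg]
      apply le_of_eq
      field_simp
    have h1 := hx _ hmem
    rw [inner_smul_left, RCLike.conj_to_real, e1, ← hgg] at h1
    have h2 : g ≤ 1 := by
      have : g⁻¹ * (g * g) = g := by field_simp
      rw [this] at h1
      exact h1
    show ⟪v x, x⟫ ≤ 1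
    rw [← hgg]
    nlinarith
  · intro hx a ha
    have ha' : ⟪u a, a⟫ ≤ 1 := ha
    have hx' : ⟪v x, x⟫ ≤ 1 := hx
    rw [← h.pd.sym]
    have h1 := hadm.cs a x
    have h2 : ⟪u a, a⟫ * ⟪v x, x⟫ ≤ 1 * 1 := mul_le_mul ha' hx' (hv.psd x) zero_le_one
    nlinarith

variable [FiniteDimensional ℝ E]

lemma IsPD.surj {m : E →L[ℝ] E} (h : IsPD m) : Function.Surjective m := by
  have hinj : Function.Injective m := by
    rw [injective_iff_map_eq_zero]
    intro x hx
    by_contra hne
    have := h.pos x hne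
    rw [hx, inner_zero_left] at this
    exact lt_irrefl _ this
  exact (LinearMap.injective_iff_surjective (f := m.toLinearMap)).mp hinj

lemma ah_pm {u v m : E →L[ℝ] E} (hu : IsPD u) (hv : IsPD v) (h : IsGm u v m) (j : ℕ) :
    (∀ x, x ∈ (ah (ellipsoid u) (ellipsoid v) j).2 ↔
      m x ∈ polar (ah (ellipsoid u) (ellipsoid v) j).1) ∧
    (∀ x, x ∈ (ah (ellipsoid u) (ellipsoid v) j).1 ↔
      m x ∈ polar (ah (ellipsoid u) (ellipsoid v) j).2) := by
  have : CompleteSpace E := FiniteDimensional.complete ℝ E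
  induction j with
  | zero =>
    constructor
    · intro x
      have := pm_ellipsoid hu hv h
      rw [Set.ext_iff] at this
      exact (this x).symm
    · intro x
      have := pm_ellipsoid hv hu h.swap
      rw [Set.ext_iff] at this
      exact (this x).symm
  | succ j ih =>
    have hb := ah_body hu.body hv.body j
    set A := (ah (ellipsoid u) (ellipsoid v) j).1 with hA
    set H := (ah (ellipsoid u) (ellipsoid v) j).2 with hH
    have eA : (ah (ellipsoid u) (ellipsoid v) (j + 1)).1 = avg A H := rfl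
    have eH : (ah (ellipsoid u) (ellipsoid v) (j + 1)).2 = polar (avg (polar A) (polar H)) := rfl
    rw [eA, eH]
    have first : ∀ x, x ∈ polar (avg (polar A) (polar H)) ↔ m x ∈ polar (avg A H) := by
      intro x
      constructor
      · intro hx s hs
        rw [mem_avg] at hs
        obtain ⟨a, ha, b, hb', rfl⟩ := hs
        have h1 := hx _ (mem_avg.mpr ⟨m b, (ih.1 b).mp hb', m a, (ih.2 a).mp ha, rfl⟩)
        rw [inner_smul_left, inner_add_left, h.pd.sym, h.pd.sym] at h1
        rw [inner_smul_left, inner_add_left]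
        linarith
      · intro hx s hs
        rw [mem_avg] at hs
        obtain ⟨y, hy, z, hz, rfl⟩ := hs
        obtain ⟨b, rfl⟩ := h.pd.surj y
        obtain ⟨a, rfl⟩ := h.pd.surj z
        have h1 := hx _ (mem_avg.mpr ⟨a, (ih.2 a).mpr hz, b, (ih.1 b).mpr hy, rfl⟩)
        rw [inner_smul_left, inner_add_left] at h1
        rw [inner_smul_left, inner_add_left, h.pd.sym, h.pd.sym]
        linarith
    refine ⟨first, fun x => ?_⟩
    constructor
    · intro hx y hy
      rw [← h.pd.sym, real_inner_comm]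
      exact (first y).mp hy x hx
    · intro hx
      by_contra hcon
      have hAH := hb.1.avg hb.2
      obtain ⟨y, hy, h1⟩ := sep_polar hAH.compact.isClosed hAH.conv hAH.zero_mem hcon
      obtain ⟨b, rfl⟩ := h.pd.surj y
      have h2 := hx b ((first b).mpr hy)
      rw [← h.pd.sym, real_inner_comm] at h2
      linarith

/-- The geometric mean of two ellipsoids is the ellipsoid of the operator geometric mean. -/
lemma geomMean_ellipsoid {u v m : E →L[ℝ] E} (hu : IsPD u) (hv : IsPD v) (h : IsGm u v m) :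
    geomMean (ellipsoid u) (ellipsoid v) = ellipsoid m := by
  apply Set.Subset.antisymm
  · intro x hx
    obtain ⟨c, hc, h1⟩ := ah_const hu.body hv.body
    have h2 : ∀ j : ℕ, ⟪m x, x⟫ ≤ 1 + c / 2 ^ j := by
      intro j
      have hxA := geomMean_subset j hx
      have h3 := h1 j x hxA
      have h4 := ((ah_pm hu hv h (j + 1)).1 _).mp h3 x hxA
      have hpos : 0 < 1 + c / 2 ^ j := by positivity
      rw [map_smul, inner_smul_right, inv_mul_le_iff₀ hpos, mul_one, real_inner_comm] at h4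
      exact h4
    have h5 : Tendsto (fun j : ℕ => 1 + c / 2 ^ j) atTop (𝓝 (1 + 0)) :=
      tendsto_const_nhds.add (const_lim c)
    have h6 := ge_of_tendsto' h5 h2
    rw [add_zero] at h6
    exact h6
  · intro x hx
    have hx' : ⟪m x, x⟫ ≤ 1 := hx
    simp only [geomMean, Set.mem_iInter]
    intro j
    rw [(ah_pm hu hv h (j + 1)).2]
    intro y hy
    have h1 := ah_le hu.body hv.body j hy
    have h2 := ((ah_pm hu hv h (j + 1)).1 y).mp hy y h1
    rw [← h.pd.sym]
    have h3 := Psd.cs h.pd.sym h.pd.psd y x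
    have h4 : ⟪m y, y⟫ ≤ 1 := by rw [h.pd.sym]; exact h2
    have h5 : ⟪m y, y⟫ * ⟪m x, x⟫ ≤ 1 * 1 := mul_le_mul h4 hx' (h.pd.psd x) zero_le_one
    nlinarith

end ell

section env

/-- The upper ellipsoidal envelope. -/
def upperEnv (K T : Set E) : Set E :=
  {x | ∀ u v : E →L[ℝ] E, IsPD u → IsPD v → K ⊆ ellipsoid u → T ⊆ ellipsoid v →
    x ∈ geomMean (ellipsoid u) (ellipsoid v)}

/-- The lower ellipsoidal envelope. -/
def lowerEnv (K T : Set E) : Set E := polar (upperEnv (polar K) (polar T))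

variable [FiniteDimensional ℝ E] {K T : Set E}

lemma gauge_sq_ge {u : E →L[ℝ] E} (hK : IsBody K) (h : K ⊆ ellipsoid u) (x : E) :
    ⟪u x, x⟫ ≤ gauge K x ^ 2 := by
  by_cases hx : x = 0
  · rw [hx]; simp
  have g := hK.gauge_pos hx
  have h1 : ⟪u ((gauge K x)⁻¹ • x), (gauge K x)⁻¹ • x⟫ ≤ 1 := h ((hK.gauge_le_iff g).mp le_rfl)
  rw [map_smul, inner_smul_left, inner_smul_right, RCLike.conj_to_real] at h1
  set s := gauge K x
  have h2 : s ^ 2 * (s⁻¹ * (s⁻¹ * ⟪u x, x⟫)) = ⟪u x, x⟫ := by field_simp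
  have h3 := mul_le_mul_of_nonneg_left h1 (sq_nonneg s)
  rw [h2, mul_one] at h3
  exact h3

lemma upperEnv_eq (hK : IsBody K) (hT : IsBody T) :
    upperEnv K T = {x | Nsq (gauge K) (gauge T) x ≤ 1} := by
  apply Set.Subset.antisymm
  · intro x hx
    show Nsq (gauge K) (gauge T) x ≤ 1
    refine Nsq_le (fun t ht => ?_)
    have hA : Adm (gauge K) (gauge T) t.1 t.2.1 t.2.2 := ht
    obtain ⟨c1, h1, l1⟩ := hK.dp.lower
    obtain ⟨c2, h2, l2⟩ := hT.dp.lower
    have key : ∀ ε : ℝ, 0 < ε → ε < 1 → (1 - ε) * ⟪t.2.1 x, x⟫ ≤ 1 := by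
      intro ε hε0 hε1
      have pdpert : ∀ {A : E →L[ℝ] E} {c : ℝ}, 0 < c → Sym A → Psd A →
          IsPD ((1 - ε) • A + (ε * c ^ 2) • ContinuousLinearMap.id ℝ E) := by
        intro A c hc hs hp
        refine ⟨?_, ?_⟩
        · intro y z
          simp only [add_apply, smul_apply, ContinuousLinearMap.id_apply, inner_add_left,
            inner_add_right, inner_smul_left, inner_smul_right, RCLike.conj_to_real]
          rw [hs y z]
        · intro y hy
          simp only [add_apply, smul_apply, ContinuousLinearMap.id_apply, inner_add_left,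
            inner_smul_left, RCLike.conj_to_real]
          have h3 := mul_nonneg (sub_pos.mpr hε1).le (hp y)
          have h4 : 0 < ⟪y, y⟫ := real_inner_self_pos.mpr hy
          have h5 : 0 < ε * c ^ 2 * ⟪y, y⟫ := by positivity
          linarith
      have hu := pdpert h1 hA.su hA.pu
      have hv := pdpert h2 hA.sv hA.pv
      have sub : ∀ {S : Set E} {A : E →L[ℝ] E} {c : ℝ}, IsBody S → 0 < c →
          (∀ y, c * ‖y‖ ≤ gauge S y) → (∀ y, ⟪A y, y⟫ ≤ gauge S y ^ 2) →
          S ⊆ ellipsoid ((1 - ε) • A + (ε * c ^ 2) • ContinuousLinearMap.id ℝ E) := by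
        intro S A c hS hc hl hle y hy
        show ⟪((1 - ε) • A + (ε * c ^ 2) • ContinuousLinearMap.id ℝ E) y, y⟫ ≤ 1
        simp only [add_apply, smul_apply, ContinuousLinearMap.id_apply, inner_add_left,
            inner_smul_left, RCLike.conj_to_real]
        have h3 := mul_le_mul_of_nonneg_left (hle y) (sub_pos.mpr hε1).le
        have h4 : c ^ 2 * ⟪y, y⟫ ≤ gauge S y ^ 2 := by
          rw [real_inner_self_eq_norm_sq]
          calc c ^ 2 * ‖y‖ ^ 2 = (c * ‖y‖) ^ 2 := by ring
            _ ≤ _ := pow_le_pow_left₀ (by positivity) (hl y) 2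
        have h5 := mul_le_mul_of_nonneg_left h4 hε0.le
        have h6 : gauge S y ^ 2 ≤ 1 := by
          have := hS.gauge_le_one_iff.mpr hy
          have h0 := gauge_nonneg (s := S) y
          nlinarith
        nlinarith
      obtain ⟨m, hm⟩ := exists_gm hu hv
      have hxm := hx _ _ hu hv (sub hK h1 l1 hA.lu) (sub hT h2 l2 hA.lv)
      rw [geomMean_ellipsoid hu hv hm] at hxm
      have hxm' : ⟪m x, x⟫ ≤ 1 := hxm
      have hmax := hm.max ((1 - ε) • t.2.1) (by
        intro y z
        simp only [smul_apply, inner_smul_left, inner_smul_right, RCLike.conj_to_real]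
        rw [hA.sU y z]) (by
        intro y
        simp only [smul_apply, inner_smul_left, RCLike.conj_to_real]
        exact mul_nonneg (sub_pos.mpr hε1).le (hA.pU y)) (by
        intro y z
        simp only [add_apply, smul_apply, ContinuousLinearMap.id_apply, inner_add_left,
            inner_smul_left, RCLike.conj_to_real]
        have h3 := mul_nonneg (sub_pos.mpr hε1).le (hA.blk y z)
        have h4 : 0 ≤ ε * c1 ^ 2 * ⟪y, y⟫ := by
          have := real_inner_self_nonneg (F := E) (x := y)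
          positivity
        have h5 : 0 ≤ ε * c2 ^ 2 * ⟪z, z⟫ := by
          have := real_inner_self_nonneg (F := E) (x := z)
          positivity
        nlinarith) x
      simp only [smul_apply, inner_smul_left, RCLike.conj_to_real] at hmax
      exact hmax.trans hxm'
    have hlim : Tendsto (fun n : ℕ => (1 - 1 / ((n : ℝ) + 1 + 1)) * ⟪t.2.1 x, x⟫) atTop
        (𝓝 ((1 - 0) * ⟪t.2.1 x, x⟫)) := by
      have h3 : Tendsto (fun n : ℕ => 1 / ((n : ℝ) + 1 + 1)) atTop (𝓝 0) := by
        have := (tendsto_one_div_add_atTop_nhds_zero_nat (𝕜 := ℝ)).comp (tendsto_add_atTop_nat 1)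
        refine this.congr (fun n => ?_)
        simp
      exact (tendsto_const_nhds.sub h3).mul_const _
    have h4 := le_of_tendsto' hlim (fun n => key _ (by positivity) (by
      rw [div_lt_one (by positivity)]
      have : (0 : ℝ) ≤ n := Nat.cast_nonneg n
      linarith))
    simpa using h4
  · intro x hx u v hu hv hKu hTv
    have hx' : Nsq (gauge K) (gauge T) x ≤ 1 := hx
    obtain ⟨m, hm⟩ := exists_gm hu hv
    rw [geomMean_ellipsoid hu hv hm]
    show ⟪m x, x⟫ ≤ 1
    have hadm : Adm (gauge K) (gauge T) u m v :=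
      ⟨hu.sym, hm.pd.sym, hv.sym, hm.pd.psd, hm.blk, gauge_sq_ge hK hKu, gauge_sq_ge hT hTv⟩
    exact (le_Nsq hK.dp hT.dp x (t := (u, m, v)) hadm).trans hx'

lemma geomMean_subset_upperEnv : geomMean K T ⊆ upperEnv K T := fun _ hx _ _ _ _ h1 h2 =>
  geomMean_mono h1 h2 hx

lemma lowerEnv_subset_geomMean (hK : IsBody K) (hT : IsBody T) :
    lowerEnv K T ⊆ geomMean K T := by
  intro x hx
  simp only [geomMean, Set.mem_iInter]
  intro j
  rw [ah_polar' hK hT j]
  intro y hy
  exact hx y (geomMean_subset_upperEnv (H_subset_geomMean hK.polar hT.polar j hy))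

/-- From the equality of the envelopes to the bilinear inequality. -/
lemma hyp_of_eq (hK : IsBody K) (hT : IsBody T) (h : upperEnv K T ⊆ lowerEnv K T) (x z : E)
    (hxz : 0 ≤ ⟪x, z⟫) :
    ⟪x, z⟫ ^ 2 ≤ Nsq (gauge K) (gauge T) x * Nsq (gauge (polar K)) (gauge (polar T)) z := by
  by_cases hx : x = 0
  · rw [hx, inner_zero_left]
    have h1 := Nsq_nonneg hK.dp hT.dp (0 : E)
    have h2 := Nsq_nonneg hK.polar.dp hT.polar.dp z
    have := mul_nonneg h1 h2
    simpa using this
  by_cases hz : z = 0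
  · rw [hz, inner_zero_right]
    have h1 := Nsq_nonneg hK.dp hT.dp x
    have h2 := Nsq_nonneg hK.polar.dp hT.polar.dp (0 : E)
    have := mul_nonneg h1 h2
    simpa using this
  have n1 := Nsq_pos hK.dp hT.dp hx
  have n2 := Nsq_pos hK.polar.dp hT.polar.dp hz
  have s1 := Nsq_smul hK.dp hT.dp (Real.sqrt (Nsq (gauge K) (gauge T) x))⁻¹ x
  have s2 := Nsq_smul hK.polar.dp hT.polar.dp
    (Real.sqrt (Nsq (gauge (polar K)) (gauge (polar T)) z))⁻¹ z
  set a := Nsq (gauge K) (gauge T) x
  set b := Nsq (gauge (polar K)) (gauge (polar T)) z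
  have sa : 0 < Real.sqrt a := Real.sqrt_pos.mpr n1
  have sb : 0 < Real.sqrt b := Real.sqrt_pos.mpr n2
  have m1 : (Real.sqrt a)⁻¹ • x ∈ upperEnv K T := by
    rw [upperEnv_eq hK hT]
    show Nsq _ _ _ ≤ 1
    rw [s1, inv_pow, Real.sq_sqrt n1.le, inv_mul_cancel₀ n1.ne']
  have m2 : (Real.sqrt b)⁻¹ • z ∈ upperEnv (polar K) (polar T) := by
    rw [upperEnv_eq hK.polar hT.polar]
    show Nsq _ _ _ ≤ 1
    rw [s2, inv_pow, Real.sq_sqrt n2.le, inv_mul_cancel₀ n2.ne']
  have h1 := h m1 _ m2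
  rw [inner_smul_left, inner_smul_right, RCLike.conj_to_real, real_inner_comm, ← mul_assoc,
    ← mul_inv, inv_mul_le_iff₀ (by positivity), mul_one] at h1
  calc ⟪x, z⟫ ^ 2 ≤ (Real.sqrt b * Real.sqrt a) ^ 2 := pow_le_pow_left₀ hxz h1 2
    _ = a * b := by rw [mul_pow, Real.sq_sqrt n1.le, Real.sq_sqrt n2.le]; ring

end env

end Pool.Agent.H34.Env
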