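import Pool.Agent.H34.Env.Hyp

open scoped RealInnerProductSpace Topology Pointwise
open Filter

namespace Pool.Agent.H34.Env

variable {E : Type*} [NormedAddCommGroup E] [InnerProductSpace ℝ E]

/-- The polar of a set. -/
def polar (K : Set E) : Set E := {y | ∀ x ∈ K, ⟪x, y⟫ ≤ 1}

/-- Convex bodies with the origin in the interior. -/
structure IsBody (K : Set E) : Prop where
  compact : IsCompact K
  conv : Convex ℝ K
  int : (0 : E) ∈ interior K

/-- Minkowski average. -/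
def avg (K T : Set E) : Set E := (1 / 2 : ℝ) • (K + T)

lemma mem_avg {K T : Set E} {x : E} : x ∈ avg K T ↔ ∃ k ∈ K, ∃ t ∈ T, (1 / 2 : ℝ) • (k + t) = x := by
  constructor
  · rintro ⟨_, ⟨k, hk, t, ht, rfl⟩, rfl⟩
    exact ⟨k, hk, t, ht, rfl⟩
  · rintro ⟨k, hk, t, ht, rfl⟩
    exact ⟨_, ⟨k, hk, t, ht, rfl⟩, rfl⟩

lemma avg_mono {K K' T T' : Set E} (h : K ⊆ K') (h' : T ⊆ T') : avg K T ⊆ avg K' T' := by
  intro x hx
  rw [mem_avg] at *
  obtain ⟨k, hk, t, ht, e⟩ := hx
  exact ⟨k, h hk, t, h' ht, e⟩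

lemma avg_comm (K T : Set E) : avg K T = avg T K := by
  unfold avg
  rw [add_comm]

lemma polar_anti {K K' : Set E} (h : K ⊆ K') : polar K' ⊆ polar K := fun _ hy x hx => hy x (h hx)

lemma subset_polar_polar (K : Set E) : K ⊆ polar (polar K) := by
  intro x hx y hy
  rw [real_inner_comm]
  exact hy x hx

lemma zero_mem_polar (K : Set E) : (0 : E) ∈ polar K := by
  intro x _
  simp

lemma isClosed_polar (K : Set E) : IsClosed (polar K) := by
  have : polar K = ⋂ x ∈ K, {y | ⟪x, y⟫ ≤ 1} := by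
    ext y; simp [polar]
  rw [this]
  exact isClosed_biInter fun x _ => isClosed_le (by fun_prop) continuous_const

lemma convex_polar (K : Set E) : Convex ℝ (polar K) := by
  intro y hy z hz α β hα hβ hαβ x hx
  rw [inner_add_right, inner_smul_right, inner_smul_right]
  have h1 := mul_le_mul_of_nonneg_left (hy x hx) hα
  have h2 := mul_le_mul_of_nonneg_left (hz x hx) hβ
  linarith

lemma sep_polar [CompleteSpace E] {K : Set E} (hc : IsClosed K) (hcv : Convex ℝ K) (h0 : (0 : E) ∈ K)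
    {x : E} (hx : x ∉ K) : ∃ y ∈ polar K, 1 < ⟪x, y⟫ := by
  obtain ⟨f, s, hs1, hs2⟩ := geometric_hahn_banach_closed_point hcv hc hx
  have hs : 0 < s := by simpa using hs1 0 h0
  set k : E := (InnerProductSpace.toDual ℝ E).symm f with hk
  have hfk : ∀ x, f x = ⟪x, k⟫ := by
    intro x
    rw [real_inner_comm, hk, InnerProductSpace.toDual_symm_apply]
  refine ⟨s⁻¹ • k, fun z hz => ?_, ?_⟩
  · rw [inner_smul_right, ← hfk]
    have := hs1 z hz
    rw [inv_mul_le_iff₀ hs]
    linarith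
  · rw [inner_smul_right, ← hfk, lt_inv_mul_iff₀ hs]
    linarith

lemma bipolar [CompleteSpace E] {K : Set E} (hc : IsClosed K) (hcv : Convex ℝ K)
    (h0 : (0 : E) ∈ K) : polar (polar K) = K := by
  apply Set.Subset.antisymm _ (subset_polar_polar K)
  intro x hx
  by_contra hcon
  obtain ⟨y, hy, h1⟩ := sep_polar hc hcv h0 hcon
  have := hx y hy
  rw [real_inner_comm] at this
  linarith

namespace IsBody

variable {K T : Set E}

lemma zero_mem (h : IsBody K) : (0 : E) ∈ K := interior_subset h.int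

lemma nhds (h : IsBody K) : K ∈ 𝓝 (0 : E) := mem_interior_iff_mem_nhds.mp h.int

lemma inner_ball (h : IsBody K) : ∃ r, 0 < r ∧ ∀ x : E, ‖x‖ ≤ r → x ∈ K := by
  obtain ⟨r, hr, hb⟩ := Metric.nhds_basis_closedBall.mem_iff.mp h.nhds
  exact ⟨r, hr, fun x hx => hb (by simpa using hx)⟩

lemma outer_ball (h : IsBody K) : ∃ R, 0 < R ∧ ∀ x ∈ K, ‖x‖ ≤ R := by
  obtain ⟨R, hR⟩ := h.compact.isBounded.exists_norm_le
  exact ⟨max R 1, by positivity, fun x hx => (hR x hx).trans (le_max_left _ _)⟩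

lemma of_balls [FiniteDimensional ℝ E] (hc : IsClosed K) (hcv : Convex ℝ K) {r R : ℝ} (hr : 0 < r)
    (h1 : ∀ x : E, ‖x‖ ≤ r → x ∈ K) (h2 : ∀ x ∈ K, ‖x‖ ≤ R) : IsBody K where
  compact := (isCompact_closedBall (0 : E) R).of_isClosed_subset hc
    (fun x hx => by simpa using h2 x hx)
  conv := hcv
  int := by
    rw [mem_interior_iff_mem_nhds]
    exact Filter.mem_of_superset (Metric.closedBall_mem_nhds (0 : E) hr)
      (fun x hx => h1 x (by simpa using hx))

lemma polar [FiniteDimensional ℝ E] (h : IsBody K) : IsBody (polar K) := by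
  obtain ⟨r, hr, h1⟩ := h.inner_ball
  obtain ⟨R, hR, h2⟩ := h.outer_ball
  refine of_balls (r := R⁻¹) (R := r⁻¹) (isClosed_polar K) (convex_polar K) (by positivity)
    ?_ ?_
  · intro y hy x hx
    calc ⟪x, y⟫ ≤ ‖x‖ * ‖y‖ := real_inner_le_norm _ _
      _ ≤ R * R⁻¹ := mul_le_mul (h2 x hx) hy (norm_nonneg _) hR.le
      _ = 1 := mul_inv_cancel₀ hR.ne'
  · intro y hy
    by_cases hy0 : y = 0
    · rw [hy0]; simp; positivity
    have hn : 0 < ‖y‖ := norm_pos_iff.mpr hy0
    have h3 := hy ((r / ‖y‖) • y) (h1 _ (by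
      rw [norm_smul, Real.norm_of_nonneg (by positivity), div_mul_cancel₀ _ hn.ne']))
    rw [inner_smul_left, RCLike.conj_to_real, real_inner_self_eq_norm_sq] at h3
    have h4 : r / ‖y‖ * ‖y‖ ^ 2 = r * ‖y‖ := by field_simp
    rw [h4] at h3
    rw [← mul_le_mul_iff_right₀ hr, mul_inv_cancel₀ hr.ne']
    exact h3

lemma bipolar [FiniteDimensional ℝ E] (h : IsBody K) : Env.polar (Env.polar K) = K := by
  have : CompleteSpace E := FiniteDimensional.complete ℝ E
  exact Env.bipolar h.compact.isClosed h.conv h.zero_mem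

lemma avg (h : IsBody K) (h' : IsBody T) : IsBody (avg K T) where
  compact := (h.compact.add h'.compact).smul (1 / 2 : ℝ)
  conv := (h.conv.add h'.conv).smul (1 / 2 : ℝ)
  int := by
    obtain ⟨r, hr, h1⟩ := h.inner_ball
    obtain ⟨r', hr', h1'⟩ := h'.inner_ball
    rw [mem_interior_iff_mem_nhds]
    refine Filter.mem_of_superset (Metric.closedBall_mem_nhds (0 : E) (lt_min hr hr'))
      (fun x hx => ?_)
    have hx' : ‖x‖ ≤ min r r' := by simpa using hx
    rw [mem_avg]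
    refine ⟨x, h1 x (hx'.trans (min_le_left _ _)), x, h1' x (hx'.trans (min_le_right _ _)), ?_⟩
    rw [← two_smul ℝ x, smul_smul]
    norm_num

lemma gauge_le_one_iff (h : IsBody K) {x : E} : gauge K x ≤ 1 ↔ x ∈ K := by
  rw [gauge_le_one_iff_mem_closure h.conv h.nhds, h.compact.isClosed.closure_eq]

lemma gauge_le_iff (h : IsBody K) {x : E} {c : ℝ} (hc : 0 < c) : gauge K x ≤ c ↔ c⁻¹ • x ∈ K := by
  rw [← h.gauge_le_one_iff, gauge_smul_of_nonneg (by positivity), smul_eq_mul,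
    inv_mul_le_iff₀ hc, mul_one]

lemma gauge_pos (h : IsBody K) {x : E} (hx : x ≠ 0) : 0 < gauge K x := by
  rcases (gauge_nonneg x : 0 ≤ gauge K x).eq_or_lt with h0 | h0
  · exfalso
    obtain ⟨R, hR, h2⟩ := h.outer_ball
    have hn : 0 < ‖x‖ := norm_pos_iff.mpr hx
    have h3 : gauge K x ≤ ‖x‖ / (2 * R) := by rw [← h0]; positivity
    rw [h.gauge_le_iff (by positivity)] at h3
    have h4 := h2 _ h3
    rw [norm_smul, norm_inv, Real.norm_of_nonneg (by positivity)] at h4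
    have h5 : (‖x‖ / (2 * R))⁻¹ * ‖x‖ = 2 * R := by field_simp
    rw [h5] at h4
    linarith
  · exact h0

/-- The gauges of a body and of its polar form a dual pair. -/
lemma dp [FiniteDimensional ℝ E] (h : IsBody K) : DP (gauge K) (gauge (Env.polar K)) where
  nn := fun x => gauge_nonneg x
  nnd := fun y => gauge_nonneg y
  le := by
    intro x y
    by_cases hx : x = 0
    · rw [hx]; simp
    by_cases hy : y = 0
    · rw [hy]; simp
    have g1 := h.gauge_pos hx
    have g2 := h.polar.gauge_pos hy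
    have m1 := (h.gauge_le_iff g1).mp le_rfl
    have m2 := (h.polar.gauge_le_iff g2).mp le_rfl
    have h3 := m2 _ m1
    rw [inner_smul_left, inner_smul_right, RCLike.conj_to_real] at h3
    rw [← mul_assoc, ← mul_inv, inv_mul_le_iff₀ (by positivity), mul_one] at h3
    exact h3
  sup1 := by
    intro x c hc hh
    rcases hc.eq_or_lt with h0 | h0
    · have hx : x = 0 := by
        have := hh x
        rw [← h0, zero_mul] at this
        exact real_inner_self_nonpos.mp this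
      rw [hx, gauge_zero]
      exact hc
    · rw [h.gauge_le_iff h0, ← h.bipolar]
      intro y hy
      rw [inner_smul_right, inv_mul_le_iff₀ h0, mul_one, real_inner_comm]
      calc ⟪x, y⟫ ≤ c * gauge (Env.polar K) y := hh y
        _ ≤ c * 1 := mul_le_mul_of_nonneg_left (h.polar.gauge_le_one_iff.mpr hy) hc
        _ = c := mul_one c
  sup2 := by
    intro y c hc hh
    rcases hc.eq_or_lt with h0 | h0
    · have hx : y = 0 := by
        have := hh y
        rw [← h0, zero_mul] at this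
        exact real_inner_self_nonpos.mp this
      rw [hx, gauge_zero]
      exact hc
    · rw [h.polar.gauge_le_iff h0]
      intro x hx
      rw [inner_smul_right, inv_mul_le_iff₀ h0, mul_one]
      calc ⟪x, y⟫ ≤ c * gauge K x := hh x
        _ ≤ c * 1 := mul_le_mul_of_nonneg_left (h.gauge_le_one_iff.mpr hx) hc
        _ = c := mul_one c
  bd := by
    obtain ⟨r, hr, h1⟩ := h.inner_ball
    refine ⟨r⁻¹, by positivity, fun x => ?_⟩
    by_cases hx : x = 0
    · rw [hx]; simp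
    have hn : 0 < ‖x‖ := norm_pos_iff.mpr hx
    rw [h.gauge_le_iff (by positivity)]
    refine h1 _ ?_
    rw [norm_smul, norm_inv, Real.norm_of_nonneg (by positivity)]
    have : (r⁻¹ * ‖x‖)⁻¹ * ‖x‖ = r := by field_simp
    rw [this]
  bdd := by
    obtain ⟨r, hr, h1⟩ := h.polar.inner_ball
    refine ⟨r⁻¹, by positivity, fun x => ?_⟩
    by_cases hx : x = 0
    · rw [hx]; simp
    have hn : 0 < ‖x‖ := norm_pos_iff.mpr hx
    rw [h.polar.gauge_le_iff (by positivity)]
    refine h1 _ ?_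
    rw [norm_smul, norm_inv, Real.norm_of_nonneg (by positivity)]
    have : (r⁻¹ * ‖x‖)⁻¹ * ‖x‖ = r := by field_simp
    rw [this]

end IsBody

lemma IsBody.gauge_le_of_polar [FiniteDimensional ℝ E] {K : Set E} (h : IsBody K) {x : E} {c : ℝ}
    (hc : 0 ≤ c) (hx : ∀ y ∈ Env.polar K, ⟪y, x⟫ ≤ c) : gauge K x ≤ c := by
  refine le_of_forall_gt_imp_ge_of_dense (fun c' hc' => ?_)
  have hc0 : 0 < c' := lt_of_le_of_lt hc hc'
  rw [h.gauge_le_iff hc0, ← h.bipolar]
  intro y hy
  rw [inner_smul_right, inv_mul_le_iff₀ hc0, mul_one]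
  exact (hx y hy).trans hc'.le

/-- Arithmetic-harmonic mean inequality for convex bodies. -/
lemma amhm [FiniteDimensional ℝ E] {K T : Set E} (hK : IsBody K) (hT : IsBody T) :
    polar (avg (polar K) (polar T)) ⊆ avg K T := by
  intro x hx
  have h1 : ∀ y ∈ polar K, ∀ z ∈ polar T, ⟪y, x⟫ + ⟪z, x⟫ ≤ 2 := by
    intro y hy z hz
    have := hx _ (mem_avg.mpr ⟨y, hy, z, hz, rfl⟩)
    rw [inner_smul_left, inner_add_left, RCLike.conj_to_real] at this
    linarith
  have h2 : ∀ z ∈ polar T, gauge K x ≤ 2 - ⟪z, x⟫ := by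
    intro z hz
    refine hK.gauge_le_of_polar ?_ (fun y hy => by linarith [h1 y hy z hz])
    have := h1 0 (zero_mem_polar K) z hz
    simp at this
    linarith
  have h3 : gauge T x ≤ 2 - gauge K x := by
    refine hT.gauge_le_of_polar ?_ (fun z hz => by linarith [h2 z hz])
    have := h2 0 (zero_mem_polar T)
    simp at this
    linarith
  by_cases hx0 : x = 0
  · rw [hx0, mem_avg]
    exact ⟨0, hK.zero_mem, 0, hT.zero_mem, by simp⟩
  have s1 := hK.gauge_pos hx0
  have s2 := hT.gauge_pos hx0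
  set s := gauge K x
  set t := gauge T x
  have hst : s * t ≤ ((s + t) / 2) ^ 2 := by nlinarith [sq_nonneg (s - t)]
  have hα : (2 * t / (s + t)) * s ≤ 1 := by
    rw [div_mul_eq_mul_div, div_le_one (by positivity)]
    nlinarith
  have hβ : (2 * s / (s + t)) * t ≤ 1 := by
    rw [div_mul_eq_mul_div, div_le_one (by positivity)]
    nlinarith
  rw [mem_avg]
  refine ⟨(2 * t / (s + t)) • x, ?_, (2 * s / (s + t)) • x, ?_, ?_⟩
  · rw [← hK.gauge_le_one_iff, gauge_smul_of_nonneg (by positivity), smul_eq_mul]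
    exact hα
  · rw [← hT.gauge_le_one_iff, gauge_smul_of_nonneg (by positivity), smul_eq_mul]
    exact hβ
  · rw [← add_smul, smul_smul]
    have : (1 / 2 : ℝ) * (2 * t / (s + t) + 2 * s / (s + t)) = 1 := by
      field_simp
      ring
    rw [this, one_smul]

/-- The arithmetic-harmonic iteration. -/
def ah (K T : Set E) : ℕ → Set E × Set E
  | 0 => (K, T)
  | m + 1 => (avg (ah K T m).1 (ah K T m).2,
      polar (avg (polar (ah K T m).1) (polar (ah K T m).2)))

/-- The geometric mean. -/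
def geomMean (K T : Set E) : Set E := ⋂ m : ℕ, (ah K T (m + 1)).1

section iter

variable {K T : Set E}

lemma ah_mono {K' T' : Set E} (h : K ⊆ K') (h' : T ⊆ T') (m : ℕ) :
    (ah K T m).1 ⊆ (ah K' T' m).1 ∧ (ah K T m).2 ⊆ (ah K' T' m).2 := by
  induction m with
  | zero => exact ⟨h, h'⟩
  | succ m ih =>
    exact ⟨avg_mono ih.1 ih.2, polar_anti (avg_mono (polar_anti ih.1) (polar_anti ih.2))⟩

lemma geomMean_mono {K' T' : Set E} (h : K ⊆ K') (h' : T ⊆ T') :
    geomMean K T ⊆ geomMean K' T' := by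
  intro x hx
  simp only [geomMean, Set.mem_iInter] at *
  exact fun m => (ah_mono h h' (m + 1)).1 (hx m)

variable [FiniteDimensional ℝ E]

lemma ah_body (hK : IsBody K) (hT : IsBody T) (m : ℕ) :
    IsBody (ah K T m).1 ∧ IsBody (ah K T m).2 := by
  induction m with
  | zero => exact ⟨hK, hT⟩
  | succ m ih => exact ⟨ih.1.avg ih.2, (ih.1.polar.avg ih.2.polar).polar⟩

lemma ah_le (hK : IsBody K) (hT : IsBody T) (m : ℕ) :
    (ah K T (m + 1)).2 ⊆ (ah K T (m + 1)).1 :=
  amhm (ah_body hK hT m).1 (ah_body hK hT m).2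

omit [FiniteDimensional ℝ E] in
lemma avg_subset_left {K T : Set E} (hK : IsBody K) (h : T ⊆ K) : avg K T ⊆ K := by
  intro x hx
  rw [mem_avg] at hx
  obtain ⟨k, hk, t, ht, rfl⟩ := hx
  rw [smul_add]
  exact hK.conv hk (h ht) (by norm_num) (by norm_num) (by norm_num)

lemma ah_anti (hK : IsBody K) (hT : IsBody T) (m : ℕ) :
    (ah K T (m + 2)).1 ⊆ (ah K T (m + 1)).1 :=
  avg_subset_left (ah_body hK hT (m + 1)).1 (ah_le hK hT m)

lemma ah_incr (hK : IsBody K) (hT : IsBody T) (m : ℕ) :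
    (ah K T (m + 1)).2 ⊆ (ah K T (m + 2)).2 := by
  have hb := ah_body hK hT (m + 1)
  have h1 : avg (polar (ah K T (m + 1)).1) (polar (ah K T (m + 1)).2)
      ⊆ polar (ah K T (m + 1)).2 := by
    rw [avg_comm]
    exact avg_subset_left hb.2.polar (polar_anti (ah_le hK hT m))
  have h2 := polar_anti h1
  rw [hb.2.bipolar] at h2
  exact h2

lemma ah_cross (hK : IsBody K) (hT : IsBody T) (i j : ℕ) :
    (ah K T (i + 1)).2 ⊆ (ah K T (j + 1)).1 := by
  have h1 : ∀ i j : ℕ, i ≤ j → (ah K T (i + 1)).2 ⊆ (ah K T (j + 1)).2 := by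
    intro i j hij
    induction hij with
    | refl => exact subset_rfl
    | step _ ih => exact ih.trans (ah_incr hK hT _)
  have h2 : ∀ i j : ℕ, i ≤ j → (ah K T (j + 1)).1 ⊆ (ah K T (i + 1)).1 := by
    intro i j hij
    induction hij with
    | refl => exact subset_rfl
    | step _ ih => exact (ah_anti hK hT _).trans ih
  rcases le_total i j with h | h
  · exact (h1 i j h).trans (ah_le hK hT j)
  · exact (ah_le hK hT i).trans (h2 j i h)

lemma H_subset_geomMean (hK : IsBody K) (hT : IsBody T) (i : ℕ) :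
    (ah K T (i + 1)).2 ⊆ geomMean K T := by
  intro x hx
  simp only [geomMean, Set.mem_iInter]
  exact fun j => ah_cross hK hT i j hx

lemma ah_polar (hK : IsBody K) (hT : IsBody T) (m : ℕ) :
    polar (ah K T (m + 1)).1 = (ah (polar K) (polar T) (m + 1)).2 ∧
    polar (ah K T (m + 1)).2 = (ah (polar K) (polar T) (m + 1)).1 := by
  induction m with
  | zero =>
    constructor
    · show polar (avg K T) = polar (avg (polar (polar K)) (polar (polar T)))
      rw [hK.bipolar, hT.bipolar]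
    · show polar (polar (avg (polar K) (polar T))) = avg (polar K) (polar T)
      exact (hK.polar.avg hT.polar).bipolar
  | succ m ih =>
    have hb := ah_body hK hT (m + 1)
    constructor
    · show polar (avg (ah K T (m + 1)).1 (ah K T (m + 1)).2)
        = polar (avg (polar (ah (polar K) (polar T) (m + 1)).1)
          (polar (ah (polar K) (polar T) (m + 1)).2))
      rw [← ih.1, ← ih.2, hb.1.bipolar, hb.2.bipolar, avg_comm]
    · show polar (polar (avg (polar (ah K T (m + 1)).1) (polar (ah K T (m + 1)).2)))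
        = avg (ah (polar K) (polar T) (m + 1)).1 (ah (polar K) (polar T) (m + 1)).2
      rw [(hb.1.polar.avg hb.2.polar).bipolar, ih.1, ih.2, avg_comm]

lemma ah_polar' (hK : IsBody K) (hT : IsBody T) (m : ℕ) :
    (ah K T (m + 1)).1 = polar (ah (polar K) (polar T) (m + 1)).2 := by
  have h1 := (ah_polar hK hT m).1
  rw [← h1, (ah_body hK hT (m + 1)).1.bipolar]

end iter

section ellipsoid

/-- The set `{x | ⟪u x, x⟫ ≤ 1}`. -/
def ellipsoid (u : E →L[ℝ] E) : Set E := {x | ⟪u x, x⟫ ≤ 1}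

/-- Positive definite operators. -/
structure IsPD (u : E →L[ℝ] E) : Prop where
  sym : Sym u
  pos : ∀ x, x ≠ 0 → 0 < ⟪u x, x⟫

namespace IsPD

lemma psd {u : E →L[ℝ] E} (h : IsPD u) : Psd u := by
  intro x
  by_cases hx : x = 0
  · rw [hx]; simp
  · exact (h.pos x hx).le

lemma lower [FiniteDimensional ℝ E] {u : E →L[ℝ] E} (h : IsPD u) :
    ∃ c, 0 < c ∧ ∀ x, c * ‖x‖ ^ 2 ≤ ⟪u x, x⟫ := by
  by_cases hs : (Metric.sphere (0 : E) 1).Nonempty
  · obtain ⟨x0, hx0, hmin⟩ := (isCompact_sphere (0 : E) 1).exists_isMinOn hs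
      (f := fun x => ⟪u x, x⟫) (by fun_prop)
    have hx0' : x0 ≠ 0 := by
      intro h0
      rw [h0] at hx0
      simp at hx0
    refine ⟨⟪u x0, x0⟫, h.pos _ hx0', fun x => ?_⟩
    by_cases hx : x = 0
    · rw [hx]; simp
    have hn : 0 < ‖x‖ := norm_pos_iff.mpr hx
    have hmem : ‖x‖⁻¹ • x ∈ Metric.sphere (0 : E) 1 := by
      rw [mem_sphere_zero_iff_norm, norm_smul, norm_inv, norm_norm, inv_mul_cancel₀ hn.ne']
    have h1 : ⟪u x0, x0⟫ ≤ ⟪u (‖x‖⁻¹ • x), ‖x‖⁻¹ • x⟫ := hmin hmem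
    rw [map_smul, inner_smul_left, inner_smul_right, RCLike.conj_to_real] at h1
    have h2 : ‖x‖ ^ 2 * (‖x‖⁻¹ * (‖x‖⁻¹ * ⟪u x, x⟫)) = ⟪u x, x⟫ := by field_simp
    rw [← h2, mul_comm]
    exact mul_le_mul_of_nonneg_left h1 (by positivity)
  · refine ⟨1, one_pos, fun x => ?_⟩
    have hx : x = 0 := by
      by_contra hx
      apply hs
      have hn : 0 < ‖x‖ := norm_pos_iff.mpr hx
      exact ⟨‖x‖⁻¹ • x, by
        rw [mem_sphere_zero_iff_norm, norm_smul, norm_inv, norm_norm, inv_mul_cancel₀ hn.ne']⟩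
    rw [hx]; simp

lemma body [FiniteDimensional ℝ E] {u : E →L[ℝ] E} (h : IsPD u) : IsBody (ellipsoid u) := by
  obtain ⟨c, hc, hl⟩ := h.lower
  refine IsBody.of_balls (r := (Real.sqrt (‖u‖ + 1))⁻¹) (R := Real.sqrt (c⁻¹)) ?_ ?_ ?_ ?_ ?_
  · exact isClosed_le (by fun_prop) continuous_const
  · intro x hx y hy α β hα hβ hαβ
    have hx' : ⟪u x, x⟫ ≤ 1 := hx
    have hy' : ⟪u y, y⟫ ≤ 1 := hy
    show ⟪u (α • x + β • y), α • x + β • y⟫ ≤ 1
    have h1 := Psd.cs h.sym h.psd x y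
    have h2 : ⟪u x, y⟫ ≤ 1 := by
      have h3 : ⟪u x, x⟫ * ⟪u y, y⟫ ≤ 1 * 1 :=
        mul_le_mul hx' hy' (h.psd y) zero_le_one
      nlinarith
    simp only [map_add, map_smul, inner_add_left, inner_add_right, inner_smul_left,
      inner_smul_right, RCLike.conj_to_real]
    rw [h.sym y x, real_inner_comm (u x) y]
    have e1 : α * (α * ⟪u x, x⟫) ≤ α * (α * 1) :=
      mul_le_mul_of_nonneg_left (mul_le_mul_of_nonneg_left hx' hα) hα
    have e2 : β * (β * ⟪u y, y⟫) ≤ β * (β * 1) :=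
      mul_le_mul_of_nonneg_left (mul_le_mul_of_nonneg_left hy' hβ) hβ
    have e3 : α * (β * ⟪u x, y⟫) ≤ α * (β * 1) :=
      mul_le_mul_of_nonneg_left (mul_le_mul_of_nonneg_left h2 hβ) hα
    have e4 : β * (α * ⟪u x, y⟫) ≤ β * (α * 1) :=
      mul_le_mul_of_nonneg_left (mul_le_mul_of_nonneg_left h2 hα) hβ
    have e5 : (α + β) ^ 2 = 1 := by rw [hαβ]; norm_num
    nlinarith
  · positivity
  · intro x hx
    have h0 : 0 < ‖u‖ + 1 := by positivity
    have h1 : ‖x‖ ^ 2 ≤ (‖u‖ + 1)⁻¹ := by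
      calc ‖x‖ ^ 2 ≤ ((Real.sqrt (‖u‖ + 1))⁻¹) ^ 2 := pow_le_pow_left₀ (norm_nonneg _) hx 2
        _ = (‖u‖ + 1)⁻¹ := by rw [inv_pow, Real.sq_sqrt h0.le]
    show ⟪u x, x⟫ ≤ 1
    calc ⟪u x, x⟫ ≤ ‖u x‖ * ‖x‖ := real_inner_le_norm _ _
      _ ≤ (‖u‖ * ‖x‖) * ‖x‖ := mul_le_mul_of_nonneg_right (u.le_opNorm x) (norm_nonneg _)
      _ = ‖u‖ * ‖x‖ ^ 2 := by ring
      _ ≤ (‖u‖ + 1) * (‖u‖ + 1)⁻¹ := mul_le_mul (by linarith) h1 (by positivity) h0.le
      _ = 1 := mul_inv_cancel₀ h0.ne'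
  · intro x hx
    have hx' : ⟪u x, x⟫ ≤ 1 := hx
    have h1 := hl x
    apply Real.le_sqrt_of_sq_le
    rw [← mul_le_mul_iff_right₀ hc, mul_inv_cancel₀ hc.ne']
    linarith

end IsPD

end ellipsoid

end Pool.Agent.H34.Env
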