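import Pool.Agent.H34.Env.Geom

open scoped RealInnerProductSpace Topology Pointwise
open Filter

namespace Pool.Agent.H34.Env

variable {E : Type*} [NormedAddCommGroup E] [InnerProductSpace ℝ E]

section fop

variable {ι : Type*} [Fintype ι]

/-- Diagonal operator in an orthonormal basis. -/
noncomputable def fop (e : OrthonormalBasis ι ℝ E) (c : ι → ℝ) : E →L[ℝ] E :=
  ∑ i, c i • (innerSL ℝ (e i)).smulRight (e i)

lemma fop_apply (e : OrthonormalBasis ι ℝ E) (c : ι → ℝ) (x : E) :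
    fop e c x = ∑ i, (c i * ⟪e i, x⟫) • e i := by
  simp [fop, smul_smul]

lemma inner_fop (e : OrthonormalBasis ι ℝ E) (c : ι → ℝ) (x : E) (j : ι) :
    ⟪e j, fop e c x⟫ = c j * ⟪e j, x⟫ := by
  classical
  rw [fop_apply, inner_sum]
  simp only [inner_smul_right]
  rw [Finset.sum_eq_single j]
  · rw [real_inner_self_eq_norm_sq, e.orthonormal.1 j]; ring
  · intro i _ hij
    rw [e.orthonormal.2 (Ne.symm hij), mul_zero]
  · intro h; exact absurd (Finset.mem_univ j) h

lemma ext_basis (e : OrthonormalBasis ι ℝ E) {x y : E} (h : ∀ i, ⟪e i, x⟫ = ⟪e i, y⟫) : x = y := by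
  rw [← e.sum_repr' x, ← e.sum_repr' y]
  exact Finset.sum_congr rfl (fun i _ => by rw [h i])

lemma fop_fop (e : OrthonormalBasis ι ℝ E) (c d : ι → ℝ) (x : E) :
    fop e c (fop e d x) = fop e (fun i => c i * d i) x := by
  apply ext_basis e
  intro i
  rw [inner_fop, inner_fop, inner_fop]
  ring

lemma fop_one (e : OrthonormalBasis ι ℝ E) (x : E) : fop e (fun _ => 1) x = x := by
  apply ext_basis e
  intro i
  rw [inner_fop, one_mul]

lemma inner_eq_sum (e : OrthonormalBasis ι ℝ E) (x y : E) : ⟪x, y⟫ = ∑ i, ⟪e i, x⟫ * ⟪e i, y⟫ := by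
  rw [← e.sum_inner_mul_inner x y]
  exact Finset.sum_congr rfl (fun i _ => by rw [real_inner_comm])

lemma fop_sym (e : OrthonormalBasis ι ℝ E) (c : ι → ℝ) : Sym (fop e c) := by
  intro x y
  rw [inner_eq_sum e, inner_eq_sum e x]
  exact Finset.sum_congr rfl (fun i _ => by rw [inner_fop, inner_fop]; ring)

lemma fop_pd (e : OrthonormalBasis ι ℝ E) {c : ι → ℝ} (hc : ∀ i, 0 < c i) : IsPD (fop e c) where
  sym := fop_sym e c
  pos := by
    intro x hx
    rw [inner_eq_sum e]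
    have h1 : ∀ i ∈ Finset.univ, 0 ≤ ⟪e i, fop e c x⟫ * ⟪e i, x⟫ := by
      intro i _
      rw [inner_fop]
      have := mul_nonneg (hc i).le (mul_self_nonneg ⟪e i, x⟫)
      linarith
    refine lt_of_le_of_ne (Finset.sum_nonneg h1) (fun h0 => hx ?_)
    have h2 := (Finset.sum_eq_zero_iff_of_nonneg h1).mp h0.symm
    apply ext_basis e
    intro i
    have h3 := h2 i (Finset.mem_univ i)
    rw [inner_fop] at h3
    have h4 : ⟪e i, x⟫ * ⟪e i, x⟫ = 0 := by
      have := (hc i).ne'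
      have h5 : c i * (⟪e i, x⟫ * ⟪e i, x⟫) = 0 := by linarith
      exact (mul_eq_zero.mp h5).resolve_left this
    rw [inner_zero_right]
    exact mul_self_eq_zero.mp h4

end fop

/-- Square roots of positive definite operators. -/
lemma IsPD.exists_sqrt [FiniteDimensional ℝ E] {u : E →L[ℝ] E} (h : IsPD u) :
    ∃ s si : E →L[ℝ] E, IsPD s ∧ IsPD si ∧ (∀ x, s (s x) = u x) ∧ (∀ x, s (si x) = x) ∧
      (∀ x, si (s x) = x) := by
  have hs : (u : E →ₗ[ℝ] E).IsSymmetric := fun x y => h.sym x y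
  set e := hs.eigenvectorBasis rfl with he
  set l := hs.eigenvalues rfl with hl
  have hu : ∀ i, u (e i) = l i • e i := fun i => hs.apply_eigenvectorBasis rfl i
  have hlpos : ∀ i, 0 < l i := by
    intro i
    have hne : e i ≠ 0 := e.orthonormal.ne_zero i
    have h1 := h.pos (e i) hne
    rw [hu, inner_smul_left, RCLike.conj_to_real, real_inner_self_eq_norm_sq,
      e.orthonormal.1 i] at h1
    simpa using h1
  have huf : ∀ x, fop e l x = u x := by
    intro x
    apply ext_basis e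
    intro i
    rw [inner_fop, ← h.sym, hu, inner_smul_left, RCLike.conj_to_real]
  refine ⟨fop e (fun i => Real.sqrt (l i)), fop e (fun i => (Real.sqrt (l i))⁻¹), ?_, ?_, ?_, ?_,
    ?_⟩
  · exact fop_pd e (fun i => Real.sqrt_pos.mpr (hlpos i))
  · exact fop_pd e (fun i => inv_pos.mpr (Real.sqrt_pos.mpr (hlpos i)))
  · intro x
    rw [fop_fop, ← huf]
    congr 1
    congr 1
    funext i
    exact Real.mul_self_sqrt (hlpos i).le
  · intro x
    rw [fop_fop]
    have : (fun i => Real.sqrt (l i) * (Real.sqrt (l i))⁻¹) = fun _ => 1 := by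
      funext i
      exact mul_inv_cancel₀ (Real.sqrt_pos.mpr (hlpos i)).ne'
    rw [this, fop_one]
  · intro x
    rw [fop_fop]
    have : (fun i => (Real.sqrt (l i))⁻¹ * Real.sqrt (l i)) = fun _ => 1 := by
      funext i
      exact inv_mul_cancel₀ (Real.sqrt_pos.mpr (hlpos i)).ne'
    rw [this, fop_one]

/-- The geometric mean of positive definite operators: `m u⁻¹ m = v` expressed by factorisation. -/
structure IsGm (u v m : E →L[ℝ] E) : Prop where
  pd : IsPD m
  blk : ∀ x y, 0 ≤ ⟪u x, x⟫ + 2 * ⟪m x, y⟫ + ⟪v y, y⟫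
  rel1 : ∀ x, ∃ a, u a = m x ∧ m a = v x
  rel2 : ∀ x, ∃ b, v b = m x ∧ m b = u x
  max : ∀ U : E →L[ℝ] E, Sym U → Psd U →
    (∀ x y, 0 ≤ ⟪u x, x⟫ + 2 * ⟪U x, y⟫ + ⟪v y, y⟫) → ∀ x, ⟪U x, x⟫ ≤ ⟪m x, x⟫

/-- Ellipsoidal gauges form a dual pair. -/
lemma dp_ellipsoid [FiniteDimensional ℝ E] {u ui : E →L[ℝ] E} (h : IsPD u)
    (h1 : ∀ x, u (ui x) = x) (h2 : ∀ x, ui (u x) = x) :
    DP (fun x => Real.sqrt ⟪u x, x⟫) (fun y => Real.sqrt ⟪ui y, y⟫) := by
  have e1 : ∀ x y, ⟪x, y⟫ = ⟪u x, ui y⟫ := by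
    intro x y
    rw [h.sym, h1]
  have e2 : ∀ y, ⟪u (ui y), ui y⟫ = ⟪ui y, y⟫ := by
    intro y
    rw [h1, real_inner_comm]
  have nn2 : ∀ y, 0 ≤ ⟪ui y, y⟫ := by
    intro y
    rw [← e2]
    exact h.psd _
  have bd : ∀ (A : E →L[ℝ] E) (x : E), Real.sqrt ⟪A x, x⟫ ≤ Real.sqrt ‖A‖ * ‖x‖ := by
    intro A x
    rw [Real.sqrt_le_left (by positivity), mul_pow, Real.sq_sqrt (norm_nonneg _)]
    calc ⟪A x, x⟫ ≤ ‖A x‖ * ‖x‖ := real_inner_le_norm _ _
      _ ≤ (‖A‖ * ‖x‖) * ‖x‖ := mul_le_mul_of_nonneg_right (A.le_opNorm x) (norm_nonneg _)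
      _ = _ := by ring
  refine ⟨fun x => Real.sqrt_nonneg _, fun y => Real.sqrt_nonneg _, ?_, ?_, ?_,
    ⟨Real.sqrt ‖u‖, Real.sqrt_nonneg _, bd u⟩, ⟨Real.sqrt ‖ui‖, Real.sqrt_nonneg _, bd ui⟩⟩
  · intro x y
    rw [← Real.sqrt_mul (h.psd x)]
    apply Real.le_sqrt_of_sq_le
    have := Psd.cs h.sym h.psd x (ui y)
    rw [← e1, e2] at this
    exact this
  · intro x c hc hh
    have h3 : ⟪x, u x⟫ ≤ c * Real.sqrt ⟪ui (u x), u x⟫ := hh (u x)
    have h4 : ⟪x, u x⟫ = ⟪u x, x⟫ := real_inner_comm _ _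
    rw [h2, h4] at h3
    have h5 := h.psd x
    by_cases h0 : Real.sqrt ⟪u x, x⟫ = 0
    · rw [h0]; exact hc
    · have h6 : 0 < Real.sqrt ⟪u x, x⟫ := lt_of_le_of_ne (Real.sqrt_nonneg _) (Ne.symm h0)
      nlinarith [Real.mul_self_sqrt h5]
  · intro y c hc hh
    have h3 : ⟪ui y, y⟫ ≤ c * Real.sqrt ⟪u (ui y), ui y⟫ := hh (ui y)
    rw [e2] at h3
    have h5 := nn2 y
    by_cases h0 : Real.sqrt ⟪ui y, y⟫ = 0
    · rw [h0]; exact hc
    · have h6 : 0 < Real.sqrt ⟪ui y, y⟫ := lt_of_le_of_ne (Real.sqrt_nonneg _) (Ne.symm h0)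
      nlinarith [Real.mul_self_sqrt h5]

lemma exists_gm [FiniteDimensional ℝ E] {u v : E →L[ℝ] E} (hu : IsPD u) (hv : IsPD v) :
    ∃ m, IsGm u v m := by
  obtain ⟨s, si, hs, hsi, hss, hssi, hsis⟩ := hu.exists_sqrt
  have injsi : ∀ x, x ≠ 0 → si x ≠ 0 := by
    intro x hx h0
    apply hx
    rw [← hssi x, h0, map_zero]
  have injs : ∀ x, x ≠ 0 → s x ≠ 0 := by
    intro x hx h0
    apply hx
    rw [← hsis x, h0, map_zero]
  have hc : IsPD (si.comp (v.comp si)) := by
    refine ⟨?_, ?_⟩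
    · intro x y
      show ⟪si (v (si x)), y⟫ = ⟪x, si (v (si y))⟫
      rw [hsi.sym, hv.sym, hsi.sym]
    · intro x hx
      show 0 < ⟪si (v (si x)), x⟫
      rw [hsi.sym]
      exact hv.pos _ (injsi x hx)
  obtain ⟨r, ri, hr, hri, hrr, hrri, hrir⟩ := hc.exists_sqrt
  have hrr' : ∀ x, r (r x) = si (v (si x)) := hrr
  have injr : ∀ x, x ≠ 0 → ri x ≠ 0 := by
    intro x hx h0
    apply hx
    rw [← hrri x, h0, map_zero]
  have ev : ∀ x, v x = s (r (r (s x))) := by
    intro x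
    rw [hrr', hssi, hsis]
  have eu : ∀ x, u x = s (s x) := fun x => (hss x).symm
  have hm : IsPD (s.comp (r.comp s)) := by
    refine ⟨?_, ?_⟩
    · intro x y
      show ⟪s (r (s x)), y⟫ = ⟪x, s (r (s y))⟫
      rw [hs.sym, hr.sym, hs.sym]
    · intro x hx
      show 0 < ⟪s (r (s x)), x⟫
      rw [hs.sym]
      exact hr.pos _ (injs x hx)
  refine ⟨s.comp (r.comp s), hm, ?_, ?_, ?_, ?_⟩
  · intro x y
    show 0 ≤ ⟪u x, x⟫ + 2 * ⟪s (r (s x)), y⟫ + ⟪v y, y⟫
    have e : ⟪u x, x⟫ + 2 * ⟪s (r (s x)), y⟫ + ⟪v y, y⟫ = ⟪s x + r (s y), s x + r (s y)⟫ := by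
      rw [eu, ev, hs.sym (s x) x, hs.sym (r (s x)) y, hs.sym (r (r (s y))) y, hr.sym (s x) (s y),
        hr.sym (r (s y)) (s y), inner_add_left, inner_add_right, inner_add_right,
        real_inner_comm (s x) (r (s y))]
      ring
    rw [e]
    exact real_inner_self_nonneg
  · intro x
    refine ⟨si (r (s x)), ?_, ?_⟩
    · show u (si (r (s x))) = s (r (s x))
      rw [eu, hssi]
    · show s (r (s (si (r (s x))))) = v x
      rw [hssi, ev]
  · intro x
    refine ⟨si (ri (s x)), ?_, ?_⟩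
    · show v (si (ri (s x))) = s (r (s x))
      rw [ev, hssi, hrri]
    · show s (r (s (si (ri (s x))))) = u x
      rw [hssi, hrri, eu]
  · intro U hU hUp hblk x
    -- inverse operators
    set ui := si.comp si with hui
    set vi := si.comp (ri.comp (ri.comp si)) with hvi
    set mi := si.comp (ri.comp si) with hmi
    have eui : ∀ x, ui x = si (si x) := fun _ => rfl
    have evi : ∀ x, vi x = si (ri (ri (si x))) := fun _ => rfl
    have emi : ∀ x, mi x = si (ri (si x)) := fun _ => rfl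
    have hp := dp_ellipsoid (ui := ui) hu (fun x => by rw [eui, eu, hssi, hssi])
      (fun x => by rw [eui, eu, hsis, hsis])
    have hq := dp_ellipsoid (ui := vi) hv
      (fun x => by rw [evi, ev, hssi, hrri, hrri, hssi])
      (fun x => by rw [evi, ev, hsis, hrir, hrir, hsis])
    have symui : Sym ui := by
      intro x y
      rw [eui, eui, hsi.sym, hsi.sym]
    have symvi : Sym vi := by
      intro x y
      rw [evi, evi, hsi.sym, hri.sym, hri.sym, hsi.sym]
    have symmi : Sym mi := by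
      intro x y
      rw [emi, emi, hsi.sym, hri.sym, hsi.sym]
    have psdui : Psd ui := by
      intro x
      rw [eui, hsi.sym]
      exact real_inner_self_nonneg
    have psdvi : Psd vi := by
      intro x
      rw [evi, hsi.sym, hri.sym]
      exact real_inner_self_nonneg
    have A : Adm (fun x => Real.sqrt ⟪u x, x⟫) (fun x => Real.sqrt ⟪v x, x⟫) u U v := by
      refine ⟨hu.sym, hU, hv.sym, hUp, hblk, fun x => ?_, fun x => ?_⟩
      · rw [Real.sq_sqrt (hu.psd x)]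
      · rw [Real.sq_sqrt (hv.psd x)]
    have B : Adm (fun x => Real.sqrt ⟪ui x, x⟫) (fun x => Real.sqrt ⟪vi x, x⟫) ui mi vi := by
      refine ⟨symui, symmi, symvi, ?_, ?_, fun x => ?_, fun x => ?_⟩
      · intro x
        rw [emi, hsi.sym]
        exact hri.psd _
      · intro x y
        have e : ⟪ui x, x⟫ + 2 * ⟪mi x, y⟫ + ⟪vi y, y⟫
            = ⟪si x + ri (si y), si x + ri (si y)⟫ := by
          rw [eui, evi, emi, hsi.sym (si x) x, hsi.sym (ri (si x)) y,
            hsi.sym (ri (ri (si y))) y, hri.sym (si x) (si y),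
            hri.sym (ri (si y)) (si y), inner_add_left, inner_add_right, inner_add_right,
            real_inner_comm (si x) (ri (si y))]
          ring
        rw [e]
        exact real_inner_self_nonneg
      · rw [Real.sq_sqrt (psdui x)]
      · rw [Real.sq_sqrt (psdvi x)]
    have hlax := lax hp hq A B (s (r (s x)))
    have hmix : mi (s (r (s x))) = x := by
      rw [emi, hsis, hrir, hsis]
    rw [hmix] at hlax
    calc ⟪U x, x⟫ ≤ ⟪x, s (r (s x))⟫ := hlax
      _ = ⟪s (r (s x)), x⟫ := real_inner_comm _ _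

end Pool.Agent.H34.Env
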