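import Pool.Agent.H34.Env.Decomp

open scoped RealInnerProductSpace Topology
open Filter

namespace Pool.Agent.H34.Env

variable {E : Type*} [NormedAddCommGroup E] [InnerProductSpace ℝ E]

variable {p pd q qd : E → ℝ} {u U v a w b : E →L[ℝ] E}

/-- The square of the gauge of the upper envelope. -/
noncomputable def Nsq (p q : E → ℝ) (x : E) : ℝ :=
  sSup ((fun t : T3 E => ⟪t.2.1 x, x⟫) '' AdmSet p q)

lemma admSet_nonempty (p q : E → ℝ) : (AdmSet p q).Nonempty := ⟨(0, 0, 0), adm_zero p q⟩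

lemma continuous_form (x : E) : Continuous (fun t : T3 E => ⟪t.2.1 x, x⟫) := by fun_prop

section fd

variable [FiniteDimensional ℝ E]

lemma le_Nsq (hp : DP p pd) (hq : DP q qd) (x : E) {t : T3 E} (ht : t ∈ AdmSet p q) :
    ⟪t.2.1 x, x⟫ ≤ Nsq p q x :=
  le_csSup ((isCompact_admSet hp hq).image (continuous_form x)).bddAbove ⟨t, ht, rfl⟩

omit [FiniteDimensional ℝ E] in
lemma Nsq_le {x : E} {c : ℝ} (h : ∀ t ∈ AdmSet p q, ⟪t.2.1 x, x⟫ ≤ c) : Nsq p q x ≤ c := by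
  refine csSup_le ((admSet_nonempty p q).image _) ?_
  rintro _ ⟨t, ht, rfl⟩
  exact h t ht

lemma exists_Nsq (hp : DP p pd) (hq : DP q qd) (x : E) :
    ∃ t ∈ AdmSet p q, ⟪t.2.1 x, x⟫ = Nsq p q x := by
  obtain ⟨t, ht, hmax⟩ := (isCompact_admSet hp hq).exists_isMaxOn (admSet_nonempty p q)
    (continuous_form x).continuousOn
  exact ⟨t, ht, le_antisymm (le_Nsq hp hq x ht) (Nsq_le (fun s hs => hmax hs))⟩

lemma Nsq_nonneg (hp : DP p pd) (hq : DP q qd) (x : E) : 0 ≤ Nsq p q x := by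
  have := le_Nsq hp hq x (t := ((0, 0, 0) : T3 E)) (adm_zero p q)
  simpa using this

omit [FiniteDimensional ℝ E] in
/-- A scalar admissible triple. -/
lemma adm_scalar {c1 c2 : ℝ} (h1 : 0 ≤ c1) (h2 : 0 ≤ c2) (hp : ∀ x, c1 * ‖x‖ ≤ p x)
    (hq : ∀ x, c2 * ‖x‖ ≤ q x) :
    Adm p q ((c1 ^ 2) • ContinuousLinearMap.id ℝ E) ((c1 * c2) • ContinuousLinearMap.id ℝ E)
      ((c2 ^ 2) • ContinuousLinearMap.id ℝ E) := by
  have sym : ∀ c : ℝ, Sym (c • ContinuousLinearMap.id ℝ E) := by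
    intro c x y
    simp [inner_smul_left, inner_smul_right]
  refine ⟨sym _, sym _, sym _, ?_, ?_, ?_, ?_⟩
  · intro x
    simp only [smul_apply, ContinuousLinearMap.id_apply, inner_smul_left, RCLike.conj_to_real]
    exact mul_nonneg (mul_nonneg h1 h2) real_inner_self_nonneg
  · intro x y
    simp only [smul_apply, ContinuousLinearMap.id_apply, inner_smul_left, RCLike.conj_to_real]
    have h3 : 0 ≤ ⟪c1 • x + c2 • y, c1 • x + c2 • y⟫ := real_inner_self_nonneg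
    simp only [inner_add_left, inner_add_right, inner_smul_left, inner_smul_right,
      RCLike.conj_to_real] at h3
    rw [real_inner_comm x y] at h3
    nlinarith
  · intro x
    simp only [smul_apply, ContinuousLinearMap.id_apply, inner_smul_left, RCLike.conj_to_real]
    rw [real_inner_self_eq_norm_sq]
    calc c1 ^ 2 * ‖x‖ ^ 2 = (c1 * ‖x‖) ^ 2 := by ring
      _ ≤ p x ^ 2 := pow_le_pow_left₀ (by positivity) (hp x) 2
  · intro x
    simp only [smul_apply, ContinuousLinearMap.id_apply, inner_smul_left, RCLike.conj_to_real]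
    rw [real_inner_self_eq_norm_sq]
    calc c2 ^ 2 * ‖x‖ ^ 2 = (c2 * ‖x‖) ^ 2 := by ring
      _ ≤ q x ^ 2 := pow_le_pow_left₀ (by positivity) (hq x) 2

lemma Nsq_pos (hp : DP p pd) (hq : DP q qd) {x : E} (hx : x ≠ 0) : 0 < Nsq p q x := by
  obtain ⟨c1, h1, l1⟩ := hp.lower
  obtain ⟨c2, h2, l2⟩ := hq.lower
  have h3 := le_Nsq hp hq x (t := (_, _, _)) (adm_scalar h1.le h2.le l1 l2)
  have h4 : 0 < ⟪((c1 * c2) • ContinuousLinearMap.id ℝ E) x, x⟫ := by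
    simp only [smul_apply, ContinuousLinearMap.id_apply, inner_smul_left, RCLike.conj_to_real]
    rw [real_inner_self_eq_norm_sq]
    have := norm_pos_iff.mpr hx
    positivity
  exact h4.trans_le h3

omit [FiniteDimensional ℝ E] in
lemma Nsq_swap (p q : E → ℝ) (x : E) : Nsq p q x = Nsq q p x := by
  have key : ∀ p q : E → ℝ, (fun t : T3 E => ⟪t.2.1 x, x⟫) '' AdmSet p q
      ⊆ (fun t : T3 E => ⟪t.2.1 x, x⟫) '' AdmSet q p := by
    rintro p q _ ⟨t, ht, rfl⟩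
    have ht' : Adm p q t.1 t.2.1 t.2.2 := ht
    exact ⟨(t.2.2, t.2.1, t.1), ht'.swap, rfl⟩
  unfold Nsq
  rw [Set.Subset.antisymm (key p q) (key q p)]

lemma Nsq_smul (hp : DP p pd) (hq : DP q qd) (s : ℝ) (x : E) :
    Nsq p q (s • x) = s ^ 2 * Nsq p q x := by
  have e : ∀ t : T3 E, ⟪t.2.1 (s • x), s • x⟫ = s ^ 2 * ⟪t.2.1 x, x⟫ := by
    intro t
    simp only [map_smul, inner_smul_left, inner_smul_right, RCLike.conj_to_real]
    ring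
  apply le_antisymm
  · refine Nsq_le (fun t ht => ?_)
    rw [e]
    exact mul_le_mul_of_nonneg_left (le_Nsq hp hq x ht) (sq_nonneg s)
  · obtain ⟨t, ht, h⟩ := exists_Nsq hp hq x
    rw [← h, ← e]
    exact le_Nsq hp hq _ ht

omit [FiniteDimensional ℝ E] in
lemma hyp_step {x z k : E} {n2 τ : ℝ} (hn2 : 0 < n2) (hτ : 0 < τ)
    (hxz : ⟪x, z⟫ = n2) (hN : ∀ t ∈ AdmSet p q, ⟪t.2.1 x, x⟫ ≤ n2)
    (h1 : ⟪x + τ • k, z⟫ ^ 2 ≤ Nsq p q (x + τ • k) * n2) {t : T3 E} (ht : t ∈ AdmSet p q)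
    (hopt : ⟪t.2.1 (x + τ • k), x + τ • k⟫ = Nsq p q (x + τ • k)) :
    ⟪z, k⟫ ≤ ⟪t.2.1 x, k⟫ + (τ / 2) * ⟪t.2.1 k, k⟫ ∧
    n2 + 2 * τ * ⟪z, k⟫ ≤ ⟪t.2.1 x, x⟫ + 2 * τ * ⟪t.2.1 x, k⟫ + τ ^ 2 * ⟪t.2.1 k, k⟫ := by
  have hA : Adm p q t.1 t.2.1 t.2.2 := ht
  have h2 := hN t ht
  generalize t.2.1 = W at *
  have e1 : ⟪W (x + τ • k), x + τ • k⟫ = ⟪W x, x⟫ + 2 * τ * ⟪W x, k⟫ + τ ^ 2 * ⟪W k, k⟫ := by
    simp only [map_add, map_smul, inner_add_left, inner_add_right, inner_smul_left,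
      inner_smul_right, RCLike.conj_to_real]
    rw [hA.sU k x, real_inner_comm (W x) k]
    ring
  have e2 : ⟪x + τ • k, z⟫ = n2 + τ * ⟪z, k⟫ := by
    rw [inner_add_left, inner_smul_left, RCLike.conj_to_real, hxz, real_inner_comm]
  rw [← hopt, e1, e2] at h1
  have h3 : n2 * (n2 + 2 * τ * ⟪z, k⟫)
      ≤ n2 * (⟪W x, x⟫ + 2 * τ * ⟪W x, k⟫ + τ ^ 2 * ⟪W k, k⟫) := by
    nlinarith [sq_nonneg (τ * ⟪z, k⟫)]
  have h4 := le_of_mul_le_mul_left h3 hn2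
  refine ⟨?_, h4⟩
  have h5 : 2 * τ * ⟪z, k⟫ ≤ 2 * τ * (⟪W x, k⟫ + (τ / 2) * ⟪W k, k⟫) := by nlinarith
  exact le_of_mul_le_mul_left h5 (by positivity)

/-- The inequality between the envelopes gives data at every dual point. -/
lemma dataEx_of_hyp (hp : DP p pd) (hq : DP q qd)
    (hyp : ∀ x z, 0 ≤ ⟪x, z⟫ → ⟪x, z⟫ ^ 2 ≤ Nsq p q x * Nsq pd qd z) :
    DataEx p pd q qd := by
  have : CompleteSpace E := FiniteDimensional.complete ℝ E
  intro z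
  by_cases hz : z = 0
  · refine ⟨((0, 0, 0), (0, 0, 0)), adm_zero p q, adm_zero pd qd, ?_⟩
    rw [hz]; simp
  obtain ⟨s, hs, hsopt⟩ := exists_Nsq hp.symm hq.symm z
  have hB : Adm pd qd s.1 s.2.1 s.2.2 := hs
  set n2 := Nsq pd qd z with hn2def
  have hn2 : 0 < n2 := Nsq_pos hp.symm hq.symm hz
  set x := s.2.1 z with hx
  have hxz : ⟪x, z⟫ = n2 := hsopt
  have hN : ∀ t ∈ AdmSet p q, ⟪t.2.1 x, x⟫ ≤ n2 := by
    intro t ht
    have hA : Adm p q t.1 t.2.1 t.2.2 := ht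
    have := lax hp hq hA hB z
    rw [← hxz]
    exact this
  have hNx : Nsq p q x ≤ n2 := Nsq_le hN
  -- the optimal set
  set C : Set (T3 E) := AdmSet p q ∩ {t | ⟪t.2.1 x, x⟫ = n2} with hC
  have hCc : IsCompact C :=
    (isCompact_admSet hp hq).inter_right (isClosed_eq (continuous_form x) continuous_const)
  have hCv : Convex ℝ C := by
    refine (convex_admSet p q).inter ?_
    intro t ht s' hs' α β hα hβ hαβ
    simp only [Set.mem_setOf_eq] at ht hs' ⊢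
    show ⟪(α • t.2.1 + β • s'.2.1) x, x⟫ = n2
    simp only [add_apply, smul_apply, inner_add_left, inner_smul_left, RCLike.conj_to_real]
    rw [ht, hs', ← add_mul, hαβ, one_mul]
  set Φ : T3 E →L[ℝ] E := (ContinuousLinearMap.apply ℝ E x).comp
    ((ContinuousLinearMap.fst ℝ _ _).comp (ContinuousLinearMap.snd ℝ _ _)) with hΦ
  have hΦa : ∀ t, Φ t = t.2.1 x := fun t => rfl
  have key : ∀ k : E, ∃ t ∈ C, ⟪z, k⟫ ≤ ⟪Φ t, k⟫ := by
    intro k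
    obtain ⟨δ, hδ, hδk⟩ : ∃ δ : ℝ, 0 < δ ∧ ∀ τ, 0 < τ → τ ≤ δ → 0 ≤ ⟪x + τ • k, z⟫ := by
      refine ⟨n2 / (|⟪k, z⟫| + 1), by positivity, fun τ h0 h1 => ?_⟩
      rw [inner_add_left, inner_smul_left, RCLike.conj_to_real, hxz]
      rw [le_div_iff₀ (by positivity)] at h1
      have := neg_abs_le ⟪k, z⟫
      nlinarith [abs_nonneg ⟪k, z⟫]
    obtain ⟨τ, hτpos, hτle, hτlim⟩ : ∃ τ : ℕ → ℝ, (∀ n, 0 < τ n) ∧ (∀ n, τ n ≤ δ) ∧
        Tendsto τ atTop (𝓝 0) := by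
      refine ⟨fun n => δ * (1 / ((n : ℝ) + 1)), fun n => by positivity, fun n => ?_, ?_⟩
      · have h1 : (1 / ((n : ℝ) + 1)) ≤ 1 := by
          rw [div_le_one (by positivity)]
          have : (0 : ℝ) ≤ n := Nat.cast_nonneg n
          linarith
        calc δ * (1 / ((n : ℝ) + 1)) ≤ δ * 1 := mul_le_mul_of_nonneg_left h1 hδ.le
          _ = δ := mul_one δ
      · have := (tendsto_one_div_add_atTop_nhds_zero_nat (𝕜 := ℝ)).const_mul δ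
        simpa using this
    choose t ht hopt using fun n => exists_Nsq hp hq (x + τ n • k)
    obtain ⟨D, hD, φ, hφ, hlim⟩ := (isCompact_admSet hp hq).tendsto_subseq ht
    have hτφ : Tendsto (fun n => τ (φ n)) atTop (𝓝 0) := hτlim.comp hφ.tendsto_atTop
    have hstep := fun n => hyp_step hn2 (hτpos (φ n)) hxz hN
      (hyp _ _ (hδk _ (hτpos (φ n)) (hτle (φ n)))) (ht (φ n)) (hopt (φ n))
    have lim1 : ∀ y y' : E, Tendsto (fun n => ⟪(t (φ n)).2.1 y, y'⟫) atTop (𝓝 ⟪D.2.1 y, y'⟫) := by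
      intro y y'
      have hc : Continuous (fun r : T3 E => ⟪r.2.1 y, y'⟫) := by fun_prop
      exact (hc.tendsto D).comp hlim
    have hle1 : ⟪z, k⟫ ≤ ⟪D.2.1 x, k⟫ := by
      have h1 : Tendsto (fun n => ⟪(t (φ n)).2.1 x, k⟫ + (τ (φ n) / 2) * ⟪(t (φ n)).2.1 k, k⟫)
          atTop (𝓝 (⟪D.2.1 x, k⟫ + (0 / 2) * ⟪D.2.1 k, k⟫)) :=
        (lim1 x k).add ((hτφ.div_const 2).mul (lim1 k k))
      have h2 := ge_of_tendsto' h1 (fun n => (hstep n).1)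
      simpa using h2
    have hle2 : n2 ≤ ⟪D.2.1 x, x⟫ := by
      have h1 : Tendsto (fun n => ⟪(t (φ n)).2.1 x, x⟫ + 2 * τ (φ n) * ⟪(t (φ n)).2.1 x, k⟫
          + τ (φ n) ^ 2 * ⟪(t (φ n)).2.1 k, k⟫)
          atTop (𝓝 (⟪D.2.1 x, x⟫ + 2 * 0 * ⟪D.2.1 x, k⟫ + 0 ^ 2 * ⟪D.2.1 k, k⟫)) :=
        ((lim1 x x).add ((hτφ.const_mul 2).mul (lim1 x k))).add ((hτφ.pow 2).mul (lim1 k k))
      have h2 : Tendsto (fun n => n2 + 2 * τ (φ n) * ⟪z, k⟫) atTop (𝓝 (n2 + 2 * 0 * ⟪z, k⟫)) :=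
        tendsto_const_nhds.add ((hτφ.const_mul 2).mul_const _)
      have h3 := le_of_tendsto_of_tendsto' h2 h1 (fun n => (hstep n).2)
      simpa using h3
    refine ⟨D, ⟨hD, le_antisymm (hN D hD) hle2⟩, ?_⟩
    rw [hΦa]
    exact hle1
  obtain ⟨t, ht, htz⟩ := mem_image_of_forall_le hCc hCv Φ z key
  exact ⟨(t, s), ht.1, hs, htz⟩

lemma dataEx_of_hyp' (hp : DP p pd) (hq : DP q qd)
    (hyp : ∀ x z, 0 ≤ ⟪x, z⟫ → ⟪x, z⟫ ^ 2 ≤ Nsq p q x * Nsq pd qd z) :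
    DataEx qd q pd p := by
  refine dataEx_of_hyp hq.symm hp.symm (fun x z h => ?_)
  rw [real_inner_comm, Nsq_swap qd pd, Nsq_swap q p, mul_comm]
  refine hyp z x ?_
  rwa [real_inner_comm]

/-- The main abstract theorem. -/
theorem main_abstract.{uu} {E : Type uu} [NormedAddCommGroup E] [InnerProductSpace ℝ E]
    [FiniteDimensional ℝ E] {p pd q qd : E → ℝ} (hp : DP p pd) (hq : DP q qd)
    (hyp : ∀ x z, 0 ≤ ⟪x, z⟫ → ⟪x, z⟫ ^ 2 ≤ Nsq p q x * Nsq pd qd z) :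
    (∀ x, p (-x) = p x) ∧ ∃ (k : ℕ) (P : Fin k → E →L[ℝ] E) (μ : Fin k → ℝ), (∀ i, 0 < μ i) ∧
      (∀ i j, i ≠ j → ∀ x, P i (P j x) = 0) ∧ (∀ i x, P i (P i x) = P i x) ∧
      (∀ x, ∑ i, P i x = x) ∧ (∀ x, p x ^ 2 = ∑ i, p (P i x) ^ 2) ∧
      (∀ x, q x ^ 2 = ∑ i, μ i * p (P i x) ^ 2) := by
  have h1 := dataEx_of_hyp hp hq hyp
  have h2 := dataEx_of_hyp' hp hq hyp
  refine ⟨fun x => ?_, decomp _ E rfl p pd q qd hp hq h1 h2⟩
  have h3 := (h2.smul_sq hq.symm hp.symm (-1) x).2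
  have h4 : p (-x) ^ 2 = p x ^ 2 := by
    simpa using h3
  have h5 : |p (-x)| = |p x| := by rw [← sq_eq_sq_iff_abs_eq_abs]; exact h4
  rwa [abs_of_nonneg (hp.nn _), abs_of_nonneg (hp.nn _)] at h5

end fd

end Pool.Agent.H34.Env
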