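import Pool.Agent.H34.Env.Back

open scoped RealInnerProductSpace Topology DirectSum
open Filter

namespace Pool.Agent.H34.Env

variable {E : Type*} [NormedAddCommGroup E] [InnerProductSpace ℝ E]

/-- The body `K` is symmetric about the origin and the space is a direct sum of subspaces `V i`
such that `K` and `T` are the quadratic sums of their sections by the `V i`, the section of `T`
being the multiple `lam i` of the section of `K`. -/
def Decomposes (K T : Set E) : Prop :=
  (∀ x ∈ K, -x ∈ K) ∧ ∃ (k : ℕ) (V : Fin k → Submodule ℝ E) (lam : Fin k → ℝ),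
    DirectSum.IsInternal V ∧ (∀ i, 0 < lam i) ∧
    ∀ x : (i : Fin k) → V i,
      gauge K (∑ i, (x i : E)) ^ 2 = ∑ i, gauge K (x i : E) ^ 2 ∧
      gauge T (∑ i, (x i : E)) ^ 2 = ∑ i, (gauge K (x i : E) / lam i) ^ 2

lemma coe_eq_sum {k : ℕ} (V : Fin k → Submodule ℝ E) (x : ⨁ i, V i) :
    DirectSum.coeAddMonoidHom V x = ∑ i, (x i : E) := by
  classical
  rw [DirectSum.coeAddMonoidHom_eq_dfinsuppSum]
  exact DFinsupp.sum_eq_sum_fintype _ (fun i => by simp)

lemma isInternal_range {k : ℕ} (P : Fin k → E →L[ℝ] E)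
    (hPP : ∀ i j, i ≠ j → ∀ x, P i (P j x) = 0) (hP : ∀ i x, P i (P i x) = P i x)
    (hsum : ∀ x, ∑ i, P i x = x) :
    DirectSum.IsInternal (fun i => LinearMap.range (P i).toLinearMap) := by
  classical
  have hproj : ∀ (x : ⨁ i, LinearMap.range (P i).toLinearMap) (j : Fin k),
      P j (∑ i, (x i : E)) = (x j : E) := by
    intro x j
    rw [map_sum, Finset.sum_eq_single j]
    · obtain ⟨y, hy⟩ := (x j).2
      have hy' : P j y = (x j : E) := hy
      rw [← hy', hP]
    · intro i _ hij
      obtain ⟨y, hy⟩ := (x i).2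
      have hy' : P i y = (x i : E) := hy
      rw [← hy', hPP j i (Ne.symm hij)]
    · intro h; exact absurd (Finset.mem_univ j) h
  constructor
  · rw [injective_iff_map_eq_zero]
    intro x hx
    rw [coe_eq_sum] at hx
    ext j
    have := hproj x j
    rw [hx, map_zero] at this
    rw [← this]
    rfl
  · intro y
    refine ⟨DirectSum.mk _ Finset.univ (fun i => ⟨P i y, ⟨y, rfl⟩⟩), ?_⟩
    rw [coe_eq_sum]
    conv_rhs => rw [← hsum y]
    refine Finset.sum_congr rfl (fun i _ => ?_)
    rw [DirectSum.mk_apply_of_mem (Finset.mem_univ i)]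

lemma exists_proj {k : ℕ} [FiniteDimensional ℝ E] (V : Fin k → Submodule ℝ E)
    (hV : DirectSum.IsInternal V) :
    ∃ P : Fin k → E →L[ℝ] E, (∀ i x, P i x ∈ V i) ∧ (∀ i j, i ≠ j → ∀ x, P i (P j x) = 0) ∧
      (∀ i x, P i (P i x) = P i x) ∧ (∀ x, ∑ i, P i x = x) := by
  classical
  set e : (⨁ i, V i) ≃ₗ[ℝ] E := LinearEquiv.ofBijective (DirectSum.coeLinearMap V) hV with he
  have he' : ∀ x : ⨁ i, V i, e x = ∑ i, (x i : E) := fun x => coe_eq_sum V x
  set P : Fin k → E →L[ℝ] E := fun i => LinearMap.toContinuousLinearMap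
    ((V i).subtype ∘ₗ DirectSum.component ℝ (Fin k) (fun i => V i) i ∘ₗ e.symm.toLinearMap) with hP
  have hPa : ∀ i x, P i x = ((e.symm x) i : E) := fun i x => rfl
  have hlof : ∀ (j : Fin k) (y : V j), e (DirectSum.lof ℝ (Fin k) (fun i => V i) j y) = (y : E) :=
    fun j y => DirectSum.coeLinearMap_lof V j y
  have hsymm : ∀ (j : Fin k) (y : V j),
      e.symm (y : E) = DirectSum.lof ℝ (Fin k) (fun i => V i) j y := by
    intro j y
    rw [← hlof j y, LinearEquiv.symm_apply_apply]
  refine ⟨P, fun i x => ?_, fun i j hij x => ?_, fun i x => ?_, fun x => ?_⟩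
  · rw [hPa]; exact Submodule.coe_mem _
  · rw [hPa i, hPa j, hsymm]
    have : (DirectSum.lof ℝ (Fin k) (fun i => V i) j (e.symm x j)) i = 0 := by
      rw [DirectSum.lof_eq_of, DirectSum.of_eq_of_ne _ _ _ hij]
    rw [this]
    rfl
  · rw [hPa i, hPa i, hsymm]
    have : (DirectSum.lof ℝ (Fin k) (fun i => V i) i (e.symm x i)) i = e.symm x i := by
      rw [DirectSum.lof_eq_of, DirectSum.of_eq_same]
    rw [this]
  · have := he' (e.symm x)
    rw [LinearEquiv.apply_symm_apply] at this
    simp only [hPa]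
    exact this.symm

variable [FiniteDimensional ℝ E] {K T : Set E}

/-- Necessity. -/
lemma decomposes_of_eq (hK : IsBody K) (hT : IsBody T) (h : upperEnv K T ⊆ lowerEnv K T) :
    Decomposes K T := by
  obtain ⟨hsym, k, P, μ, hμ, hPP, hP, hsum, h1, h2⟩ :=
    main_abstract hK.dp hT.dp (hyp_of_eq hK hT h)
  refine ⟨fun x hx => ?_, k, fun i => LinearMap.range (P i).toLinearMap,
    fun i => (Real.sqrt (μ i))⁻¹, isInternal_range P hPP hP hsum,
    fun i => inv_pos.mpr (Real.sqrt_pos.mpr (hμ i)), fun x => ?_⟩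
  · rw [← hK.gauge_le_one_iff, hsym, hK.gauge_le_one_iff]
    exact hx
  · have hproj : ∀ j : Fin k, P j (∑ i, (x i : E)) = (x j : E) := by
      intro j
      rw [map_sum, Finset.sum_eq_single j]
      · obtain ⟨y, hy⟩ := (x j).2
        have hy' : P j y = (x j : E) := hy
        rw [← hy', hP]
      · intro i _ hij
        obtain ⟨y, hy⟩ := (x i).2
        have hy' : P i y = (x i : E) := hy
        rw [← hy', hPP j i (Ne.symm hij)]
      · intro h; exact absurd (Finset.mem_univ j) h
    constructor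
    · rw [h1]
      exact Finset.sum_congr rfl (fun i _ => by rw [hproj])
    · rw [h2]
      refine Finset.sum_congr rfl (fun i _ => ?_)
      rw [hproj, div_inv_eq_mul, mul_pow, Real.sq_sqrt (hμ i).le]
      ring

/-- Sufficiency. -/
lemma eq_of_decomposes (hK : IsBody K) (hT : IsBody T) (h : Decomposes K T) :
    upperEnv K T ⊆ lowerEnv K T := by
  obtain ⟨hsym, k, V, lam, hV, hlam, hx⟩ := h
  obtain ⟨P, hPV, hPP, hP, hsum⟩ := exists_proj V hV
  have hsym' : ∀ x, gauge K (-x) = gauge K x := fun x => gauge_neg hsym x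
  intro x hxu z hz
  rw [upperEnv_eq hK hT] at hxu
  rw [upperEnv_eq hK.polar hT.polar] at hz
  have n1 : Nsq (gauge K) (gauge T) x ≤ 1 := hxu
  have n2 : Nsq (gauge (polar K)) (gauge (polar T)) z ≤ 1 := hz
  have key := back_abstract hK.dp hT.dp hsym' P (fun i => ((lam i)⁻¹) ^ 2)
    (fun i => pow_pos (inv_pos.mpr (hlam i)) 2) hPP hP hsum
    (fun y => by
      have := (hx (fun i => ⟨P i y, hPV i y⟩)).1
      simp only [hsum] at this
      exact this)
    (fun y => by
      have := (hx (fun i => ⟨P i y, hPV i y⟩)).2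
      simp only [hsum] at this
      rw [this]
      refine Finset.sum_congr rfl (fun i _ => ?_)
      rw [div_eq_mul_inv, mul_pow]
      ring) x z
  rw [real_inner_comm]
  linarith

/-- The classification. -/
theorem classification (hK : IsBody K) (hT : IsBody T) :
    (lowerEnv K T = geomMean K T ∧ geomMean K T = upperEnv K T) ↔ Decomposes K T := by
  constructor
  · rintro ⟨h1, h2⟩
    exact decomposes_of_eq hK hT (by rw [h1, h2])
  · intro h
    have h0 := eq_of_decomposes hK hT h
    have h1 := lowerEnv_subset_geomMean hK hT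
    have h2 : geomMean K T ⊆ upperEnv K T := geomMean_subset_upperEnv
    exact ⟨Set.Subset.antisymm h1 (h2.trans h0), Set.Subset.antisymm h2 (h0.trans h1)⟩

end Pool.Agent.H34.Env
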