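import Pool.Agent.H34.Env.DataSet

open scoped RealInnerProductSpace Topology
open Filter

namespace Pool.Agent.H34.Env

variable {E : Type*} [NormedAddCommGroup E] [InnerProductSpace ℝ E]

/-- The fixed space of `w U`. -/
def Hs (U w : E →L[ℝ] E) : Submodule ℝ E where
  carrier := {x | w (U x) = x}
  add_mem' := by
    intro x y hx hy
    simp only [Set.mem_setOf_eq] at *
    rw [map_add, map_add, hx, hy]
  zero_mem' := by simp
  smul_mem' := by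
    intro c x hx
    simp only [Set.mem_setOf_eq] at *
    rw [map_smul, map_smul, hx]

lemma mem_Hs {U w : E →L[ℝ] E} {x : E} : x ∈ Hs U w ↔ w (U x) = x := Iff.rfl

variable {p pd q qd : E → ℝ} {u U v a w b : E →L[ℝ] E} {u' U' v' a' w' b' : E →L[ℝ] E}

/-- A full data set. -/
structure Dt (p pd q qd : E → ℝ) (u U v a w b : E →L[ℝ] E) : Prop where
  hp : DP p pd
  hq : DP q qd
  A : Adm p q u U v
  B : Adm pd qd a w b

namespace Dt

lemma rel (h : Dt p pd q qd u U v a w b) {x : E} (hx : x ∈ Hs U w) :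
    Rel p pd q qd u U v a w b x := Env.rel h.hp h.hq h.A h.B hx

lemma Sa_mem (h : Dt p pd q qd u U v a w b) {x : E} (hx : x ∈ Hs U w) :
    a (U x) ∈ Hs U w := by
  have r := h.rel hx
  rw [mem_Hs, r.Uay, r.wvx]

lemma Sb_mem (h : Dt p pd q qd u U v a w b) {x : E} (hx : x ∈ Hs U w) :
    b (U x) ∈ Hs U w := by
  have r := h.rel hx
  rw [mem_Hs, r.Uby, r.wux]

lemma SaSb (h : Dt p pd q qd u U v a w b) {x : E} (hx : x ∈ Hs U w) :
    a (U (b (U x))) = x := by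
  have r := h.rel hx
  rw [r.Uby, r.aux]

lemma SbSa (h : Dt p pd q qd u U v a w b) {x : E} (hx : x ∈ Hs U w) :
    b (U (a (U x))) = x := by
  have r := h.rel hx
  rw [r.Uay, r.bvx]

/-- `a U` on the fixed space. -/
noncomputable def Sa (h : Dt p pd q qd u U v a w b) : Hs U w →L[ℝ] Hs U w :=
  (a.comp U).restrict (fun _ hx => h.Sa_mem hx)

/-- `b U` on the fixed space. -/
noncomputable def Sb (h : Dt p pd q qd u U v a w b) : Hs U w →L[ℝ] Hs U w :=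
  (b.comp U).restrict (fun _ hx => h.Sb_mem hx)

lemma Sa_coe (h : Dt p pd q qd u U v a w b) (x : Hs U w) : (h.Sa x : E) = a (U x) := rfl
lemma Sb_coe (h : Dt p pd q qd u U v a w b) (x : Hs U w) : (h.Sb x : E) = b (U x) := rfl

lemma Sa_Sb (h : Dt p pd q qd u U v a w b) (x : Hs U w) : h.Sa (h.Sb x) = x :=
  Subtype.ext (h.SaSb x.2)

lemma Sb_Sa (h : Dt p pd q qd u U v a w b) (x : Hs U w) : h.Sb (h.Sa x) = x :=
  Subtype.ext (h.SbSa x.2)

/-- The form `⟪U x, y⟫`. -/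
def Bf (_ : Dt p pd q qd u U v a w b) (x y : Hs U w) : ℝ := ⟪U x, (y : E)⟫

lemma Bf_comm (h : Dt p pd q qd u U v a w b) (x y : Hs U w) : h.Bf x y = h.Bf y x := by
  unfold Bf
  rw [h.A.sU, real_inner_comm]

lemma Bf_add (h : Dt p pd q qd u U v a w b) (x y z : Hs U w) :
    h.Bf (x + y) z = h.Bf x z + h.Bf y z := by
  simp [Bf, inner_add_left]

lemma Bf_sub (h : Dt p pd q qd u U v a w b) (x y z : Hs U w) :
    h.Bf (x - y) z = h.Bf x z - h.Bf y z := by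
  simp [Bf, inner_sub_left]

lemma Bf_smul (h : Dt p pd q qd u U v a w b) (c : ℝ) (x z : Hs U w) :
    h.Bf (c • x) z = c * h.Bf x z := by
  simp [Bf, inner_smul_left]

lemma Bf_add_right (h : Dt p pd q qd u U v a w b) (x y z : Hs U w) :
    h.Bf x (y + z) = h.Bf x y + h.Bf x z := by
  simp [Bf, inner_add_right]

lemma Bf_sub_right (h : Dt p pd q qd u U v a w b) (x y z : Hs U w) :
    h.Bf x (y - z) = h.Bf x y - h.Bf x z := by
  simp [Bf, inner_sub_right]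

lemma Bf_smul_right (h : Dt p pd q qd u U v a w b) (c : ℝ) (x z : Hs U w) :
    h.Bf x (c • z) = c * h.Bf x z := by
  simp [Bf, inner_smul_right]

lemma Bf_Sa (h : Dt p pd q qd u U v a w b) (x y : Hs U w) :
    h.Bf (h.Sa x) y = h.Bf x (h.Sa y) := by
  unfold Bf
  rw [h.Sa_coe, h.Sa_coe, h.A.sU, h.B.su]

lemma Bf_Sb (h : Dt p pd q qd u U v a w b) (x y : Hs U w) :
    h.Bf (h.Sb x) y = h.Bf x (h.Sb y) := by
  unfold Bf
  rw [h.Sb_coe, h.Sb_coe, h.A.sU, h.B.sv]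

lemma p_sq (h : Dt p pd q qd u U v a w b) (x : Hs U w) : p x ^ 2 = h.Bf (h.Sb x) x := by
  have r := h.rel x.2
  unfold Bf
  rw [h.Sb_coe, r.Uby, r.px]

lemma q_sq (h : Dt p pd q qd u U v a w b) (x : Hs U w) : q x ^ 2 = h.Bf (h.Sa x) x := by
  have r := h.rel x.2
  unfold Bf
  rw [h.Sa_coe, r.Uay, r.qx]

lemma Bf_self_nonneg (h : Dt p pd q qd u U v a w b) (x : Hs U w) : 0 ≤ h.Bf x x := h.A.pU x

lemma Bf_self_pos (h : Dt p pd q qd u U v a w b) {x : Hs U w} (hx : x ≠ 0) : 0 < h.Bf x x := by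
  rcases (h.Bf_self_nonneg x).eq_or_lt with h0 | h0
  · exfalso
    have h1 : U (x : E) = 0 := Psd.eq_zero h.A.sU h.A.pU (le_of_eq h0.symm)
    have h2 := mem_Hs.mp x.2
    rw [h1, map_zero] at h2
    exact hx (Subtype.ext h2.symm)
  · exact h0

/-- The operator `κ S⁻¹ + ε S`. -/
noncomputable def R (h : Dt p pd q qd u U v a w b) (κ ε : ℝ) : Hs U w →L[ℝ] Hs U w :=
  κ • h.Sb + ε • h.Sa

lemma R_apply (h : Dt p pd q qd u U v a w b) (κ ε : ℝ) (x : Hs U w) :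
    h.R κ ε x = κ • h.Sb x + ε • h.Sa x := by
  simp [R]

lemma R_form (h : Dt p pd q qd u U v a w b) (κ ε : ℝ) (x : Hs U w) :
    h.Bf (h.R κ ε x) x = κ * p x ^ 2 + ε * q x ^ 2 := by
  rw [R_apply, Bf_add, Bf_smul, Bf_smul, h.p_sq, h.q_sq]

lemma R_unit [FiniteDimensional ℝ E] (h : Dt p pd q qd u U v a w b) {κ M ε : ℝ} (_hM : 0 ≤ M)
    (hκ : M < κ) (hqp : ∀ x, q x ^ 2 ≤ M * p x ^ 2) (hε : -1 ≤ ε) :
    IsUnit (h.R κ ε) := by
  have hinj : Function.Injective (h.R κ ε) := by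
    rw [injective_iff_map_eq_zero]
    intro x hx
    by_contra hne
    have h1 := h.R_form κ ε x
    rw [hx] at h1
    have h2 : h.Bf (0 : Hs U w) x = 0 := by simp [Bf]
    rw [h2] at h1
    have hx0 : (x : E) ≠ 0 := fun hc => hne (Subtype.ext hc)
    have h3 := h.hp.pos hx0
    have h4 := hqp x
    have h5 : 0 ≤ q (x : E) ^ 2 := sq_nonneg _
    have h6 : 0 < p (x : E) ^ 2 := by positivity
    nlinarith
  rw [ContinuousLinearMap.isUnit_iff_bijective]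
  exact ⟨hinj, (LinearMap.injective_iff_surjective (f := (h.R κ ε).toLinearMap)).mp hinj⟩

/-- The resolvent function. -/
noncomputable def F (h : Dt p pd q qd u U v a w b) (κ : ℝ) (x : Hs U w) (ε : ℝ) : ℝ :=
  ⟪(x : E), U (Ring.inverse (h.R κ ε) x : Hs U w)⟫

lemma F_eq (h : Dt p pd q qd u U v a w b) {κ ε : ℝ} (hu : IsUnit (h.R κ ε)) {x z : Hs U w}
    (hz : h.R κ ε z = x) : h.F κ x ε = ⟪(x : E), U z⟫ := by
  unfold F
  have : Ring.inverse (h.R κ ε) x = z := by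
    rw [← hz, ← ContinuousLinearMap.mul_apply, Ring.inverse_mul_cancel _ hu]
    rfl
  rw [this]

lemma F_analytic [FiniteDimensional ℝ E] (h : Dt p pd q qd u U v a w b) {κ M : ℝ} (hM : 0 ≤ M)
    (hκ : M < κ) (hqp : ∀ x, q x ^ 2 ≤ M * p x ^ 2) (x : Hs U w) :
    AnalyticOnNhd ℝ (h.F κ x) (Set.Icc (-1) 1) := by
  intro ε hε
  have hu := h.R_unit hM hκ hqp hε.1
  obtain ⟨r, hr⟩ := hu
  have h1 : AnalyticAt ℝ (fun ε : ℝ => h.R κ ε) ε := by
    have e1 : (fun ε : ℝ => h.R κ ε)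
        = fun ε => κ • h.Sb + (ContinuousLinearMap.smulRight (1 : ℝ →L[ℝ] ℝ) h.Sa) ε := by
      funext ε
      simp [R]
    rw [e1]
    exact analyticAt_const.add (ContinuousLinearMap.analyticAt _ _)
  have h2 : AnalyticAt ℝ (Ring.inverse : (Hs U w →L[ℝ] Hs U w) → _) (h.R κ ε) := by
    rw [← hr]
    exact analyticAt_inverse (𝕜 := ℝ) (A := Hs U w →L[ℝ] Hs U w) r
  have h3 : AnalyticAt ℝ (fun ε : ℝ => Ring.inverse (h.R κ ε)) ε :=
    AnalyticAt.comp (g := Ring.inverse) (f := fun ε : ℝ => h.R κ ε) h2 h1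
  let L : (Hs U w →L[ℝ] Hs U w) →L[ℝ] ℝ :=
    ((innerSL ℝ (x : E)).comp (U.comp (Hs U w).subtypeL)).comp
      (ContinuousLinearMap.apply ℝ (Hs U w) x)
  have h4 : h.F κ x = fun ε : ℝ => L (Ring.inverse (h.R κ ε)) := by
    funext ε
    rfl
  rw [h4]
  exact (L.analyticAt _).comp h3

/-- Comparison of two resolvents at positive parameters. -/
lemma cmp (h : Dt p pd q qd u U v a w b) (h' : Dt p pd q qd u' U' v' a' w' b') {κ ε : ℝ}
    (hκ : 0 ≤ κ) (hε : 0 ≤ ε) {x z z' : E} (hz : z ∈ Hs U w) (hz' : z' ∈ Hs U' w')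
    (e : κ • b (U z) + ε • a (U z) = x) (e' : κ • b' (U' z') + ε • a' (U' z') = x) :
    ⟪x, U' z'⟫ ≤ ⟪x, U z⟫ := by
  have r := h.rel hz
  have r' := h'.rel hz'
  generalize U z = s at *
  have r1 := r'.pdy
  have r2 := r'.qdy
  generalize U' z' = s' at *
  have psd : ∀ {A : E →L[ℝ] E}, Sym A → Psd A → 2 * ⟪A s, s'⟫ ≤ ⟪A s, s⟫ + ⟪A s', s'⟫ := by
    intro A hs hp
    have h1 := hp (s - s')
    simp only [map_sub, inner_sub_left, inner_sub_right] at h1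
    have h2 : ⟪A s', s⟫ = ⟪A s, s'⟫ := by rw [hs, real_inner_comm]
    linarith
  have k1 := psd h.B.sv h.B.pv
  have k2 := psd h.B.su h.B.pu
  have k3 := h.B.lv s'
  have k4 := h.B.lu s'
  have x1 : ⟪x, s'⟫ = κ * ⟪b s, s'⟫ + ε * ⟪a s, s'⟫ := by
    rw [← e, inner_add_left, inner_smul_left, inner_smul_left]; simp
  have x2 : ⟪x, s⟫ = κ * ⟪b s, s⟫ + ε * ⟪a s, s⟫ := by
    rw [← e, inner_add_left, inner_smul_left, inner_smul_left]; simp
  have x3 : ⟪x, s'⟫ = κ * ⟪b' s', s'⟫ + ε * ⟪a' s', s'⟫ := by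
    rw [← e', inner_add_left, inner_smul_left, inner_smul_left]; simp
  have m1 : κ * (2 * ⟪b s, s'⟫) ≤ κ * (⟪b s, s⟫ + ⟪b' s', s'⟫) :=
    mul_le_mul_of_nonneg_left (by linarith) hκ
  have m2 : ε * (2 * ⟪a s, s'⟫) ≤ ε * (⟪a s, s⟫ + ⟪a' s', s'⟫) :=
    mul_le_mul_of_nonneg_left (by linarith) hε
  nlinarith

/-- The resolvent value at `ε = -1` depends only on `x`. -/
lemma uniq [FiniteDimensional ℝ E] (h : Dt p pd q qd u U v a w b)
    (h' : Dt p pd q qd u' U' v' a' w' b') {κ M : ℝ} (hM : 0 ≤ M) (hκ : M < κ)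
    (hqp : ∀ x, q x ^ 2 ≤ M * p x ^ 2) {x z z' : E} (hx : x ∈ Hs U w) (hx' : x ∈ Hs U' w')
    (hz : z ∈ Hs U w) (hz' : z' ∈ Hs U' w')
    (e : κ • b (U z) - a (U z) = x) (e' : κ • b' (U' z') - a' (U' z') = x) :
    ⟪x, U z⟫ = ⟪x, U' z'⟫ := by
  have f1 := h.F_analytic hM hκ hqp ⟨x, hx⟩
  have f2 := h'.F_analytic hM hκ hqp ⟨x, hx'⟩
  have hev : h.F κ ⟨x, hx⟩ =ᶠ[𝓝 (1/2 : ℝ)] h'.F κ ⟨x, hx'⟩ := by
    have : Set.Ioi (0:ℝ) ∈ 𝓝 (1/2 : ℝ) := Ioi_mem_nhds (by norm_num)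
    filter_upwards [this] with ε hε
    have hε' : (0:ℝ) < ε := hε
    have hκ0 : 0 ≤ κ := by linarith
    have u1 := h.R_unit (ε := ε) hM hκ hqp (by linarith)
    have u2 := h'.R_unit (ε := ε) hM hκ hqp (by linarith)
    obtain ⟨y, hy⟩ := (ContinuousLinearMap.isUnit_iff_bijective.mp u1).2 ⟨x, hx⟩
    obtain ⟨y', hy'⟩ := (ContinuousLinearMap.isUnit_iff_bijective.mp u2).2 ⟨x, hx'⟩
    rw [h.F_eq u1 hy, h'.F_eq u2 hy']
    have c1 : κ • b (U (y : E)) + ε • a (U (y : E)) = x := by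
      have := congrArg Subtype.val hy
      rw [R_apply] at this
      simpa [Sa_coe, Sb_coe] using this
    have c2 : κ • b' (U' (y' : E)) + ε • a' (U' (y' : E)) = x := by
      have := congrArg Subtype.val hy'
      rw [R_apply] at this
      simpa [Sa_coe, Sb_coe] using this
    exact le_antisymm (h'.cmp h hκ0 hε'.le y'.2 y.2 c2 c1) (h.cmp h' hκ0 hε'.le y.2 y'.2 c1 c2)
  have heq := f1.eqOn_of_preconnected_of_eventuallyEq f2 isPreconnected_Icc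
    (z₀ := (1/2 : ℝ)) (by constructor <;> norm_num) hev
  have h1 := heq (show (-1 : ℝ) ∈ Set.Icc (-1 : ℝ) 1 by constructor <;> norm_num)
  have u1 := h.R_unit (ε := -1) hM hκ hqp le_rfl
  have u2 := h'.R_unit (ε := -1) hM hκ hqp le_rfl
  have g1 : h.R κ (-1) ⟨z, hz⟩ = ⟨x, hx⟩ := by
    apply Subtype.ext
    rw [R_apply]
    simp only [neg_smul, one_smul, Submodule.coe_add, Submodule.coe_smul, Submodule.coe_neg,
      Sa_coe, Sb_coe]
    rw [← e]; abel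
  have g2 : h'.R κ (-1) ⟨z', hz'⟩ = ⟨x, hx'⟩ := by
    apply Subtype.ext
    rw [R_apply]
    simp only [neg_smul, one_smul, Submodule.coe_add, Submodule.coe_smul, Submodule.coe_neg,
      Sa_coe, Sb_coe]
    rw [← e']; abel
  rw [h.F_eq u1 g1, h'.F_eq u2 g2] at h1
  exact h1

end Dt

/-- The dual bound for the ratio of the gauges. -/
lemma dual_ratio (hp : DP p pd) (hq : DP q qd) {M : ℝ} (hM : 0 ≤ M)
    (hqp : ∀ x, q x ^ 2 ≤ M * p x ^ 2) (y : E) : pd y ^ 2 ≤ M * qd y ^ 2 := by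
  have h1 : pd y ≤ Real.sqrt M * qd y := by
    refine hp.sup2 y _ (mul_nonneg (Real.sqrt_nonneg _) (hq.nnd y)) (fun x => ?_)
    have h2 : q x ≤ Real.sqrt M * p x := by
      refine le_of_abs_le (abs_le_of_sq_le_sq ?_ (mul_nonneg (Real.sqrt_nonneg _) (hp.nn x)))
      rw [mul_pow, Real.sq_sqrt hM]
      exact hqp x
    calc ⟪x, y⟫ ≤ q x * qd y := hq.le x y
      _ ≤ (Real.sqrt M * p x) * qd y := mul_le_mul_of_nonneg_right h2 (hq.nnd y)
      _ = _ := by ring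
  calc pd y ^ 2 ≤ (Real.sqrt M * qd y) ^ 2 := pow_le_pow_left₀ (hp.nnd y) h1 2
    _ = M * qd y ^ 2 := by rw [mul_pow, Real.sq_sqrt hM]

end Pool.Agent.H34.Env
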