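import Pool.Agent.H34.Env.Resolvent

open scoped RealInnerProductSpace Topology
open Filter

namespace Pool.Agent.H34.Env

variable {E : Type*} [NormedAddCommGroup E] [InnerProductSpace ℝ E]

variable {p pd q qd : E → ℝ} {u U v a w b : E →L[ℝ] E}

/-- Existence of data at every dual point. -/
def DataEx (p pd q qd : E → ℝ) : Prop := ∀ z : E, (DataAt p pd q qd z).Nonempty

lemma DataEx.smul_sq (hP : DataEx p pd q qd) (hp : DP p pd) (hq : DP q qd) (s : ℝ) (y : E) :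
    pd (s • y) ^ 2 = s ^ 2 * pd y ^ 2 ∧ qd (s • y) ^ 2 = s ^ 2 * qd y ^ 2 := by
  obtain ⟨d, hd⟩ := hP y
  have hd' : d ∈ DataAt p pd q qd (s • y) := by
    refine ⟨hd.1, hd.2.1, ?_⟩
    rw [map_smul, map_smul, hd.2.2]
  constructor
  · rw [dataAt_pd hp hq hd, dataAt_pd hp hq hd']
    simp only [map_smul, inner_smul_left, inner_smul_right, RCLike.conj_to_real]
    ring
  · rw [dataAt_qd hp hq hd, dataAt_qd hp hq hd']
    simp only [map_smul, inner_smul_left, inner_smul_right, RCLike.conj_to_real]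
    ring

namespace Dt

lemma conj_le [FiniteDimensional ℝ E] (h : Dt p pd q qd u U v a w b)
    (hP : DataEx p pd q qd) {κ M : ℝ} (hM : 0 ≤ M) (hκ : M < κ)
    (hqp : ∀ x, q x ^ 2 ≤ M * p x ^ 2) {x z : E} (hx : x ∈ Hs U w) (hz : z ∈ Hs U w)
    (e : κ • b (U z) - a (U z) = x) (y : E) :
    2 * ⟪x, y⟫ - κ * qd y ^ 2 + pd y ^ 2 ≤ ⟪x, U z⟫ := by
  obtain ⟨z₀, hz₀⟩ := exists_max h.hp h.hq hκ (dual_ratio h.hp h.hq hM hqp) x
  obtain ⟨d, hd, hdx⟩ := max_point h.hp h.hq hP (by linarith : 0 ≤ κ) x z₀ hz₀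
  have h' : Dt p pd q qd d.1.1 d.1.2.1 d.1.2.2 d.2.1 d.2.2.1 d.2.2.2 :=
    ⟨h.hp, h.hq, hd.1, hd.2.1⟩
  have hUw : d.1.2.1 (d.2.2.1 z₀) = z₀ := hd.2.2
  have hz' : d.2.2.1 z₀ ∈ Hs d.1.2.1 d.2.2.1 := by rw [mem_Hs, hUw]
  have e' : κ • d.2.2.2 (d.1.2.1 (d.2.2.1 z₀)) - d.2.1 (d.1.2.1 (d.2.2.1 z₀)) = x := by
    rw [hUw]; exact hdx
  have hx' : x ∈ Hs d.1.2.1 d.2.2.1 := by
    rw [← e']
    exact Submodule.sub_mem _ (Submodule.smul_mem _ _ (h'.Sb_mem hz')) (h'.Sa_mem hz')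
  have hu := h.uniq h' hM hκ hqp hx hx' hz hz' e e'
  rw [hUw] at hu
  have h1 := hz₀ y
  have h2 := dataAt_pd h.hp h.hq hd
  have h3 := dataAt_qd h.hp h.hq hd
  have h4 : ⟪x, z₀⟫ = κ * ⟪d.2.2.2 z₀, z₀⟫ - ⟪d.2.1 z₀, z₀⟫ := by
    rw [← hdx, inner_sub_left, inner_smul_left, RCLike.conj_to_real]
  rw [hu]
  rw [h2, h3] at h1
  linarith

/-- `M - S^2`. -/
noncomputable def Tm (h : Dt p pd q qd u U v a w b) (M : ℝ) : Hs U w →ₗ[ℝ] Hs U w :=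
  M • LinearMap.id - (h.Sa.toLinearMap.comp h.Sa.toLinearMap)

lemma Tm_apply (h : Dt p pd q qd u U v a w b) (M : ℝ) (x : Hs U w) :
    h.Tm M x = M • x - h.Sa (h.Sa x) := rfl

lemma Tm_sym (h : Dt p pd q qd u U v a w b) (M : ℝ) (x y : Hs U w) :
    h.Bf (h.Tm M x) y = h.Bf x (h.Tm M y) := by
  rw [Tm_apply, Tm_apply, Bf_sub, Bf_sub_right, Bf_smul, Bf_smul_right, Bf_Sa, Bf_Sa]

lemma Tm_Sa (h : Dt p pd q qd u U v a w b) (M : ℝ) (x : Hs U w) :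
    h.Tm M (h.Sa x) = h.Sa (h.Tm M x) := by
  rw [Tm_apply, Tm_apply, map_sub, map_smul]

lemma STm_nonneg (h : Dt p pd q qd u U v a w b) {M : ℝ} (hqp : ∀ x, q x ^ 2 ≤ M * p x ^ 2)
    (x : Hs U w) : 0 ≤ h.Bf (h.Sa x) (h.Tm M x) := by
  have h1 := h.p_sq (h.Sa x)
  rw [Sb_Sa] at h1
  have h2 := h.q_sq (h.Sa x)
  have h3 := hqp (h.Sa x : E)
  have h4 : h.Bf (h.Sa x) (h.Tm M x) = M * h.Bf x (h.Sa x) - h.Bf (h.Sa (h.Sa x)) (h.Sa x) := by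
    rw [Tm_apply, Bf_sub_right, Bf_smul_right, Bf_comm h (h.Sa x) x,
      Bf_comm h (h.Sa x) (h.Sa (h.Sa x))]
  rw [h4, ← h1, ← h2]
  linarith

lemma resolvent_bound (h : Dt p pd q qd u U v a w b) {M κ : ℝ} (hκ : M ≤ κ)
    (hqp : ∀ x, q x ^ 2 ≤ M * p x ^ 2) {r z : Hs U w}
    (hz : h.R κ (-1) z = h.Tm M r) :
    h.Bf z (h.Tm M r) ≤ h.Bf (h.Sa (h.Tm M r)) r := by
  set t : Hs U w := h.Sb z with ht
  have hzt : z = h.Sa t := by rw [ht, Sa_Sb]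
  have e1 : h.Tm M t + (κ - M) • t = h.Tm M r := by
    rw [← hz, R_apply, Tm_apply, hzt, Sb_Sa]
    module
  set D : Hs U w := r - t with hD
  have e2 : h.Tm M D = (κ - M) • t := by
    rw [hD, map_sub, ← e1]
    abel
  have f1 : h.Bf (h.Sa (h.Tm M r)) r = h.Bf (h.Sa r) (h.Tm M r) := by
    rw [Bf_Sa, Bf_comm]
  have f2 : h.Bf (h.Sa r) (h.Tm M r) - h.Bf z (h.Tm M r) = h.Bf (h.Sa D) (h.Tm M r) := by
    rw [hD, map_sub, Bf_sub, ← hzt]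
  have f3 : h.Bf (h.Sa D) (h.Tm M r) = h.Bf (h.Sa D) (h.Tm M t) + h.Bf (h.Sa D) ((κ - M) • t) := by
    rw [← e1, Bf_add_right]
  have f4 : h.Bf (h.Sa D) (h.Tm M t) = (κ - M) * q t ^ 2 := by
    rw [← Tm_sym, Tm_Sa, e2, map_smul, Bf_smul, ← q_sq]
  have f5 : 0 ≤ h.Bf (h.Sa D) ((κ - M) • t) := by
    rw [← e2]
    exact h.STm_nonneg hqp D
  have f6 : 0 ≤ (κ - M) * q t ^ 2 := mul_nonneg (by linarith) (sq_nonneg _)
  rw [f1]
  linarith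

lemma ortho [FiniteDimensional ℝ E] (h : Dt p pd q qd u U v a w b)
    (hP : DataEx p pd q qd) {M : ℝ} (hM : 0 ≤ M)
    (hqp : ∀ x, q x ^ 2 ≤ M * p x ^ 2) (r : Hs U w) {y : E} (hy : pd y ^ 2 = M * qd y ^ 2) :
    ⟪(h.Tm M r : E), y⟫ = 0 := by
  set x : Hs U w := h.Tm M r with hx
  set C : ℝ := h.Bf (h.Sa (h.Tm M r)) r with hC
  have key : ∀ κ : ℝ, M < κ → ∀ s : ℝ, 2 * s * ⟪(x : E), y⟫ ≤ s ^ 2 * (κ - M) * qd y ^ 2 + C := by
    intro κ hκ s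
    have hu := h.R_unit (ε := -1) hM hκ hqp le_rfl
    obtain ⟨z, hz⟩ := (ContinuousLinearMap.isUnit_iff_bijective.mp hu).2 x
    have hz' : κ • b (U (z : E)) - a (U (z : E)) = x := by
      have := congrArg Subtype.val hz
      rw [R_apply] at this
      rw [← this]
      simp only [neg_smul, one_smul, Submodule.coe_add, Submodule.coe_smul, Submodule.coe_neg,
        Sa_coe, Sb_coe]
      abel
    have h1 := h.conj_le hP hM hκ hqp x.2 z.2 hz' (s • y)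
    have h2 := h.resolvent_bound hκ.le hqp (r := r) hz
    have h3 : ⟪(x : E), U (z : E)⟫ = h.Bf z x := by
      unfold Bf
      rw [real_inner_comm]
    obtain ⟨h4, h5⟩ := hP.smul_sq h.hp h.hq s y
    rw [h4, h5, hy, inner_smul_right] at h1
    rw [h3] at h1
    nlinarith
  have key2 : ∀ s : ℝ, 2 * s * ⟪(x : E), y⟫ ≤ C := by
    intro s
    by_contra hcon
    push Not at hcon
    set δ := 2 * s * ⟪(x : E), y⟫ - C with hδ
    have hδ0 : 0 < δ := by linarith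
    set Q := s ^ 2 * qd y ^ 2 with hQ
    have hQ0 : 0 ≤ Q := by positivity
    have h1 := key (M + δ / (2 * (Q + 1))) (by
      have : 0 < δ / (2 * (Q + 1)) := by positivity
      linarith) s
    have h2 : s ^ 2 * (M + δ / (2 * (Q + 1)) - M) * qd y ^ 2 = Q * (δ / (2 * (Q + 1))) := by
      rw [hQ]; ring
    have h3 : Q * (δ / (2 * (Q + 1))) < δ := by
      rw [mul_div_assoc', div_lt_iff₀ (by positivity)]
      nlinarith
    rw [h2] at h1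
    linarith
  by_contra hne
  have h1 := key2 ((C + 1) / (2 * ⟪(x : E), y⟫))
  have h2 : 2 * ((C + 1) / (2 * ⟪(x : E), y⟫)) * ⟪(x : E), y⟫ = C + 1 := by
    field_simp
  rw [h2] at h1
  linarith

/-- The dual data set. -/
lemma dual (h : Dt p pd q qd u U v a w b) : Dt qd q pd p b w a v U u :=
  ⟨h.hq.symm, h.hp.symm, h.B.swap, h.A.swap⟩

lemma ortho_dual [FiniteDimensional ℝ E] (h : Dt p pd q qd u U v a w b)
    (hP' : DataEx qd q pd p) {M : ℝ} (hM : 0 ≤ M)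
    (hqp : ∀ x, q x ^ 2 ≤ M * p x ^ 2) (r : Hs U w) {y : E} (hy : q y ^ 2 = M * p y ^ 2) :
    ⟪U (h.Tm M r : E), y⟫ = 0 := by
  have hr := h.rel r.2
  have hr' : U (r : E) ∈ Hs w U := by
    rw [mem_Hs, hr.fix]
  have h1 := h.dual.ortho hP' hM (dual_ratio h.hp h.hq hM hqp) ⟨U r, hr'⟩ hy
  have h2 : ((h.dual.Tm M ⟨U r, hr'⟩ : Hs w U) : E) = U (h.Tm M r : E) := by
    rw [Tm_apply, Tm_apply]
    simp only [Submodule.coe_sub, Submodule.coe_smul, Sa_coe, map_sub, map_smul]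
    have k1 := h.rel (h.Sa_mem r.2)
    rw [hr.fix, hr.wvx, ← k1.Uay]
  rw [h2] at h1
  exact h1

/-- Splitting off the eigenvalue `M`. -/
lemma split_point [FiniteDimensional ℝ E] (h : Dt p pd q qd u U v a w b)
    (hP : DataEx p pd q qd) (hP' : DataEx qd q pd p) {M : ℝ} (hM : 0 ≤ M)
    (hqp : ∀ x, q x ^ 2 ≤ M * p x ^ 2) {x : E} (hx : x ∈ Hs U w) :
    ∃ x1 x2 : E, x = x1 + x2 ∧ x1 ∈ Hs U w ∧ x2 ∈ Hs U w ∧ q x1 ^ 2 = M * p x1 ^ 2 ∧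
      pd (U x1) ^ 2 = M * qd (U x1) ^ 2 ∧
      (∀ y, pd y ^ 2 = M * qd y ^ 2 → ⟪x2, y⟫ = 0) ∧
      (∀ y, q y ^ 2 = M * p y ^ 2 → ⟪U x2, y⟫ = 0) ∧
      p x ^ 2 = p x1 ^ 2 + p x2 ^ 2 ∧ q x ^ 2 = q x1 ^ 2 + q x2 ^ 2 := by
  have hdis : Disjoint (LinearMap.ker (h.Tm M)) (LinearMap.range (h.Tm M)) := by
    rw [Submodule.disjoint_def]
    rintro y hy ⟨r, rfl⟩
    rw [LinearMap.mem_ker] at hy
    by_contra hne
    have h1 := h.Bf_self_pos hne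
    rw [Tm_sym, hy] at h1
    simp [Bf] at h1
  have htop : LinearMap.ker (h.Tm M) ⊔ LinearMap.range (h.Tm M) = ⊤ := by
    apply Submodule.eq_top_of_disjoint _ _ _ hdis
    rw [← LinearMap.finrank_range_add_finrank_ker (h.Tm M), add_comm]
  have hmem : (⟨x, hx⟩ : Hs U w) ∈ LinearMap.ker (h.Tm M) ⊔ LinearMap.range (h.Tm M) := by
    rw [htop]; trivial
  rw [Submodule.mem_sup] at hmem
  obtain ⟨x1, hx1, x2', ⟨r, rfl⟩, hsum⟩ := hmem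
  rw [LinearMap.mem_ker] at hx1
  have hSS : h.Sa (h.Sa x1) = M • x1 := by
    rw [Tm_apply, sub_eq_zero] at hx1
    exact hx1.symm
  have hS : h.Sa x1 = M • h.Sb x1 := by
    have := congrArg h.Sb hSS
    rw [Sb_Sa, map_smul] at this
    exact this
  have hTSb : h.Tm M (h.Sb x1) = 0 := by
    rw [Tm_apply, Sa_Sb, hS, sub_self]
  have hTSa : h.Tm M (h.Sa x1) = 0 := by
    rw [Tm_Sa, hx1, map_zero]
  have hq1 : q (x1 : E) ^ 2 = M * p (x1 : E) ^ 2 := by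
    rw [q_sq h, p_sq h, hS, Bf_smul]
  have r1 := h.rel x1.2
  refine ⟨x1, h.Tm M r, ?_, x1.2, (h.Tm M r).2, hq1, ?_, ?_, ?_, ?_, ?_⟩
  · have := congrArg Subtype.val hsum
    simpa using this.symm
  · rw [r1.pq, r1.qp, hq1]
  · intro y hy
    exact h.ortho hP hM hqp r hy
  · intro y hy
    exact h.ortho_dual hP' hM hqp r hy
  · have e0 : p x ^ 2 = h.Bf (h.Sb (x1 + h.Tm M r)) (x1 + h.Tm M r) := by
      rw [← p_sq, hsum]
    have c1 : h.Bf (h.Sb x1) (h.Tm M r) = 0 := by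
      rw [← Tm_sym, hTSb]; simp [Bf]
    have c2 : h.Bf (h.Sb (h.Tm M r)) x1 = 0 := by
      rw [Bf_Sb, Bf_comm, c1]
    rw [e0, map_add, Bf_add, Bf_add_right, Bf_add_right, c1, c2, ← p_sq, ← p_sq]
    ring
  · have e0 : q x ^ 2 = h.Bf (h.Sa (x1 + h.Tm M r)) (x1 + h.Tm M r) := by
      rw [← q_sq, hsum]
    have c1 : h.Bf (h.Sa x1) (h.Tm M r) = 0 := by
      rw [← Tm_sym, hTSa]; simp [Bf]
    have c2 : h.Bf (h.Sa (h.Tm M r)) x1 = 0 := by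
      rw [Bf_Sa, Bf_comm, c1]
    rw [e0, map_add, Bf_add, Bf_add_right, Bf_add_right, c1, c2, ← q_sq, ← q_sq]
    ring

end Dt

end Pool.Agent.H34.Env
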